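import Mathlib

open Finset

namespace Pool.Agent.Helper112

theorem prime_pow_aux (ε : ℝ) (hε : 0 < ε) : ∃ C : ℝ, 1 ≤ C ∧ ∀ p : ℕ, 2 ≤ p → ∀ v : ℕ,
    (v : ℝ) + 1 ≤ C * ((p : ℝ) ^ v) ^ ε := by
  set c := ε * Real.log 2 with hc
  have hl2 : 0 < Real.log 2 := Real.log_pos (by norm_num)
  have hc0 : 0 < c := by positivity
  refine ⟨max 1 (1 / c), le_max_left _ _, ?_⟩
  intro p hp v
  have hp' : (2:ℝ) ≤ p := by exact_mod_cast hp
  have h1 : ((2:ℝ) ^ v) ^ ε ≤ ((p:ℝ) ^ v) ^ ε := by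
    apply Real.rpow_le_rpow (by positivity) _ hε.le
    exact pow_le_pow_left₀ (by norm_num) hp' v
  have h2 : 1 + v * c ≤ ((2:ℝ) ^ v) ^ ε := by
    have : ((2:ℝ) ^ v) ^ ε = Real.exp (v * c) := by
      rw [← Real.rpow_natCast, ← Real.rpow_mul (by norm_num), Real.rpow_def_of_pos (by norm_num)]
      congr 1; rw [hc]; ring
    rw [this]
    have := Real.add_one_le_exp (v * c)
    linarith
  have hC : (1:ℝ) ≤ max 1 (1 / c) := le_max_left _ _
  have hC2 : 1 / c ≤ max 1 (1 / c) := le_max_right _ _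
  calc (v : ℝ) + 1 = 1 + v * c * (1 / c) := by field_simp; ring
    _ ≤ max 1 (1/c) * 1 + v * c * max 1 (1 / c) := by
        have : (0:ℝ) ≤ v * c := by positivity
        have := mul_le_mul_of_nonneg_left hC2 this
        linarith
    _ = max 1 (1/c) * (1 + v * c) := by ring
    _ ≤ max 1 (1/c) * ((p:ℝ) ^ v) ^ ε := by
        apply mul_le_mul_of_nonneg_left (h2.trans h1) (by positivity)

/-- T5a. divisor bound -/
theorem divisor_bound (ε : ℝ) (hε : 0 < ε) :
    ∃ C : ℝ, 0 < C ∧ ∀ n : ℕ, 1 ≤ n → (n.divisors.card : ℝ) ≤ C * (n : ℝ) ^ ε := by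
  classical
  obtain ⟨C, hC1, hC⟩ := prime_pow_aux ε hε
  obtain ⟨P, hP⟩ := exists_nat_ge ((2:ℝ) ^ (1/ε))
  refine ⟨C ^ P, by positivity, ?_⟩
  intro n hn
  have hn0 : n ≠ 0 := by omega
  rw [Nat.card_divisors hn0]
  push_cast
  have hnprod : (n:ℝ) ^ ε = ∏ p ∈ n.primeFactors, ((p:ℝ) ^ (n.factorization p)) ^ ε := by
    rw [Real.finsetProd_rpow _ _ (fun p _ => by positivity)]
    congr 1
    conv_lhs => rw [← Nat.prod_factorization_pow_eq_self hn0]
    rw [Finsupp.prod]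
    push_cast
    rfl
  have hterm : ∀ p ∈ n.primeFactors, ((n.factorization p : ℝ) + 1) ≤
      (if p < P then C else 1) * ((p:ℝ) ^ (n.factorization p)) ^ ε := by
    intro p hp
    have hpp := Nat.prime_of_mem_primeFactors hp
    split_ifs with h
    · exact hC p hpp.two_le _
    · push Not at h
      have h1 : (2:ℝ) ^ (1/ε) ≤ p := hP.trans (by exact_mod_cast h)
      have h2 : (2:ℝ) ≤ (p:ℝ) ^ ε := by
        have := Real.rpow_le_rpow (by positivity) h1 hε.le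
        rwa [← Real.rpow_mul (by norm_num), one_div_mul_cancel hε.ne', Real.rpow_one] at this
      have h3 : ((p:ℝ) ^ (n.factorization p)) ^ ε = ((p:ℝ) ^ ε) ^ (n.factorization p) := by
        rw [← Real.rpow_natCast, ← Real.rpow_natCast, ← Real.rpow_mul (by positivity),
          ← Real.rpow_mul (by positivity), mul_comm]
      rw [one_mul, h3]
      have h4 : ((n.factorization p : ℝ) + 1) ≤ 2 ^ (n.factorization p) := by
        exact_mod_cast Nat.lt_two_pow_self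
      exact h4.trans (pow_le_pow_left₀ (by norm_num) h2 _)
  calc ∏ p ∈ n.primeFactors, ((n.factorization p : ℝ) + 1)
      ≤ ∏ p ∈ n.primeFactors, ((if p < P then C else 1) * ((p:ℝ) ^ (n.factorization p)) ^ ε) :=
        Finset.prod_le_prod (fun p _ => by positivity) hterm
    _ = (∏ p ∈ n.primeFactors, (if p < P then C else 1)) * (n:ℝ) ^ ε := by
        rw [Finset.prod_mul_distrib, hnprod]
    _ ≤ C ^ P * (n:ℝ) ^ ε := by
        apply mul_le_mul_of_nonneg_right _ (by positivity)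
        rw [← Finset.prod_filter, Finset.prod_const]
        apply pow_le_pow_right₀ hC1
        calc _ ≤ (Finset.range P).card := Finset.card_le_card (by
              intro p hp; rw [Finset.mem_filter] at hp; exact Finset.mem_range.mpr hp.2)
          _ = P := Finset.card_range P

theorem ratio_eq (r : ℕ) (hr : r ≠ 0) : (r : ℝ) / (Nat.totient r : ℝ) = ∏ p ∈ r.primeFactors, ((p:ℝ) / (p - 1)) := by
  have h := Nat.totient_mul_prod_primeFactors r
  have h' : (Nat.totient r : ℝ) * ∏ p ∈ r.primeFactors, (p : ℝ) = r * ∏ p ∈ r.primeFactors, ((p : ℝ) - 1) := by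
    have h2 : ((Nat.totient r * ∏ p ∈ r.primeFactors, p : ℕ) : ℝ) = ((r * ∏ p ∈ r.primeFactors, (p - 1) : ℕ) : ℝ) := by
      exact_mod_cast h
    push_cast at h2
    rw [h2]
    congr 1
    apply Finset.prod_congr rfl
    intro p hp
    have := (Nat.prime_of_mem_primeFactors hp).one_le
    push_cast [Nat.cast_sub this]
    rfl
  have hφ : (Nat.totient r : ℝ) ≠ 0 := by
    have := Nat.totient_pos.mpr (Nat.pos_of_ne_zero hr); positivity
  have hp1 : ∏ p ∈ r.primeFactors, ((p : ℝ) - 1) ≠ 0 := by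
    rw [Finset.prod_ne_zero_iff]
    intro p hp
    have := (Nat.prime_of_mem_primeFactors hp).two_le
    have : (2:ℝ) ≤ p := by exact_mod_cast this
    linarith
  rw [Finset.prod_div_distrib, div_eq_div_iff hφ hp1]
  linarith

theorem ratio_sq_le (r : ℕ) (hr : r ≠ 0) :
    ((r : ℝ) / (Nat.totient r : ℝ)) ^ 2 ≤ ∑ e ∈ r.divisors, ((e.divisors.card : ℝ) ^ 3 / e) := by
  rw [ratio_eq r hr, ← Finset.prod_pow]
  have h1 : ∏ p ∈ r.primeFactors, ((p:ℝ) / (p - 1)) ^ 2 ≤ ∏ p ∈ r.primeFactors, (1 + 6 / (p:ℝ)) := by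
    apply Finset.prod_le_prod (fun p _ => by positivity)
    intro p hp
    have := (Nat.prime_of_mem_primeFactors hp).two_le
    have hp2 : (2:ℝ) ≤ p := by exact_mod_cast this
    have hp1 : (0:ℝ) < p - 1 := by linarith
    have hp0 : (0:ℝ) < p := by linarith
    rw [div_pow, div_le_iff₀ (by positivity)]
    have : (1 + 6 / (p:ℝ)) * (p - 1) ^ 2 = ((p + 6) * (p - 1) ^ 2) / p := by field_simp
    rw [this, le_div_iff₀ hp0]
    nlinarith [mul_nonneg (sub_nonneg.mpr hp2) hp0.le]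
  refine h1.trans ?_
  rw [Finset.prod_one_add]
  -- sum over subsets of prime factors, map to divisors
  have hinj : Set.InjOn (fun s : Finset ℕ => ∏ p ∈ s, p) (r.primeFactors.powerset : Set (Finset ℕ)) := by
    intro s hs t ht hst
    simp only [Finset.coe_powerset, Set.mem_preimage, Set.mem_powerset_iff, Finset.coe_subset] at hs ht
    have h1 := Nat.primeFactors_prod (s := s) (fun p hp => Nat.prime_of_mem_primeFactors (hs hp))
    have h2 := Nat.primeFactors_prod (s := t) (fun p hp => Nat.prime_of_mem_primeFactors (ht hp))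
    simp only at hst
    rw [← h1, ← h2, hst]
  have hterm : ∀ s ∈ r.primeFactors.powerset, ∏ p ∈ s, (6 / (p:ℝ)) ≤
      (((∏ p ∈ s, p).divisors.card : ℝ) ^ 3 / ((∏ p ∈ s, p : ℕ) : ℝ)) := by
    intro s hs
    rw [Finset.mem_powerset] at hs
    have hpr : ∀ p ∈ s, p.Prime := fun p hp => Nat.prime_of_mem_primeFactors (hs hp)
    rw [Finset.prod_div_distrib, Finset.prod_const]
    push_cast
    apply div_le_div_of_nonneg_right _ (Finset.prod_nonneg fun p _ => by positivity)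
    have hne : (∏ p ∈ s, p) ≠ 0 := Finset.prod_ne_zero_iff.mpr (fun p hp => (hpr p hp).ne_zero)
    have hcard : 2 ^ s.card ≤ (∏ p ∈ s, p).divisors.card := by
      rw [Nat.card_divisors hne, Nat.primeFactors_prod hpr]
      rw [← Finset.prod_const]
      apply Finset.prod_le_prod' 
      intro p hp
      have : 1 ≤ (∏ p ∈ s, p).factorization p := by
        rw [← Nat.Prime.dvd_iff_one_le_factorization (hpr p hp) hne]
        exact Finset.dvd_prod_of_mem _ hp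
      omega
    have hcard' : (2:ℝ) ^ s.card ≤ ((∏ p ∈ s, p).divisors.card : ℝ) := by exact_mod_cast hcard
    calc (6:ℝ) ^ s.card ≤ 8 ^ s.card := pow_le_pow_left₀ (by norm_num) (by norm_num) _
      _ = ((2:ℝ) ^ s.card) ^ 3 := by rw [← pow_mul, mul_comm, pow_mul]; norm_num
      _ ≤ _ := pow_le_pow_left₀ (by positivity) hcard' 3
  refine (Finset.sum_le_sum hterm).trans ?_
  have e := Finset.sum_image (s := r.primeFactors.powerset) (g := fun s : Finset ℕ => ∏ p ∈ s, p)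
    (f := fun e : ℕ => ((e.divisors.card : ℝ) ^ 3 / (e : ℝ))) hinj
  rw [← e]
  apply Finset.sum_le_sum_of_subset_of_nonneg
  · intro e he
    rw [Finset.mem_image] at he
    obtain ⟨s, hs, rfl⟩ := he
    rw [Finset.mem_powerset] at hs
    rw [Nat.mem_divisors]
    refine ⟨?_, hr⟩
    exact (Finset.prod_dvd_prod_of_subset _ _ _ hs).trans (Nat.prod_primeFactors_dvd r)
  · intro e _ _; positivity

theorem harm_le (Y : ℕ) (hY : 1 ≤ Y) : ∑ k ∈ Icc 1 Y, (1 / (k:ℝ)) ≤ 1 + Real.log Y := by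
  have := harmonic_le_one_add_log Y
  rw [harmonic_eq_sum_Icc] at this
  push_cast at this
  simpa [one_div] using this

/-- T5b. -/
theorem sum_ratio_sq : ∃ C : ℝ, 0 < C ∧ ∀ Y : ℕ, 1 ≤ Y →
    ∑ r ∈ Icc 1 Y, (1 / (r : ℝ)) * ((r : ℝ) / (Nat.totient r : ℝ)) ^ 2 ≤ C * (1 + Real.log Y) := by
  obtain ⟨C, hC0, hC⟩ := divisor_bound (1/6) (by norm_num)
  have hsum : Summable (fun e : ℕ => C ^ 3 * (1 / (e:ℝ) ^ (3/2 : ℝ))) :=
    (Real.summable_one_div_nat_rpow.mpr (by norm_num)).mul_left _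
  set D := ∑' e : ℕ, C ^ 3 * (1 / (e:ℝ) ^ (3/2 : ℝ)) with hD
  have hDnn : 0 ≤ D := tsum_nonneg (fun e => by positivity)
  refine ⟨D + 1, by linarith, ?_⟩
  intro Y hY
  have hlog : 0 ≤ Real.log Y := Real.log_nonneg (by exact_mod_cast hY)
  have h1 : ∀ r ∈ Icc 1 Y, (1 / (r : ℝ)) * ((r : ℝ) / (Nat.totient r : ℝ)) ^ 2 ≤
      ∑ e ∈ Icc 1 Y, (if e ∣ r then (1 / (r:ℝ)) * ((e.divisors.card : ℝ) ^ 3 / e) else 0) := by
    intro r hr
    rw [mem_Icc] at hr
    have hr0 : r ≠ 0 := by omega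
    have h2 := ratio_sq_le r hr0
    have h3 : ∑ e ∈ Icc 1 Y, (if e ∣ r then (1 / (r:ℝ)) * ((e.divisors.card : ℝ) ^ 3 / e) else 0)
        = ∑ e ∈ r.divisors, (1 / (r:ℝ)) * ((e.divisors.card : ℝ) ^ 3 / e) := by
      rw [← Finset.sum_filter]
      apply Finset.sum_congr _ (fun _ _ => rfl)
      ext e
      rw [mem_filter, mem_Icc, Nat.mem_divisors]
      constructor
      · rintro ⟨_, h⟩; exact ⟨h, hr0⟩
      · rintro ⟨h, _⟩
        have := Nat.le_of_dvd (by omega) h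
        have := Nat.pos_of_dvd_of_pos h (by omega)
        exact ⟨⟨by omega, by omega⟩, h⟩
    rw [h3, ← Finset.mul_sum]
    gcongr
  refine (Finset.sum_le_sum h1).trans ?_
  rw [Finset.sum_comm]
  have h2 : ∀ e ∈ Icc 1 Y, ∑ r ∈ Icc 1 Y, (if e ∣ r then (1 / (r:ℝ)) * ((e.divisors.card : ℝ) ^ 3 / e) else 0)
      ≤ (C ^ 3 * (1 / (e:ℝ) ^ (3/2 : ℝ))) * (1 + Real.log Y) := by
    intro e he
    rw [mem_Icc] at he
    have he0 : (0:ℝ) < e := by exact_mod_cast (by omega : 0 < e)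
    have h3 : ∑ r ∈ Icc 1 Y, (if e ∣ r then (1 / (r:ℝ)) * ((e.divisors.card : ℝ) ^ 3 / e) else 0)
        ≤ ∑ k ∈ Icc 1 Y, (1 / ((e * k : ℕ):ℝ)) * ((e.divisors.card : ℝ) ^ 3 / e) := by
      rw [← Finset.sum_filter]
      have : (Icc 1 Y).filter (fun r => e ∣ r) ⊆ (Icc 1 Y).image (fun k => e * k) := by
        intro r hr
        rw [mem_filter, mem_Icc] at hr
        obtain ⟨⟨h1, h2⟩, k, rfl⟩ := hr
        rw [mem_image]
        refine ⟨k, ?_, rfl⟩
        rw [mem_Icc]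
        have : 1 ≤ k := Nat.pos_of_ne_zero (by rintro rfl; simp at h1)
        exact ⟨this, by nlinarith⟩
      refine (Finset.sum_le_sum_of_subset_of_nonneg this (fun _ _ _ => by positivity)).trans ?_
      rw [Finset.sum_image (by
        intro a _ b _ hab
        exact Nat.eq_of_mul_eq_mul_left (by omega) hab)]
    refine h3.trans ?_
    have h4 : ∑ k ∈ Icc 1 Y, (1 / ((e * k : ℕ):ℝ)) * ((e.divisors.card : ℝ) ^ 3 / e)
        = ((e.divisors.card : ℝ) ^ 3 / (e * e)) * ∑ k ∈ Icc 1 Y, (1 / (k:ℝ)) := by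
      rw [Finset.mul_sum]
      apply Finset.sum_congr rfl
      intro k hk
      rw [mem_Icc] at hk
      have : (0:ℝ) < k := by exact_mod_cast (by omega : 0 < k)
      push_cast
      field_simp
    rw [h4]
    have h5 : (e.divisors.card : ℝ) ^ 3 ≤ C ^ 3 * (e:ℝ) ^ (1/2 : ℝ) := by
      have h6 := pow_le_pow_left₀ (by positivity) (hC e he.1) 3
      rw [mul_pow, ← Real.rpow_natCast ((e:ℝ) ^ (1/6:ℝ)) 3, ← Real.rpow_mul he0.le] at h6
      norm_num at h6 ⊢
      exact h6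
    have h6 : (e.divisors.card : ℝ) ^ 3 / (e * e) ≤ C ^ 3 * (1 / (e:ℝ) ^ (3/2 : ℝ)) := by
      have h7 : (e:ℝ) * e = (e:ℝ) ^ (1/2:ℝ) * (e:ℝ) ^ (3/2:ℝ) := by
        rw [← Real.rpow_add he0, ← pow_two, ← Real.rpow_natCast]; norm_num
      rw [h7, div_le_iff₀ (by positivity)]
      have h8 : C ^ 3 * (1 / (e:ℝ) ^ (3/2 : ℝ)) * ((e:ℝ) ^ (1/2:ℝ) * (e:ℝ) ^ (3/2:ℝ)) = C ^ 3 * (e:ℝ) ^ (1/2:ℝ) := by
        field_simp
      rw [h8]; exact h5
    have h7 := harm_le Y hY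
    have h8 : 0 ≤ ∑ k ∈ Icc 1 Y, (1 / (k:ℝ)) := Finset.sum_nonneg (fun _ _ => by positivity)
    have h9 : 0 ≤ C ^ 3 * (1 / (e:ℝ) ^ (3/2 : ℝ)) := by positivity
    calc _ ≤ (C ^ 3 * (1 / (e:ℝ) ^ (3/2 : ℝ))) * ∑ k ∈ Icc 1 Y, (1 / (k:ℝ)) :=
          mul_le_mul_of_nonneg_right h6 h8
      _ ≤ _ := mul_le_mul_of_nonneg_left h7 h9
  refine (Finset.sum_le_sum h2).trans ?_
  rw [← Finset.sum_mul]
  have h3 : ∑ e ∈ Icc 1 Y, C ^ 3 * (1 / (e:ℝ) ^ (3/2 : ℝ)) ≤ D :=
    hsum.sum_le_tsum _ (fun _ _ => by positivity)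
  have : 0 ≤ 1 + Real.log Y := by linarith
  nlinarith

end Pool.Agent.Helper112

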