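import Mathlib

open Finset Filter

namespace Pool.Agent.Helper112

theorem log_pow_le (C : ℝ) (n : ℕ) (ε : ℝ) (hε : 0 < ε) :
    ∃ K0 : ℕ, ∀ K : ℕ, K0 ≤ K → C * (Real.log K) ^ n ≤ (K : ℝ) ^ ε := by
  have hC : 0 < 1 / (|C| + 1) := by positivity
  have h1 := (isLittleO_log_rpow_rpow_atTop (n : ℝ) hε).bound hC
  obtain ⟨X, hX⟩ := eventually_atTop.1 (h1.and (eventually_ge_atTop (1 : ℝ)))
  refine ⟨max (Nat.ceil X) 1, fun K hK => ?_⟩
  have hK1 : (1 : ℝ) ≤ K := by exact_mod_cast (le_max_right _ _).trans hK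
  have hKX : X ≤ K := (Nat.le_ceil X).trans (by exact_mod_cast (le_max_left _ _).trans hK)
  obtain ⟨h2, _⟩ := hX K hKX
  rw [Real.rpow_natCast, Real.norm_of_nonneg (pow_nonneg (Real.log_nonneg hK1) _),
    Real.norm_of_nonneg (Real.rpow_nonneg (by linarith) _)] at h2
  have h3 : 0 ≤ Real.log K ^ n := pow_nonneg (Real.log_nonneg hK1) _
  have h4 : 0 ≤ (K : ℝ) ^ ε := Real.rpow_nonneg (by linarith) _
  calc C * Real.log K ^ n ≤ (|C| + 1) * Real.log K ^ n := by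
        apply mul_le_mul_of_nonneg_right _ h3
        linarith [le_abs_self C]
    _ ≤ (|C| + 1) * (1 / (|C| + 1) * (K : ℝ) ^ ε) := by gcongr
    _ = (K : ℝ) ^ ε := by field_simp

theorem const_le_rpow (C : ℝ) (ε : ℝ) (hε : 0 < ε) :
    ∃ K0 : ℕ, ∀ K : ℕ, K0 ≤ K → C ≤ (K : ℝ) ^ ε := by
  obtain ⟨K0, h⟩ := log_pow_le C 0 ε hε
  exact ⟨K0, fun K hK => by simpa using h K hK⟩

end Pool.Agent.Helper112
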