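import Mathlib
import Pool.Agent.Helper112.Asym
import Pool.Agent.Helper112.TypeI
import Pool.Agent.Helper112.TypeII

open Finset

namespace Pool.Agent.Helper112

theorem Dl_split (x m a : ℕ) (f g : ℕ → ℝ) :
    |Dl x m a f| ≤ |Dl x m a (fun n => f n - g n)| + |Dl x m a g| := by
  have h : Dl x m a f = Dl x m a (fun n => f n - g n) + Dl x m a g := by
    unfold Dl
    rw [sum_sub_distrib, sum_sub_distrib]
    ring
  rw [h]
  exact abs_add_le _ _

/-- Bombieri-Vinogradov with large conductors -/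
theorem BV (L : ℕ) (hL : 4 ≤ L) : ∃ K0 : ℕ, ∀ K : ℕ, K0 ≤ K → ∀ (M : Finset ℕ) (a : ℕ → ℕ),
    (∀ m ∈ M, Squarefree m ∧ m * K ^ 2 ≤ K ^ (2 * L) ∧ m ≤ 2 * Nat.totient m ∧
      (∀ f, f ∣ m → f ≠ 1 → K ^ 2 ≤ f) ∧ (a m).Coprime m) →
    ∑ m ∈ M, |Dl (K ^ (4 * L)) m (a m) (fun n => ArithmeticFunction.vonMangoldt n)|
      ≤ (K : ℝ) ^ (4 * L) / Real.sqrt K := by
  obtain ⟨K1, h1⟩ := typeII_bound L hL
  obtain ⟨K2, h2⟩ := log_pow_le (80 * L) 1 (3 / 2) (by norm_num)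
  refine ⟨max 2 (max K1 K2), fun K hK M a hM => ?_⟩
  simp only [max_le_iff] at hK
  obtain ⟨hK2, e1, e2⟩ := hK
  have hII := h1 K e1 M a hM
  have hlog := h2 K e2
  rw [pow_one] at hlog
  have hKpos : (0 : ℝ) < K := by exact_mod_cast (by omega : 0 < K)
  have hK1 : 1 ≤ K := by omega
  have hcard : (M.card : ℝ) ≤ (K : ℝ) ^ (2 * L - 2) := by
    have h3 : M ⊆ Icc 1 (K ^ (2 * L - 2)) := by
      intro m hm
      obtain ⟨m1, m2, _⟩ := hM m hm
      rw [mem_Icc]
      refine ⟨Nat.pos_of_ne_zero m1.ne_zero, ?_⟩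
      have h4 : m * K ^ 2 ≤ K ^ (2 * L - 2) * K ^ 2 := by
        rw [← pow_add]
        rw [show 2 * L - 2 + 2 = 2 * L by omega]
        exact m2
      exact Nat.le_of_mul_le_mul_right h4 (by positivity)
    have h5 := card_le_card h3
    rw [Nat.card_Icc, Nat.add_sub_cancel] at h5
    exact_mod_cast h5
  have hI : ∀ m ∈ M, |Dl (K ^ (4 * L)) m (a m)
      (fun n => ArithmeticFunction.vonMangoldt n - LamII (K ^ L) (K ^ L) n)|
      ≤ 40 * L * (K : ℝ) ^ (2 * L) * Real.log K := by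
    intro m hm
    obtain ⟨m1, m2, m3, m4, m5⟩ := hM m hm
    have hx2 : 2 ≤ K ^ (4 * L) := hK2.trans (Nat.le_self_pow (by omega) K)
    have h3 := typeI_bound (K ^ L) (K ^ L) (K ^ (4 * L)) m (a m) (Nat.one_le_pow _ _ hK1)
      (Nat.one_le_pow _ _ hK1) hx2 (Nat.pow_le_pow_right hK1 (by omega))
      (Nat.pos_of_ne_zero m1.ne_zero) m5
    refine h3.trans (le_of_eq ?_)
    push_cast
    rw [Real.log_pow]
    push_cast
    ring
  calc ∑ m ∈ M, |Dl (K ^ (4 * L)) m (a m) (fun n => ArithmeticFunction.vonMangoldt n)|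
      ≤ ∑ m ∈ M, (|Dl (K ^ (4 * L)) m (a m)
          (fun n => ArithmeticFunction.vonMangoldt n - LamII (K ^ L) (K ^ L) n)| +
          |Dl (K ^ (4 * L)) m (a m) (fun n => LamII (K ^ L) (K ^ L) n)|) :=
        sum_le_sum (fun m _ => Dl_split _ _ _ _ _)
    _ ≤ ∑ m ∈ M, 40 * L * (K : ℝ) ^ (2 * L) * Real.log K + (K : ℝ) ^ (4 * L) / (2 * Real.sqrt K) := by
        rw [sum_add_distrib]
        exact add_le_add (sum_le_sum hI) hII
    _ ≤ (K : ℝ) ^ (4 * L) / (2 * Real.sqrt K) + (K : ℝ) ^ (4 * L) / (2 * Real.sqrt K) := by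
        apply add_le_add _ le_rfl
        rw [sum_const, nsmul_eq_mul]
        have hsq : 0 < Real.sqrt K := Real.sqrt_pos.2 hKpos
        have hlogK : 0 ≤ Real.log K := Real.log_nonneg (by exact_mod_cast hK1)
        have h32 : (K : ℝ) ^ (3 / 2 : ℝ) * Real.sqrt K = (K : ℝ) ^ 2 := by
          rw [Real.sqrt_eq_rpow, ← Real.rpow_add hKpos, ← Real.rpow_natCast]
          norm_num
        rw [le_div_iff₀ (by positivity)]
        calc (M.card : ℝ) * (40 * L * (K : ℝ) ^ (2 * L) * Real.log K) * (2 * Real.sqrt K)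
            ≤ (K : ℝ) ^ (2 * L - 2) * (40 * L * (K : ℝ) ^ (2 * L) * Real.log K) * (2 * Real.sqrt K) := by
              gcongr
          _ = (K : ℝ) ^ (2 * L - 2) * (K : ℝ) ^ (2 * L) * ((80 * L * Real.log K) * Real.sqrt K) := by ring
          _ ≤ (K : ℝ) ^ (2 * L - 2) * (K : ℝ) ^ (2 * L) * ((K : ℝ) ^ (3 / 2 : ℝ) * Real.sqrt K) := by
              gcongr
          _ = (K : ℝ) ^ (4 * L) := by
              rw [h32, ← pow_add, ← pow_add]
              congr 1
              omega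
    _ = (K : ℝ) ^ (4 * L) / Real.sqrt K := by
        rw [← add_div]
        have hsq : 0 < Real.sqrt K := Real.sqrt_pos.2 hKpos
        field_simp
        ring

end Pool.Agent.Helper112
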