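import Mathlib

set_option autoImplicit false

open Finset

namespace Pool.Agent.Helper112

theorem gos_geom_mul {x : ℤ} (hx : x ≠ 1) (m n : ℕ) :
    ∑ i ∈ range (m * n), x ^ i = (∑ i ∈ range m, x ^ i) * ∑ j ∈ range n, (x ^ m) ^ j := by
  have h1 := geom_sum_mul x (m * n)
  have h2 := geom_sum_mul x m
  have h3 := geom_sum_mul (x ^ m) n
  have hx' : x - 1 ≠ 0 := sub_ne_zero.2 hx
  apply mul_right_cancel₀ hx'
  rw [h1, mul_right_comm, h2, mul_comm (x ^ m - 1), h3, ← pow_mul]

/-- geometric sums to prime power exponents -/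
theorem gos_geom_pow {l : ℕ} {x : ℤ} (hx : x ≠ 1) (v : ℕ) (hlp : (l : ℤ) ∣ x - 1) :
    (l : ℤ) ^ v ∣ ∑ i ∈ range (l ^ v), x ^ i := by
  induction v with
  | zero => simp
  | succ v ih =>
    rw [pow_succ l v, gos_geom_mul hx, pow_succ]
    apply mul_dvd_mul ih
    have h1 : ∀ j ∈ range l, (l : ℤ) ∣ (x ^ (l ^ v)) ^ j - 1 := by
      intro j _
      rw [← pow_mul]
      exact hlp.trans (sub_one_dvd_pow_sub_one' x _)
    have h2 : (l : ℤ) ∣ ∑ j ∈ range l, ((x ^ (l ^ v)) ^ j - 1) := Finset.dvd_sum h1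
    have h3 : ∑ j ∈ range l, ((x ^ (l ^ v)) ^ j - 1) = (∑ j ∈ range l, (x ^ (l ^ v)) ^ j) - l := by
      rw [Finset.sum_sub_distrib]; simp
    rw [h3] at h2
    have := dvd_add h2 (dvd_refl (l : ℤ))
    simpa using this
where
  sub_one_dvd_pow_sub_one' (x : ℤ) (n : ℕ) : x - 1 ∣ x ^ n - 1 := by
    simpa using sub_dvd_pow_sub_pow x 1 n

/-- the server exponent -/
theorem gos_server {l p : ℕ} (hl : l.Prime) (hp : p.Prime) (hne : l ≠ p) (v : ℕ) :
    ∃ H : ℕ, 1 ≤ H ∧ H ≤ l ^ v ∧ l ^ v ∣ ∑ i ∈ range H, p ^ i := by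
  have hp1 : (p : ℤ) ≠ 1 := by exact_mod_cast hp.one_lt.ne'
  by_cases h : (l : ℤ) ∣ (p : ℤ) - 1
  · refine ⟨l ^ v, Nat.one_le_pow _ _ hl.pos, le_rfl, ?_⟩
    have := gos_geom_pow hp1 v h
    exact_mod_cast this
  · refine ⟨Nat.totient (l ^ v), Nat.totient_pos.2 (pow_pos hl.pos v), Nat.totient_le _, ?_⟩
    have hcop : Nat.Coprime p (l ^ v) :=
      Nat.Coprime.pow_right v ((Nat.coprime_primes hp hl).2 (Ne.symm hne))
    have h1 := Nat.ModEq.pow_totient hcop
    have h2 : ((l ^ v : ℕ) : ℤ) ∣ (p : ℤ) ^ (Nat.totient (l ^ v)) - 1 := by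
      have := h1.symm.dvd
      push_cast at this ⊢
      exact this
    rw [← geom_sum_mul] at h2
    have h3 : IsCoprime ((l ^ v : ℕ) : ℤ) ((p : ℤ) - 1) := by
      push_cast
      apply IsCoprime.pow_left
      rw [Int.isCoprime_iff_gcd_eq_one]
      have hl' : Prime (l : ℤ) := Nat.prime_iff_prime_int.1 hl
      exact Int.isCoprime_iff_gcd_eq_one.1 ((Irreducible.coprime_iff_not_dvd hl'.irreducible).2 h)
    have h4 := h3.dvd_of_dvd_mul_right h2
    exact_mod_cast h4

theorem gos_pow_dvd {r e s : ℕ} {a b : ℤ} (ha : IsCoprime a (r : ℤ)) (hb : IsCoprime b (r : ℤ))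
    (hs : Nat.totient (r ^ e) ∣ s) : ((r ^ e : ℕ) : ℤ) ∣ a ^ s - b ^ s := by
  have key : ∀ c : ℤ, IsCoprime c (r : ℤ) → ((c : ZMod (r ^ e))) ^ s = 1 := by
    intro c hc
    have h1 : IsUnit (c : ZMod (r ^ e)) := by
      rw [ZMod.coe_int_isUnit_iff_isCoprime]
      push_cast
      exact (hc.symm).pow_left
    obtain ⟨u, hu⟩ := h1
    obtain ⟨k, hk⟩ := hs
    rw [← hu, hk, pow_mul, ← Units.val_pow_eq_pow_val, ZMod.pow_totient]
    simp
  rw [← ZMod.intCast_zmod_eq_zero_iff_dvd]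
  push_cast
  rw [key a ha, key b hb, sub_self]

/-- T8. the arithmetic construction -/
theorem good_of_servers (Q S : Finset ℕ) (A : ℕ) (hQ : ∀ q ∈ Q, q.Prime) (hS : ∀ p ∈ S, p.Prime)
    (hQS : Disjoint Q S)
    (hcap : ∀ p ∈ S, A ≤ (Q.filter (fun q => p ∣ q + 1)).card)
    (hpow : ∀ r ∈ Q ∪ S, ∀ l v : ℕ, l.Prime → 1 ≤ v → l ^ v ∣ r - 1 → l ^ v ≤ A ∧ l ∉ S)
    (hcard : ((Q ∪ S).biUnion (fun r => (r - 1).primeFactors)).card ≤ S.card) :
    ∃ n : ℕ, n ≠ 0 ∧ (∏ q ∈ Q, q) ∣ n ∧ ∀ a b : ℤ, IsCoprime (a * b) (n : ℤ) →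
      (n : ℤ) ∣ a ^ (ArithmeticFunction.sigma 1 n) - b ^ (ArithmeticFunction.sigma 1 n) := by
  classical
  set Λ := (Q ∪ S).biUnion (fun r => (r - 1).primeFactors) with hΛ
  -- maximal exponents
  set V : ℕ → ℕ := fun l => (Q ∪ S).sup (fun r => (r - 1).factorization l) with hV
  have hΛp : ∀ l ∈ Λ, l.Prime ∧ l ∉ S ∧ l ^ (V l) ≤ A := by
    intro l hl
    rw [hΛ, mem_biUnion] at hl
    obtain ⟨r, hr, hlr⟩ := hl
    have hlp := Nat.prime_of_mem_primeFactors hlr
    have hd := Nat.dvd_of_mem_primeFactors hlr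
    refine ⟨hlp, (hpow r hr l 1 hlp le_rfl (by simpa using hd)).2, ?_⟩
    have hne : (Q ∪ S).Nonempty := ⟨r, hr⟩
    obtain ⟨r', hr', hmax⟩ := Finset.exists_mem_eq_sup (Q ∪ S) hne (fun r => (r - 1).factorization l)
    have hVl : V l = (r' - 1).factorization l := hmax
    have h1 : 1 ≤ V l := by
      have h2 : (r - 1).factorization l ≤ V l := Finset.le_sup (f := fun r => (r - 1).factorization l) hr
      have h3 : 0 < (r - 1).factorization l :=
        hlp.factorization_pos_of_dvd (Nat.mem_primeFactors.1 hlr).2.2 hd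
      omega
    rw [hVl] at h1 ⊢
    exact (hpow r' hr' l _ hlp h1 (Nat.ordProj_dvd _ _)).1
  -- injection
  obtain ⟨ι, hι, hinj⟩ : ∃ ι : ℕ → ℕ, (∀ l ∈ Λ, ι l ∈ S) ∧ Set.InjOn ι Λ := by
    obtain ⟨S', hS', hc⟩ := Finset.exists_subset_card_eq hcard
    have e := Finset.equivOfCardEq hc.symm
    refine ⟨fun l => if h : l ∈ Λ then (e ⟨l, h⟩ : ℕ) else 0, ?_, ?_⟩
    · intro l hl
      simp only [hl, dif_pos]
      exact hS' (e ⟨l, hl⟩).2
    · intro l hl m hm hlm
      rw [Finset.mem_coe] at hl hm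
      simp only [hl, hm, dif_pos] at hlm
      have := e.injective (Subtype.ext hlm)
      exact congrArg Subtype.val this
  have hserv : ∀ l ∈ Λ, ∃ H : ℕ, 1 ≤ H ∧ H ≤ l ^ (V l) ∧ l ^ (V l) ∣ ∑ i ∈ range H, (ι l) ^ i := by
    intro l hl
    have h1 := hΛp l hl
    exact gos_server h1.1 (hS _ (hι l hl)) (fun h => h1.2.1 (h ▸ hι l hl)) _
  choose! H hH using hserv
  -- exponents of servers
  set E : ℕ → ℕ := fun p => ∑ l ∈ Λ.filter (fun l => ι l = p), (H l - 1) with hE
  have hEι : ∀ l ∈ Λ, E (ι l) = H l - 1 := by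
    intro l hl
    have : Λ.filter (fun m => ι m = ι l) = {l} := by
      ext m
      rw [mem_filter, mem_singleton]
      constructor
      · rintro ⟨h1, h2⟩; exact hinj h1 hl h2
      · rintro rfl; exact ⟨hl, rfl⟩
    simp only [hE, this, Finset.sum_singleton]
  have hEA : ∀ p ∈ S, E p ≤ A := by
    intro p _
    by_cases h : ∃ l ∈ Λ, ι l = p
    · obtain ⟨l, hl, rfl⟩ := h
      rw [hEι l hl]
      have h1 := (hH l hl).2.1
      have h2 := (hΛp l hl).2.2
      omega
    · have : Λ.filter (fun m => ι m = p) = ∅ := by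
        apply Finset.filter_false_of_mem
        intro m hm hmp
        exact h ⟨m, hm, hmp⟩
      simp only [hE, this, Finset.sum_empty]
      exact Nat.zero_le _
  set n := (∏ q ∈ Q, q) * ∏ p ∈ S, p ^ (E p) with hn
  have hn0 : n ≠ 0 := by
    rw [hn]
    apply mul_ne_zero
    · exact Finset.prod_ne_zero_iff.2 fun q hq => (hQ q hq).ne_zero
    · exact Finset.prod_ne_zero_iff.2 fun p hp => pow_ne_zero _ (hS p hp).ne_zero
  -- sigma
  have hpair : ∀ p q : ℕ, p.Prime → q.Prime → p ≠ q → Nat.Coprime p q := fun p q hp hq h =>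
    (Nat.coprime_primes hp hq).2 h
  have hsig : ArithmeticFunction.sigma 1 n
      = (∏ q ∈ Q, (q + 1)) * ∏ p ∈ S, ArithmeticFunction.sigma 1 (p ^ (E p)) := by
    have hcopQS : Nat.Coprime (∏ q ∈ Q, q) (∏ p ∈ S, p ^ (E p)) := by
      apply Nat.Coprime.prod_left
      intro q hq
      apply Nat.Coprime.prod_right
      intro p hp
      apply Nat.Coprime.pow_right
      apply hpair q p (hQ q hq) (hS p hp)
      rintro rfl
      exact (Finset.disjoint_left.1 hQS hq) hp
    rw [hn, ArithmeticFunction.isMultiplicative_sigma.map_mul_of_coprime hcopQS]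
    congr 1
    · rw [ArithmeticFunction.isMultiplicative_sigma.map_prod]
      · apply Finset.prod_congr rfl
        intro q hq
        have := ArithmeticFunction.sigma_one_apply_prime_pow (i := 1) (hQ q hq)
        rw [pow_one] at this
        rw [this, Finset.sum_range_succ, Finset.sum_range_one]
        ring
      · intro q hq q' hq' hne
        exact hpair _ _ (hQ q hq) (hQ q' hq') hne
    · rw [ArithmeticFunction.isMultiplicative_sigma.map_prod]
      intro q hq q' hq' hne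
      exact Nat.Coprime.pow _ _ (hpair _ _ (hS q hq) (hS q' hq') hne)
  set s := ArithmeticFunction.sigma 1 n with hs
  -- r - 1 divides sigma
  have hrs : ∀ r ∈ Q ∪ S, r - 1 ∣ s := by
    intro r hr
    rw [Nat.dvd_iff_prime_pow_dvd_dvd]
    intro l k hl hk
    rcases Nat.eq_zero_or_pos k with h0 | h0
    · subst h0; simp
    · have hrp : r.Prime := by
        rcases Finset.mem_union.1 hr with h | h
        · exact hQ r h
        · exact hS r h
      have hr1 : r - 1 ≠ 0 := by have := hrp.two_le; omega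
      have hld : l ∣ r - 1 := (dvd_pow_self l h0.ne').trans hk
      have hlΛ : l ∈ Λ := by
        rw [hΛ, mem_biUnion]
        exact ⟨r, hr, Nat.mem_primeFactors.2 ⟨hl, hld, hr1⟩⟩
      have hkV : k ≤ V l := by
        have h2 : (r - 1).factorization l ≤ V l := Finset.le_sup (f := fun r => (r - 1).factorization l) hr
        have h3 : k ≤ (r - 1).factorization l := (hl.pow_dvd_iff_le_factorization hr1).1 hk
        omega
      have h4 : l ^ (V l) ∣ ArithmeticFunction.sigma 1 ((ι l) ^ (E (ι l))) := by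
        rw [hEι l hlΛ, ArithmeticFunction.sigma_one_apply_prime_pow (hS _ (hι l hlΛ))]
        have h5 := (hH l hlΛ).1
        have h6 : H l - 1 + 1 = H l := by omega
        rw [h6]
        exact (hH l hlΛ).2.2
      rw [hsig]
      apply (pow_dvd_pow l hkV).trans (h4.trans _)
      apply Dvd.dvd.mul_left
      exact Finset.dvd_prod_of_mem (fun p => ArithmeticFunction.sigma 1 (p ^ (E p))) (hι l hlΛ)
  -- powers of servers divide sigma
  have hps : ∀ p ∈ S, p ^ A ∣ s := by
    intro p hp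
    rw [hsig]
    apply Dvd.dvd.mul_right
    have h1 : p ^ A ∣ p ^ (Q.filter (fun q => p ∣ q + 1)).card := pow_dvd_pow p (hcap p hp)
    refine h1.trans ?_
    rw [← Finset.prod_const]
    refine (Finset.prod_dvd_prod_of_dvd _ (fun q => q + 1) ?_).trans
      (Finset.prod_dvd_prod_of_subset _ _ _ (Finset.filter_subset _ _))
    intro q hq
    exact (mem_filter.1 hq).2
  have htot : ∀ r ∈ S, Nat.totient (r ^ (E r)) ∣ s := by
    intro r hr
    rcases Nat.eq_zero_or_pos (E r) with h0 | h0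
    · rw [h0]; simp
    · rw [Nat.totient_prime_pow (hS r hr) h0]
      have hcop : Nat.Coprime (r ^ (E r - 1)) (r - 1) := by
        apply Nat.Coprime.pow_left
        have h1 := (hS r hr).two_le
        have h2 : r = (r - 1) + 1 := by omega
        conv_lhs => rw [h2]
        simp
      apply Nat.Coprime.mul_dvd_of_dvd_of_dvd hcop
      · exact (pow_dvd_pow r (by have := hEA r hr; omega)).trans (hps r hr)
      · exact hrs r (mem_union_right _ hr)
  refine ⟨n, hn0, dvd_mul_right _ _, ?_⟩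
  intro a b hab
  have ha : IsCoprime a (n : ℤ) := (IsCoprime.mul_left_iff.1 hab).1
  have hb : IsCoprime b (n : ℤ) := (IsCoprime.mul_left_iff.1 hab).2
  have hcast : (n : ℤ) = (∏ q ∈ Q, ((q : ℕ) : ℤ)) * ∏ p ∈ S, ((p ^ (E p) : ℕ) : ℤ) := by
    rw [hn]; push_cast; rfl
  have hcopall : ∀ r : ℕ, (r : ℤ) ∣ (n : ℤ) → IsCoprime a (r : ℤ) ∧ IsCoprime b (r : ℤ) := by
    intro r hr
    exact ⟨ha.of_isCoprime_of_dvd_right hr, hb.of_isCoprime_of_dvd_right hr⟩
  rw [hcast]
  apply IsCoprime.mul_dvd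
  · apply IsCoprime.prod_left
    intro q hq
    apply IsCoprime.prod_right
    intro p hp
    rw [Nat.isCoprime_iff_coprime]
    apply Nat.Coprime.pow_right
    apply hpair q p (hQ q hq) (hS p hp)
    rintro rfl
    exact (Finset.disjoint_left.1 hQS hq) hp
  · apply Finset.prod_dvd_of_coprime
    · intro q hq q' hq' hne
      exact Nat.isCoprime_iff_coprime.2 (hpair _ _ (hQ q hq) (hQ q' hq') hne)
    · intro q hq
      have hqn : (q : ℤ) ∣ (n : ℤ) := by
        exact_mod_cast (Finset.dvd_prod_of_mem (fun q => q) hq).trans (dvd_mul_right _ _)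
      obtain ⟨h1, h2⟩ := hcopall q hqn
      have h3 := gos_pow_dvd (e := 1) (s := s) h1 h2 (by
        rw [pow_one, Nat.totient_prime (hQ q hq)]
        exact hrs q (mem_union_left _ hq))
      rwa [pow_one] at h3
  · apply Finset.prod_dvd_of_coprime
    · intro q hq q' hq' hne
      exact Nat.isCoprime_iff_coprime.2 (Nat.Coprime.pow _ _ (hpair _ _ (hS q hq) (hS q' hq') hne))
    · intro p hp
      rcases Nat.eq_zero_or_pos (E p) with h0 | h0
      · rw [h0]; simp
      · have hpn : (p : ℤ) ∣ (n : ℤ) := by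
          have h1 : p ∣ ∏ p ∈ S, p ^ (E p) :=
            (dvd_pow_self p h0.ne').trans (Finset.dvd_prod_of_mem (fun p => p ^ (E p)) hp)
          exact_mod_cast h1.trans (dvd_mul_left _ _)
        obtain ⟨h1, h2⟩ := hcopall p hpn
        exact gos_pow_dvd h1 h2 (htot p hp)

end Pool.Agent.Helper112

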