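import Mathlib

open Finset

namespace Pool.Agent.Helper112

theorem final_of
    (good_of_servers : ∀ (Q S : Finset ℕ) (A : ℕ) (_ : ∀ q ∈ Q, q.Prime) (_ : ∀ p ∈ S, p.Prime)
    (_ : Disjoint Q S)
    (_ : ∀ p ∈ S, A ≤ (Q.filter (fun q => p ∣ q + 1)).card)
    (_ : ∀ r ∈ Q ∪ S, ∀ l v : ℕ, l.Prime → 1 ≤ v → l ^ v ∣ r - 1 → l ^ v ≤ A ∧ l ∉ S)
    (_ : ((Q ∪ S).biUnion (fun r => (r - 1).primeFactors)).card ≤ S.card),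
    ∃ n : ℕ, n ≠ 0 ∧ (∏ q ∈ Q, q) ∣ n ∧ ∀ a b : ℤ, IsCoprime (a * b) (n : ℤ) →
      (n : ℤ) ∣ a ^ (ArithmeticFunction.sigma 1 n) - b ^ (ArithmeticFunction.sigma 1 n))
    (selection : ∃ K0 : ℕ, ∀ K : ℕ, K0 ≤ K → ∃ (Q S : Finset ℕ) (A : ℕ),
    (∀ q ∈ Q, q.Prime) ∧ (∀ p ∈ S, p.Prime) ∧ Disjoint Q S ∧
    (∀ p ∈ S, A ≤ (Q.filter (fun q => p ∣ q + 1)).card) ∧
    (∀ r ∈ Q ∪ S, ∀ l v : ℕ, l.Prime → 1 ≤ v → l ^ v ∣ r - 1 → l ^ v ≤ A ∧ l ∉ S) ∧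
    ((Q ∪ S).biUnion (fun r => (r - 1).primeFactors)).card ≤ S.card ∧
    2 ≤ Q.card ∧ (∃ q ∈ Q, K ≤ q)) :
    Set.Infinite {n : ℕ | 1 < n ∧ ¬ n.Prime ∧
      ∀ a b : ℤ, IsCoprime (a * b) (n : ℤ) →
        (n : ℤ) ∣ a ^ (ArithmeticFunction.sigma 1 n) - b ^ (ArithmeticFunction.sigma 1 n)} := by
  obtain ⟨K0, hK0⟩ := selection
  apply Set.infinite_of_forall_exists_gt
  intro B
  obtain ⟨Q, S, A, hQ, hS, hd, hcap, hpow, hcard, h2, q, hq, hqK⟩ := hK0 (max K0 (B + 1)) (le_max_left _ _)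
  obtain ⟨n, hn0, hdvd, hn⟩ := good_of_servers Q S A hQ hS hd hcap hpow hcard
  have hqn : q ∣ n := (Finset.dvd_prod_of_mem (fun q => q) hq).trans hdvd
  have hqle : q ≤ n := Nat.le_of_dvd (Nat.pos_of_ne_zero hn0) hqn
  have hBq : B + 1 ≤ q := le_trans (le_max_right _ _) hqK
  obtain ⟨q', hq', hne⟩ := Finset.exists_mem_ne (by omega : 1 < Q.card) q
  have hq'n : q' ∣ n := (Finset.dvd_prod_of_mem (fun q => q) hq').trans hdvd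
  refine ⟨n, ⟨?_, ?_, hn⟩, by omega⟩
  · have := (hQ q hq).one_lt
    omega
  · intro hp
    have h1 := (Nat.prime_dvd_prime_iff_eq (hQ q hq) hp).1 hqn
    have h2 := (Nat.prime_dvd_prime_iff_eq (hQ q' hq') hp).1 hq'n
    exact hne (h2.trans h1.symm)

end Pool.Agent.Helper112
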