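import Mathlib

set_option autoImplicit false

namespace Pool.Agent.Helper112.E456.SieveAux

open Finset

/-- transfer of a sum along an injection -/
theorem sum_le_of_inj {α β : Type*} [DecidableEq β] {S : Finset α} {T : Finset β}
    {f : α → ℝ} {g : β → ℝ} (φ : α → β)
    (hφ : ∀ n ∈ S, φ n ∈ T) (hinj : Set.InjOn φ S) (hfg : ∀ n ∈ S, f n ≤ g (φ n))
    (hg : ∀ t ∈ T, 0 ≤ g t) : ∑ n ∈ S, f n ≤ ∑ t ∈ T, g t := by
  calc ∑ n ∈ S, f n ≤ ∑ n ∈ S, g (φ n) := Finset.sum_le_sum hfg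
    _ = ∑ t ∈ S.image φ, g t := (Finset.sum_image hinj).symm
    _ ≤ ∑ t ∈ T, g t := by
        apply Finset.sum_le_sum_of_subset_of_nonneg
        · intro t ht
          rw [Finset.mem_image] at ht
          obtain ⟨n, hn, rfl⟩ := ht
          exact hφ n hn
        · intro t ht _
          exact hg t ht

theorem sum_inv_sq_le (X : ℕ) : ∑ b ∈ Icc 1 X, (1 : ℝ) / (b : ℝ) ^ 2 ≤ 2 := by
  have h : ∀ X : ℕ, 1 ≤ X → ∑ b ∈ Icc 1 X, (1 : ℝ) / (b : ℝ) ^ 2 ≤ 2 - 1 / X := by
    intro X hX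
    induction X, hX using Nat.le_induction with
    | base => norm_num
    | succ n hn ih =>
      rw [Finset.sum_Icc_succ_top (by omega)]
      have hn' : (0 : ℝ) < n := by exact_mod_cast hn
      have h1 : (1 : ℝ) / ((n + 1 : ℕ) : ℝ) ^ 2 ≤ 1 / n - 1 / (n + 1 : ℕ) := by
        push_cast
        rw [div_sub_div _ _ hn'.ne' (by positivity), div_le_div_iff₀ (by positivity) (by positivity)]
        nlinarith
      linarith
  rcases Nat.eq_zero_or_pos X with h0 | h0
  · subst h0; norm_num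
  · have := h X h0
    have h2 : (0 : ℝ) < 1 / X := by positivity
    linarith

/-- squarefree integers up to `X` coprime to `M` -/
def SF (X M : ℕ) : Finset ℕ := (Icc 1 X).filter fun n => Squarefree n ∧ Nat.Coprime n M

noncomputable def U (X M : ℕ) : ℝ := ∑ u ∈ SF X M, (1 : ℝ) / u

theorem harmonic_le (X : ℕ) :
    ∑ n ∈ Icc 1 X, (1 : ℝ) / n ≤ 2 * ∑ l ∈ (Icc 1 X).filter Squarefree, (1 : ℝ) / l := by
  classical
  choose A B hAB using Nat.sq_mul_squarefree
  have h1 : ∑ n ∈ Icc 1 X, (1 : ℝ) / n ≤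
      ∑ t ∈ ((Icc 1 X).filter Squarefree) ×ˢ (Icc 1 X), (1 : ℝ) / t.1 * (1 / (t.2 : ℝ) ^ 2) := by
    apply sum_le_of_inj (fun n => (A n, B n))
    · intro n hn
      rw [mem_Icc] at hn
      obtain ⟨h1, h2⟩ := hAB n
      have hA : 0 < A n := Nat.pos_of_ne_zero (by rintro h; rw [h] at h1; omega)
      have hB : 0 < B n := Nat.pos_of_ne_zero (by rintro h; rw [h] at h1; simp at h1; omega)
      have hAn : A n ≤ n := by
        calc A n = 1 * A n := (one_mul _).symm
          _ ≤ B n ^ 2 * A n := Nat.mul_le_mul_right _ (Nat.one_le_pow _ _ hB)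
          _ = n := h1
      have hBn : B n ≤ n := by
        calc B n = B n * 1 := (mul_one _).symm
          _ ≤ B n * (B n * A n) := Nat.mul_le_mul_left _ (Nat.mul_pos hB hA)
          _ = B n ^ 2 * A n := by ring
          _ = n := h1
      simp only [mem_product, mem_filter, mem_Icc]
      exact ⟨⟨⟨hA, hAn.trans hn.2⟩, h2⟩, ⟨hB, hBn.trans hn.2⟩⟩
    · intro m _ n _ hmn
      simp only [Prod.mk.injEq] at hmn
      rw [← (hAB m).1, ← (hAB n).1, hmn.1, hmn.2]
    · intro n hn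
      have h1 := (hAB n).1
      apply le_of_eq
      have : (n : ℝ) = (B n : ℝ) ^ 2 * A n := by exact_mod_cast h1.symm
      rw [this]
      simp only [one_div, mul_inv]
      ring
    · intro t _
      positivity
  have h2 : ∑ t ∈ ((Icc 1 X).filter Squarefree) ×ˢ (Icc 1 X), (1 : ℝ) / t.1 * (1 / (t.2 : ℝ) ^ 2)
      = (∑ l ∈ (Icc 1 X).filter Squarefree, (1 : ℝ) / l) * ∑ b ∈ Icc 1 X, 1 / (b : ℝ) ^ 2 := by
    rw [Finset.sum_mul_sum, Finset.sum_product]
  rw [h2] at h1
  have h3 := sum_inv_sq_le X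
  have h4 : 0 ≤ ∑ l ∈ (Icc 1 X).filter Squarefree, (1 : ℝ) / l :=
    Finset.sum_nonneg fun _ _ => by positivity
  nlinarith

theorem coprime_div_gcd {l M : ℕ} (hl : Squarefree l) : Nat.Coprime (l / Nat.gcd l M) M := by
  have hl0 : l ≠ 0 := hl.ne_zero
  have hg : Nat.gcd l M ∣ l := Nat.gcd_dvd_left _ _
  have h1 : Nat.gcd l M * (l / Nat.gcd l M) = l := Nat.mul_div_cancel' hg
  have h2 : Nat.Coprime (Nat.gcd l M) (l / Nat.gcd l M) := by
    apply Nat.coprime_of_squarefree_mul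
    rw [h1]; exact hl
  have h3 : Nat.gcd (l / Nat.gcd l M) M ∣ Nat.gcd l M :=
    Nat.dvd_gcd ((Nat.gcd_dvd_left _ _).trans (Nat.div_dvd_of_dvd hg)) (Nat.gcd_dvd_right _ _)
  have h4 : Nat.gcd (l / Nat.gcd l M) M ∣ Nat.gcd (Nat.gcd l M) (l / Nat.gcd l M) :=
    Nat.dvd_gcd h3 (Nat.gcd_dvd_left _ _)
  rw [h2] at h4
  exact Nat.dvd_one.1 h4

theorem sf_le (X M : ℕ) (hM : M ≠ 0) :
    ∑ l ∈ (Icc 1 X).filter Squarefree, (1 : ℝ) / l ≤
      (∑ v ∈ (Nat.divisors M).filter Squarefree, (1 : ℝ) / v) * U X M := by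
  classical
  have h1 : ∑ l ∈ (Icc 1 X).filter Squarefree, (1 : ℝ) / l ≤
      ∑ t ∈ ((Nat.divisors M).filter Squarefree) ×ˢ (SF X M), (1 : ℝ) / t.1 * (1 / (t.2 : ℝ)) := by
    apply sum_le_of_inj (fun l => (Nat.gcd l M, l / Nat.gcd l M))
    · intro l hl
      rw [mem_filter, mem_Icc] at hl
      obtain ⟨⟨h1, h2⟩, h3⟩ := hl
      have hg : Nat.gcd l M ∣ l := Nat.gcd_dvd_left _ _
      have hg0 : 0 < Nat.gcd l M := Nat.gcd_pos_of_pos_left _ h1
      simp only [mem_product, mem_filter, Nat.mem_divisors, SF, mem_Icc]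
      refine ⟨⟨⟨Nat.gcd_dvd_right _ _, hM⟩, h3.squarefree_of_dvd hg⟩,
        ⟨Nat.div_pos (Nat.le_of_dvd h1 hg) hg0, (Nat.div_le_self _ _).trans h2⟩,
        h3.squarefree_of_dvd (Nat.div_dvd_of_dvd hg), coprime_div_gcd h3⟩
    · intro m _ n _ hmn
      simp only [Prod.mk.injEq] at hmn
      rw [← Nat.mul_div_cancel' (Nat.gcd_dvd_left m M), ← Nat.mul_div_cancel' (Nat.gcd_dvd_left n M),
        hmn.2, hmn.1]
    · intro l hl
      rw [mem_filter, mem_Icc] at hl
      have h1 : Nat.gcd l M * (l / Nat.gcd l M) = l := Nat.mul_div_cancel' (Nat.gcd_dvd_left _ _)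
      apply le_of_eq
      have : (l : ℝ) = (Nat.gcd l M : ℝ) * ((l / Nat.gcd l M : ℕ) : ℝ) := by exact_mod_cast h1.symm
      simp only [one_div]
      rw [← mul_inv, ← this]
    · intro t _
      positivity
  rw [Finset.sum_product] at h1
  unfold U
  rw [Finset.sum_mul_sum]
  exact h1

theorem divisors_le (M : ℕ) (hM : M ≠ 0) :
    ∑ v ∈ (Nat.divisors M).filter Squarefree, (1 : ℝ) / v ≤ (M : ℝ) / (Nat.totient M : ℝ) := by
  classical
  have h1 : ∑ v ∈ (Nat.divisors M).filter Squarefree, (1 : ℝ) / v ≤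
      ∑ s ∈ M.primeFactors.powerset, ∏ p ∈ s, (1 : ℝ) / p := by
    apply sum_le_of_inj (fun v => v.primeFactors)
    · intro v hv
      rw [mem_filter, Nat.mem_divisors] at hv
      rw [mem_powerset]
      exact Nat.primeFactors_mono hv.1.1 hM
    · intro v hv w hw hvw
      simp only [coe_filter, Set.mem_ofPred_eq] at hv hw
      rw [← Nat.prod_primeFactors_of_squarefree hv.2, ← Nat.prod_primeFactors_of_squarefree hw.2]
      simp only at hvw
      rw [hvw]
    · intro v hv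
      rw [mem_filter, Nat.mem_divisors] at hv
      apply le_of_eq
      have := Nat.prod_primeFactors_of_squarefree hv.2
      conv_lhs => rw [← this]
      simp only [one_div]
      rw [Finset.prod_inv_distrib]
      push_cast; rfl
    · intro s _
      exact Finset.prod_nonneg fun _ _ => by positivity
  rw [← Finset.prod_one_add] at h1
  refine h1.trans ?_
  have h2 := Nat.totient_eq_mul_prod_factors M
  have h3 : (Nat.totient M : ℝ) = M * ∏ p ∈ M.primeFactors, (1 - (p : ℝ)⁻¹) := by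
    have := congrArg (fun q : ℚ => (q : ℝ)) h2
    push_cast at this
    exact this
  have hM' : (M : ℝ) ≠ 0 := by exact_mod_cast hM
  rw [h3, div_mul_eq_div_div, div_self hM', one_div, ← Finset.prod_inv_distrib]
  apply Finset.prod_le_prod
  · intro p _; positivity
  · intro p hp
    have hp1 := (Nat.prime_of_mem_primeFactors hp).one_lt
    have hp' : (1 : ℝ) < p := by exact_mod_cast hp1
    have h4 : 0 < 1 - (p : ℝ)⁻¹ := by
      have : (p : ℝ)⁻¹ < 1 := inv_lt_one_of_one_lt₀ hp'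
      linarith
    rw [one_div, inv_eq_one_div (1 - (p : ℝ)⁻¹), le_div_iff₀ h4]
    have : (1 + (p : ℝ)⁻¹) * (1 - (p : ℝ)⁻¹) = 1 - ((p : ℝ)⁻¹) ^ 2 := by ring
    rw [this]
    have : 0 ≤ ((p : ℝ)⁻¹) ^ 2 := by positivity
    linarith

theorem U_lower (X M : ℕ) (hM : M ≠ 0) :
    Real.log (X + 1) ≤ 2 * ((M : ℝ) / (Nat.totient M : ℝ)) * U X M := by
  have h1 := harmonic_le X
  have h2 := sf_le X M hM
  have h3 := divisors_le M hM
  have h4 := log_add_one_le_harmonic X
  have h5 : ((harmonic X : ℚ) : ℝ) = ∑ n ∈ Icc 1 X, (1 : ℝ) / n := by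
    rw [harmonic_eq_sum_Icc]
    push_cast
    simp
  rw [h5] at h4
  have hU : 0 ≤ U X M := Finset.sum_nonneg fun _ _ => by positivity
  push_cast at h4
  calc Real.log (X + 1) ≤ _ := h4
    _ ≤ _ := h1
    _ ≤ 2 * ((∑ v ∈ (Nat.divisors M).filter Squarefree, (1 : ℝ) / v) * U X M) := by linarith
    _ ≤ 2 * (((M : ℝ) / (Nat.totient M : ℝ)) * U X M) := by gcongr
    _ = _ := by ring

theorem U_sq (X M : ℕ) :
    (U X M) ^ 2 ≤ 2 * ∑ l ∈ SF (X ^ 2) M, ((Nat.divisors l).card : ℝ) / l := by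
  classical
  have h0 : (U X M) ^ 2 = ∑ t ∈ (SF X M) ×ˢ (SF X M), (1 : ℝ) / t.1 * (1 / (t.2 : ℝ)) := by
    unfold U
    rw [sq, Finset.sum_mul_sum, Finset.sum_product]
  have h1 : ∑ t ∈ (SF X M) ×ˢ (SF X M), (1 : ℝ) / t.1 * (1 / (t.2 : ℝ)) ≤
      ∑ s ∈ (Icc 1 X) ×ˢ ((SF (X ^ 2) M).sigma fun l => Nat.divisorsAntidiagonal l),
        (1 / (s.1 : ℝ) ^ 2) * (1 / (s.2.1 : ℝ)) := by
    apply sum_le_of_inj (fun t : ℕ × ℕ => (Nat.gcd t.1 t.2,
      (⟨(t.1 / Nat.gcd t.1 t.2) * (t.2 / Nat.gcd t.1 t.2),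
        (t.1 / Nat.gcd t.1 t.2, t.2 / Nat.gcd t.1 t.2)⟩ : (_ : ℕ) × (ℕ × ℕ))))
    · rintro ⟨a, b⟩ hab
      simp only [mem_product, SF, mem_filter, mem_Icc] at hab
      obtain ⟨⟨⟨ha1, ha2⟩, ha3, ha4⟩, ⟨hb1, hb2⟩, hb3, hb4⟩ := hab
      have hga : Nat.gcd a b ∣ a := Nat.gcd_dvd_left _ _
      have hgb : Nat.gcd a b ∣ b := Nat.gcd_dvd_right _ _
      have hg0 : 0 < Nat.gcd a b := Nat.gcd_pos_of_pos_left _ ha1
      have hda : 0 < a / Nat.gcd a b := Nat.div_pos (Nat.le_of_dvd ha1 hga) hg0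
      have hdb : 0 < b / Nat.gcd a b := Nat.div_pos (Nat.le_of_dvd hb1 hgb) hg0
      have hcop : Nat.Coprime (a / Nat.gcd a b) (b / Nat.gcd a b) := Nat.coprime_div_gcd_div_gcd hg0
      simp only [mem_product, mem_sigma, mem_Icc, SF, mem_filter, Nat.mem_divisorsAntidiagonal]
      refine ⟨⟨hg0, (Nat.le_of_dvd ha1 hga).trans ha2⟩, ⟨⟨Nat.mul_pos hda hdb, ?_⟩, ?_, ?_⟩, ?_⟩
      · rw [sq]
        exact Nat.mul_le_mul ((Nat.div_le_self _ _).trans ha2) ((Nat.div_le_self _ _).trans hb2)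
      · rw [Nat.squarefree_mul_iff]
        exact ⟨hcop, ha3.squarefree_of_dvd (Nat.div_dvd_of_dvd hga),
          hb3.squarefree_of_dvd (Nat.div_dvd_of_dvd hgb)⟩
      · exact Nat.Coprime.mul_left (Nat.Coprime.coprime_dvd_left (Nat.div_dvd_of_dvd hga) ha4)
          (Nat.Coprime.coprime_dvd_left (Nat.div_dvd_of_dvd hgb) hb4)
      · exact ⟨trivial, (Nat.mul_pos hda hdb).ne'⟩
    · rintro ⟨a, b⟩ _ ⟨c, d⟩ _ h
      simp only [Prod.mk.injEq, Sigma.mk.injEq, heq_eq_eq] at h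
      obtain ⟨h1, -, h2, h3⟩ := h
      have e1 := Nat.mul_div_cancel' (Nat.gcd_dvd_left a b)
      have e2 := Nat.mul_div_cancel' (Nat.gcd_dvd_right a b)
      have e3 := Nat.mul_div_cancel' (Nat.gcd_dvd_left c d)
      have e4 := Nat.mul_div_cancel' (Nat.gcd_dvd_right c d)
      rw [Prod.mk.injEq]
      constructor
      · rw [← e1, ← e3, h2, h1]
      · rw [← e2, ← e4, h3, h1]
    · rintro ⟨a, b⟩ _
      apply le_of_eq
      simp only
      have e1 : (a : ℝ) = (Nat.gcd a b : ℝ) * ((a / Nat.gcd a b : ℕ) : ℝ) := by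
        exact_mod_cast (Nat.mul_div_cancel' (Nat.gcd_dvd_left a b)).symm
      have e2 : (b : ℝ) = (Nat.gcd a b : ℝ) * ((b / Nat.gcd a b : ℕ) : ℝ) := by
        exact_mod_cast (Nat.mul_div_cancel' (Nat.gcd_dvd_right a b)).symm
      conv_lhs => rw [e1, e2]
      push_cast
      simp only [one_div, mul_inv]
      ring
    · intro s _
      positivity
  rw [h0]
  refine h1.trans ?_
  rw [Finset.sum_product]
  have h2 : ∀ c ∈ Icc 1 X, ∑ s ∈ (SF (X ^ 2) M).sigma fun l => Nat.divisorsAntidiagonal l,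
      (1 / (c : ℝ) ^ 2) * (1 / (s.1 : ℝ))
      = (1 / (c : ℝ) ^ 2) * ∑ l ∈ SF (X ^ 2) M, ((Nat.divisors l).card : ℝ) / l := by
    intro c _
    rw [← Finset.mul_sum, Finset.sum_sigma]
    congr 1
    apply Finset.sum_congr rfl
    intro l _
    simp only
    rw [Finset.sum_const, nsmul_eq_mul]
    have : (Nat.divisorsAntidiagonal l).card = (Nat.divisors l).card := by
      rw [← Nat.map_div_right_divisors, Finset.card_map]
    rw [this]; ring
  rw [Finset.sum_congr rfl h2, ← Finset.sum_mul]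
  have h3 := sum_inv_sq_le X
  have h4 : 0 ≤ ∑ l ∈ SF (X ^ 2) M, ((Nat.divisors l).card : ℝ) / l :=
    Finset.sum_nonneg fun _ _ => by positivity
  gcongr

end Pool.Agent.Helper112.E456.SieveAux

namespace Pool.Agent.Helper112.E456.SieveAux

open Finset ArithmeticFunction BoundingSieve
open scoped ArithmeticFunction.Moebius ArithmeticFunction.zeta

variable (s : BoundingSieve) (R : ℕ)

noncomputable def JJ : ℝ := ∑ l ∈ (Nat.divisors s.prodPrimes).filter (· ≤ R), s.selbergTerms l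

noncomputable def ww (d : ℕ) : ℝ :=
  (μ d : ℝ) / (s.nu d * JJ s R) *
    ∑ k ∈ (Nat.divisors s.prodPrimes).filter (fun k => d ∣ k ∧ k ≤ R), s.selbergTerms k

theorem P_ne : s.prodPrimes ≠ 0 := s.prodPrimes_squarefree.ne_zero

variable {s}

theorem g_pos {l : ℕ} (hl : l ∈ Nat.divisors s.prodPrimes) : 0 < s.selbergTerms l :=
  selbergTerms_pos (Nat.dvd_of_mem_divisors hl)

theorem g_one : s.selbergTerms 1 = 1 := selbergTerms_isMultiplicative.map_one

theorem JJ_pos (hR : 1 ≤ R) : 0 < JJ s R := by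
  unfold JJ
  have h1 : (1 : ℕ) ∈ (Nat.divisors s.prodPrimes).filter (· ≤ R) := by
    rw [mem_filter, Nat.mem_divisors]
    exact ⟨⟨one_dvd _, P_ne s⟩, hR⟩
  calc (0 : ℝ) < s.selbergTerms 1 := by rw [g_one]; norm_num
    _ ≤ _ := Finset.single_le_sum (f := fun l => s.selbergTerms l) (fun i hi => (g_pos (mem_filter.1 hi).1).le) h1

theorem ww_one (hR : 1 ≤ R) : ww s R 1 = 1 := by
  unfold ww
  have h1 : (Nat.divisors s.prodPrimes).filter (fun k => 1 ∣ k ∧ k ≤ R)
      = (Nat.divisors s.prodPrimes).filter (· ≤ R) := by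
    apply Finset.filter_congr
    intro k _
    simp
  rw [h1]
  have h2 : s.nu 1 = 1 := s.nu_mult.map_one
  have h3 : ∑ k ∈ (Nat.divisors s.prodPrimes).filter (· ≤ R), s.selbergTerms k = JJ s R := rfl
  rw [h3, h2, moebius_apply_one]
  have := (JJ_pos (s := s) R hR).ne'
  field_simp
  norm_num

/-- sum of Moebius over divisors of a squarefree `k` that are multiples of `l` -/
theorem moebius_sum {k l : ℕ} (hk : Squarefree k) (hl : l ∣ k) :
    ∑ d ∈ (Nat.divisors k).filter (fun d => l ∣ d), (μ d : ℝ) = if l = k then (μ l : ℝ) else 0 := by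
  have hk0 : k ≠ 0 := hk.ne_zero
  have hl0 : l ≠ 0 := ne_zero_of_dvd_ne_zero hk0 hl
  have hkl : l * (k / l) = k := Nat.mul_div_cancel' hl
  have hcop : Nat.Coprime l (k / l) := by
    apply Nat.coprime_of_squarefree_mul
    rw [hkl]; exact hk
  have h1 : ∑ d ∈ (Nat.divisors k).filter (fun d => l ∣ d), (μ d : ℝ)
      = ∑ e ∈ Nat.divisors (k / l), (μ l : ℝ) * (μ e : ℝ) := by
    apply Finset.sum_nbij' (fun d => d / l) (fun e => l * e)
    · intro d hd
      rw [mem_filter, Nat.mem_divisors] at hd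
      rw [Nat.mem_divisors]
      exact ⟨Nat.div_dvd_div hd.2 hd.1.1, (Nat.div_pos (Nat.le_of_dvd (Nat.pos_of_ne_zero hk0) hl)
        (Nat.pos_of_ne_zero hl0)).ne'⟩
    · intro e he
      rw [Nat.mem_divisors] at he
      rw [mem_filter, Nat.mem_divisors]
      refine ⟨⟨?_, hk0⟩, dvd_mul_right _ _⟩
      rw [← hkl]
      exact Nat.mul_dvd_mul_left l he.1
    · intro d hd
      rw [mem_filter] at hd
      exact Nat.mul_div_cancel' hd.2
    · intro e _
      exact Nat.mul_div_cancel_left e (Nat.pos_of_ne_zero hl0)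
    · intro d hd
      rw [mem_filter, Nat.mem_divisors] at hd
      have h2 : d = l * (d / l) := (Nat.mul_div_cancel' hd.2).symm
      have h3 : Nat.Coprime l (d / l) := by
        apply Nat.coprime_of_squarefree_mul
        rw [← h2]; exact hk.squarefree_of_dvd hd.1.1
      have h4 : μ d = μ l * μ (d / l) := by
        conv_lhs => rw [h2]
        exact isMultiplicative_moebius.map_mul_of_coprime h3
      rw [h4]; push_cast; ring
  rw [h1, ← Finset.mul_sum]
  have h5 : ∑ e ∈ Nat.divisors (k / l), (μ e : ℝ) = if k / l = 1 then 1 else 0 := by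
    have h6 : ((ζ * μ : ArithmeticFunction ℤ)) (k / l) = (1 : ArithmeticFunction ℤ) (k / l) := by
      rw [coe_zeta_mul_moebius]
    rw [coe_zeta_mul_apply, ArithmeticFunction.one_apply] at h6
    have h7 := congrArg (fun z : ℤ => (z : ℝ)) h6
    push_cast at h7
    rw [h7]
  rw [h5]
  by_cases h : l = k
  · rw [if_pos h, if_pos, mul_one]
    rw [h]; exact Nat.div_self (Nat.pos_of_ne_zero hk0)
  · rw [if_neg h, if_neg, mul_zero]
    intro h8
    apply h
    rw [← hkl, h8, mul_one]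

theorem inner_sum (hR : 1 ≤ R) {l : ℕ} (hl : l ∈ Nat.divisors s.prodPrimes) :
    ∑ d ∈ Nat.divisors s.prodPrimes, (if l ∣ d then s.nu d * ww s R d else 0)
      = if l ≤ R then (μ l : ℝ) * s.selbergTerms l / JJ s R else 0 := by
  have hP := P_ne s
  have hJ := (JJ_pos (s := s) R hR).ne'
  have h1 : ∀ d ∈ Nat.divisors s.prodPrimes, (if l ∣ d then s.nu d * ww s R d else 0)
      = ∑ k ∈ (Nat.divisors s.prodPrimes).filter (· ≤ R),
          (if l ∣ d ∧ d ∣ k then (μ d : ℝ) * (s.selbergTerms k / JJ s R) else 0) := by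
    intro d hd
    have hnu := nu_ne_zero (s := s) (Nat.dvd_of_mem_divisors hd)
    by_cases h : l ∣ d
    · rw [if_pos h]
      simp only [h, true_and]
      rw [← Finset.sum_filter, Finset.filter_filter]
      unfold ww
      have hf : (Nat.divisors s.prodPrimes).filter (fun k => d ∣ k ∧ k ≤ R)
          = (Nat.divisors s.prodPrimes).filter (fun k => k ≤ R ∧ d ∣ k) := by
        apply Finset.filter_congr; intro k _; exact and_comm
      rw [hf, Finset.mul_sum, Finset.mul_sum]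
      apply Finset.sum_congr rfl
      intro k _
      field_simp
    · rw [if_neg h]
      simp [h]
  rw [Finset.sum_congr rfl h1, Finset.sum_comm]
  have h2 : ∀ k ∈ (Nat.divisors s.prodPrimes).filter (· ≤ R),
      ∑ d ∈ Nat.divisors s.prodPrimes,
        (if l ∣ d ∧ d ∣ k then (μ d : ℝ) * (s.selbergTerms k / JJ s R) else 0)
      = if l = k then (μ l : ℝ) * (s.selbergTerms k / JJ s R) else 0 := by
    intro k hk
    rw [mem_filter, Nat.mem_divisors] at hk
    have hksq : Squarefree k := s.prodPrimes_squarefree.squarefree_of_dvd hk.1.1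
    rw [← Finset.sum_filter, ← Finset.sum_mul]
    have h3 : (Nat.divisors s.prodPrimes).filter (fun d => l ∣ d ∧ d ∣ k)
        = (Nat.divisors k).filter (fun d => l ∣ d) := by
      ext d
      simp only [mem_filter, Nat.mem_divisors]
      constructor
      · rintro ⟨-, h4, h5⟩
        exact ⟨⟨h5, hksq.ne_zero⟩, h4⟩
      · rintro ⟨⟨h5, -⟩, h4⟩
        exact ⟨⟨h5.trans hk.1.1, hP⟩, h4, h5⟩
    rw [h3]
    by_cases hlk : l ∣ k
    · rw [moebius_sum hksq hlk]
      split_ifs <;> simp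
    · have h4 : (Nat.divisors k).filter (fun d => l ∣ d) = ∅ := by
        apply Finset.filter_false_of_mem
        intro d hd hld
        exact hlk (hld.trans (Nat.dvd_of_mem_divisors hd))
      rw [h4, if_neg]
      · simp
      · rintro rfl
        exact hlk dvd_rfl
  rw [Finset.sum_congr rfl h2, Finset.sum_ite_eq]
  simp only [mem_filter, hl, true_and]
  split_ifs
  · ring
  · rfl

theorem mainSum_eq (hR : 1 ≤ R) : s.mainSum (lambdaSquared (ww s R)) = 1 / JJ s R := by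
  have hJ := (JJ_pos (s := s) R hR).ne'
  rw [mainSum_lambdaSquared_eq_sum_mul_sum_sq]
  have h1 : ∀ l ∈ Nat.divisors s.prodPrimes, (s.selbergTerms l)⁻¹ *
        (∑ d ∈ Nat.divisors s.prodPrimes, if l ∣ d then s.nu d * ww s R d else 0) ^ 2
      = if l ≤ R then s.selbergTerms l / (JJ s R) ^ 2 else 0 := by
    intro l hl
    rw [inner_sum R hR hl]
    have hg := (g_pos hl).ne'
    have hsq : Squarefree l := s.prodPrimes_squarefree.squarefree_of_dvd (Nat.dvd_of_mem_divisors hl)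
    have hmu : (μ l : ℝ) ^ 2 = 1 := by exact_mod_cast moebius_sq_eq_one_of_squarefree hsq
    split_ifs
    · field_simp
      rw [hmu]
    · simp
  rw [Finset.sum_congr rfl h1, ← Finset.sum_filter, ← Finset.sum_div]
  have h2 : ∑ l ∈ (Nat.divisors s.prodPrimes).filter (· ≤ R), s.selbergTerms l = JJ s R := rfl
  rw [h2]
  field_simp

theorem ww_zero {d : ℕ} (hd0 : 0 < d) (hd : R < d) : ww s R d = 0 := by
  unfold ww
  have : (Nat.divisors s.prodPrimes).filter (fun k => d ∣ k ∧ k ≤ R) = ∅ := by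
    apply Finset.filter_false_of_mem
    rintro k hk ⟨h1, h2⟩
    have := Nat.le_of_dvd (Nat.pos_of_mem_divisors hk) h1
    omega
  rw [this]; simp

theorem ww_bound (hR : 1 ≤ R) {d : ℕ} (hd : d ∈ Nat.divisors s.prodPrimes) :
    |ww s R d| ≤ s.selbergTerms d / s.nu d := by
  have hJ := JJ_pos (s := s) R hR
  have hP := P_ne s
  have hnu := nu_pos_of_dvd_prodPrimes (s := s) (Nat.dvd_of_mem_divisors hd)
  have hsq : Squarefree d := s.prodPrimes_squarefree.squarefree_of_dvd (Nat.dvd_of_mem_divisors hd)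
  have hd0 : 0 < d := Nat.pos_of_mem_divisors hd
  have hmu : |(μ d : ℝ)| = 1 := by
    have := abs_moebius_eq_one_of_squarefree hsq
    exact_mod_cast this
  have hsum : ∑ k ∈ (Nat.divisors s.prodPrimes).filter (fun k => d ∣ k ∧ k ≤ R), s.selbergTerms k
      ≤ s.selbergTerms d * JJ s R := by
    unfold JJ
    rw [Finset.mul_sum]
    have h1 : ∑ k ∈ (Nat.divisors s.prodPrimes).filter (fun k => d ∣ k ∧ k ≤ R), s.selbergTerms k
        = ∑ m ∈ ((Nat.divisors s.prodPrimes).filter (fun k => d ∣ k ∧ k ≤ R)).image (fun k => k / d),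
          s.selbergTerms d * s.selbergTerms m := by
      rw [Finset.sum_image]
      · apply Finset.sum_congr rfl
        intro k hk
        rw [mem_filter, Nat.mem_divisors] at hk
        have h2 : k = d * (k / d) := (Nat.mul_div_cancel' hk.2.1).symm
        have h3 : Nat.Coprime d (k / d) := by
          apply Nat.coprime_of_squarefree_mul
          rw [← h2]; exact s.prodPrimes_squarefree.squarefree_of_dvd hk.1.1
        conv_lhs => rw [h2]
        exact selbergTerms_isMultiplicative.map_mul_of_coprime h3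
      · intro a ha b hb hab
        simp only [coe_filter, Nat.mem_divisors, Set.mem_ofPred_eq] at ha hb
        simp only at hab
        rw [← Nat.mul_div_cancel' ha.2.1, ← Nat.mul_div_cancel' hb.2.1, hab]
    rw [h1]
    apply Finset.sum_le_sum_of_subset_of_nonneg
    · intro m hm
      rw [mem_image] at hm
      obtain ⟨k, hk, rfl⟩ := hm
      rw [mem_filter, Nat.mem_divisors] at hk
      rw [mem_filter, Nat.mem_divisors]
      exact ⟨⟨(Nat.div_dvd_of_dvd hk.2.1).trans hk.1.1, hP⟩, (Nat.div_le_self _ _).trans hk.2.2⟩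
    · intro m hm _
      exact mul_nonneg (g_pos hd).le (g_pos (mem_filter.1 hm).1).le
  have hnn : 0 ≤ ∑ k ∈ (Nat.divisors s.prodPrimes).filter (fun k => d ∣ k ∧ k ≤ R), s.selbergTerms k :=
    Finset.sum_nonneg fun k hk => (g_pos (mem_filter.1 hk).1).le
  unfold ww
  rw [abs_mul, abs_div, hmu, abs_of_pos (mul_pos hnu hJ), abs_of_nonneg hnn]
  calc 1 / (s.nu d * JJ s R) * _ ≤ 1 / (s.nu d * JJ s R) * (s.selbergTerms d * JJ s R) := by
        gcongr
    _ = s.selbergTerms d / s.nu d := by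
        field_simp

/-- Error term bound: if all weights are at most `A` in size (for divisors at most `R`)
and all remainders `|rem (lcm d1 d2)|` are at most `B` for `d1, d2 ≤ R`. -/
theorem errSum_le {A B : ℝ} (hA : 0 ≤ A) (hB : 0 ≤ B)
    (hw : ∀ d ∈ Nat.divisors s.prodPrimes, d ≤ R → |ww s R d| ≤ A)
    (hr : ∀ d ∈ Nat.divisors s.prodPrimes, d ≤ R ^ 2 → |s.rem d| ≤ B) :
    s.errSum (lambdaSquared (ww s R)) ≤ B * (R * A) ^ 2 := by
  classical
  have hP := P_ne s
  unfold errSum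
  set D := Nat.divisors s.prodPrimes with hD
  have habs : ∀ d ∈ D, |lambdaSquared (ww s R) d| * |s.rem d| ≤
      ∑ d1 ∈ D, ∑ d2 ∈ D, (if d = Nat.lcm d1 d2 then |ww s R d1| * |ww s R d2| * B else 0) := by
    intro d hd
    have hd' := Nat.dvd_of_mem_divisors hd
    have hsub : Nat.divisors d ⊆ D := Nat.divisors_subset_of_dvd hP hd'
    have h1 : |lambdaSquared (ww s R) d| * |s.rem d| ≤
        ∑ d1 ∈ Nat.divisors d, ∑ d2 ∈ Nat.divisors d,
          (if d = Nat.lcm d1 d2 then |ww s R d1| * |ww s R d2| * B else 0) := by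
      unfold lambdaSquared
      calc _ ≤ (∑ d1 ∈ Nat.divisors d, ∑ d2 ∈ Nat.divisors d,
            |if d = Nat.lcm d1 d2 then ww s R d1 * ww s R d2 else 0|) * |s.rem d| := by
            gcongr
            refine (Finset.abs_sum_le_sum_abs _ _).trans ?_
            apply Finset.sum_le_sum
            intro d1 _
            exact Finset.abs_sum_le_sum_abs _ _
        _ = ∑ d1 ∈ Nat.divisors d, ∑ d2 ∈ Nat.divisors d,
            |if d = Nat.lcm d1 d2 then ww s R d1 * ww s R d2 else 0| * |s.rem d| := by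
            rw [Finset.sum_mul]
            apply Finset.sum_congr rfl
            intro d1 _
            rw [Finset.sum_mul]
        _ ≤ _ := by
            apply Finset.sum_le_sum
            intro d1 hd1
            apply Finset.sum_le_sum
            intro d2 hd2
            split_ifs with h
            · rw [abs_mul]
              have hd10 : 0 < d1 := Nat.pos_of_mem_divisors hd1
              have hd20 : 0 < d2 := Nat.pos_of_mem_divisors hd2
              by_cases h1 : R < d1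
              · rw [ww_zero R hd10 h1]; simp
              · by_cases h2 : R < d2
                · rw [ww_zero R hd20 h2]; simp
                · have hdR : d ≤ R ^ 2 := by
                    rw [h, sq]
                    exact (Nat.le_of_dvd (Nat.mul_pos hd10 hd20) (Nat.lcm_dvd_mul d1 d2)).trans
                      (Nat.mul_le_mul (by omega) (by omega))
                  have := hr d hd hdR
                  gcongr
            · simp
    refine h1.trans ?_
    calc _ ≤ ∑ d1 ∈ Nat.divisors d, ∑ d2 ∈ D,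
          (if d = Nat.lcm d1 d2 then |ww s R d1| * |ww s R d2| * B else 0) := by
          apply Finset.sum_le_sum
          intro d1 _
          apply Finset.sum_le_sum_of_subset_of_nonneg hsub
          intro d2 _ _
          split_ifs <;> positivity
      _ ≤ _ := by
          apply Finset.sum_le_sum_of_subset_of_nonneg hsub
          intro d1 _ _
          apply Finset.sum_nonneg
          intro d2 _
          split_ifs <;> positivity
  calc ∑ d ∈ D, |lambdaSquared (ww s R) d| * |s.rem d|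
      ≤ ∑ d ∈ D, ∑ d1 ∈ D, ∑ d2 ∈ D, (if d = Nat.lcm d1 d2 then |ww s R d1| * |ww s R d2| * B else 0) :=
        Finset.sum_le_sum habs
    _ = ∑ d1 ∈ D, ∑ d2 ∈ D, ∑ d ∈ D, (if d = Nat.lcm d1 d2 then |ww s R d1| * |ww s R d2| * B else 0) := by
        rw [Finset.sum_comm]
        apply Finset.sum_congr rfl
        intro d1 _
        rw [Finset.sum_comm]
    _ ≤ ∑ d1 ∈ D, ∑ d2 ∈ D, |ww s R d1| * |ww s R d2| * B := by
        apply Finset.sum_le_sum
        intro d1 _
        apply Finset.sum_le_sum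
        intro d2 _
        rw [Finset.sum_ite_eq']
        split_ifs
        · exact le_rfl
        · positivity
    _ = B * (∑ d ∈ D, |ww s R d|) ^ 2 := by
        rw [sq, Finset.sum_mul_sum, Finset.mul_sum]
        apply Finset.sum_congr rfl
        intro d1 _
        rw [Finset.mul_sum]
        apply Finset.sum_congr rfl
        intro d2 _
        ring
    _ ≤ B * (R * A) ^ 2 := by
        have h2 : ∑ d ∈ D, |ww s R d| ≤ R * A := by
          have h3 : ∑ d ∈ D, |ww s R d| = ∑ d ∈ D.filter (· ≤ R), |ww s R d| := by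
            rw [Finset.sum_filter]
            apply Finset.sum_congr rfl
            intro d hd
            split_ifs with h
            · rfl
            · rw [ww_zero R (Nat.pos_of_mem_divisors hd) (by omega)]; simp
          rw [h3]
          calc _ ≤ ∑ _d ∈ D.filter (· ≤ R), A := by
                apply Finset.sum_le_sum
                intro d hd
                rw [mem_filter] at hd
                exact hw d hd.1 hd.2
            _ = ((D.filter (· ≤ R)).card : ℝ) * A := by rw [Finset.sum_const, nsmul_eq_mul]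
            _ ≤ R * A := by
                gcongr
                have h4 : D.filter (· ≤ R) ⊆ Icc 1 R := by
                  intro d hd
                  rw [mem_filter] at hd
                  rw [mem_Icc]
                  exact ⟨Nat.pos_of_mem_divisors hd.1, hd.2⟩
                have h5 := Finset.card_le_card h4
                rw [Nat.card_Icc] at h5
                simpa using h5
        have h6 : 0 ≤ ∑ d ∈ D, |ww s R d| := Finset.sum_nonneg fun _ _ => abs_nonneg _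
        gcongr

/-- The Selberg upper bound in the form we use. -/
theorem selberg_bound (hR : 1 ≤ R) {A B : ℝ} (hA : 0 ≤ A) (hB : 0 ≤ B)
    (hw : ∀ d ∈ Nat.divisors s.prodPrimes, d ≤ R → s.selbergTerms d / s.nu d ≤ A)
    (hr : ∀ d ∈ Nat.divisors s.prodPrimes, d ≤ R ^ 2 → |s.rem d| ≤ B) :
    s.siftedSum ≤ s.totalMass / JJ s R + B * (R * A) ^ 2 := by
  have h1 := siftedSum_le_mainSum_errSum_of_upperMoebius (s := s) _
    (upperMoebius_lambdaSquared (ww s R) (ww_one R hR))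
  rw [mainSum_eq R hR] at h1
  have h2 := errSum_le (s := s) R hA hB
    (fun d hd hdR => (ww_bound R hR hd).trans (hw d hd hdR)) hr
  calc s.siftedSum ≤ _ := h1
    _ ≤ s.totalMass * (1 / JJ s R) + B * (R * A) ^ 2 := by linarith
    _ = _ := by ring

end Pool.Agent.Helper112.E456.SieveAux

namespace Pool.Agent.Helper112.E456.SieveAux

open Finset ArithmeticFunction BoundingSieve

/-- product of primes up to `R` not dividing `M` -/
def PR (R M : ℕ) : ℕ := ∏ p ∈ (Finset.range (R + 1)).filter (fun p => p.Prime ∧ ¬ p ∣ M), p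

theorem PR_squarefree (R M : ℕ) : Squarefree (PR R M) := by
  apply (squarefree_primorial R).squarefree_of_dvd
  unfold PR primorial
  apply Finset.prod_dvd_prod_of_subset
  intro p hp
  rw [mem_filter] at hp ⊢
  exact ⟨hp.1, hp.2.1⟩

theorem prime_dvd_PR {R M p : ℕ} (hp : p.Prime) : p ∣ PR R M ↔ p ≤ R ∧ ¬ p ∣ M := by
  unfold PR
  rw [Prime.dvd_finsetProd_iff hp.prime]
  constructor
  · rintro ⟨q, hq, hpq⟩
    rw [mem_filter, mem_range] at hq
    have : p = q := (Nat.prime_dvd_prime_iff_eq hp hq.2.1).1 hpq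
    subst this
    exact ⟨by omega, hq.2.2⟩
  · rintro ⟨h1, h2⟩
    exact ⟨p, by rw [mem_filter, mem_range]; exact ⟨by omega, hp, h2⟩, dvd_rfl⟩

theorem coprime_of_dvd_PR {R M d : ℕ} (hd : d ∣ PR R M) : Nat.Coprime d M := by
  apply Nat.Coprime.symm
  rw [Nat.coprime_iff_gcd_eq_one]
  by_contra h
  obtain ⟨p, hp, hpd⟩ := Nat.exists_prime_and_dvd h
  have h1 : p ∣ M := hpd.trans (Nat.gcd_dvd_left _ _)
  have h2 : p ∣ PR R M := (hpd.trans (Nat.gcd_dvd_right _ _)).trans hd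
  exact ((prime_dvd_PR hp).1 h2).2 h1

theorem dvd_PR {R M l : ℕ} (hl0 : l ≤ R) (hl : Squarefree l) (hlM : Nat.Coprime l M) : l ∣ PR R M := by
  rw [← Nat.prod_primeFactors_of_squarefree hl]
  unfold PR
  apply Finset.prod_dvd_prod_of_subset
  intro p hp
  rw [Nat.mem_primeFactors] at hp
  rw [mem_filter, mem_range]
  refine ⟨?_, hp.1, ?_⟩
  · have := Nat.le_of_dvd (Nat.pos_of_ne_zero hp.2.2) hp.2.1
    omega
  · intro h
    have := Nat.dvd_gcd hp.2.1 h
    rw [hlM] at this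
    exact hp.1.one_lt.ne' (Nat.dvd_one.1 this)

/-- the density function `τ(n)/n` -/
noncomputable def nuF : ArithmeticFunction ℝ :=
  ⟨fun n => ((Nat.divisors n).card : ℝ) / n, by simp⟩

theorem nuF_apply (n : ℕ) : nuF n = ((Nat.divisors n).card : ℝ) / n := rfl

theorem nuF_mult : nuF.IsMultiplicative := by
  constructor
  · simp [nuF_apply]
  · intro m n hmn
    rw [nuF_apply, nuF_apply, nuF_apply, Nat.Coprime.card_divisors_mul hmn]
    push_cast
    rw [mul_div_mul_comm]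

theorem nuF_prime {p : ℕ} (hp : p.Prime) : nuF p = 2 / p := by
  rw [nuF_apply, hp.divisors, Finset.card_pair hp.one_lt.ne]
  norm_num

def ff (a₁ b₁ a₂ b₂ n : ℕ) : ℕ := (a₁ * n + b₁) * (a₂ * n + b₂)

theorem ff_mono {a₁ a₂ : ℕ} (b₁ b₂ : ℕ) (h1 : 0 < a₁) (h2 : 0 < a₂) : StrictMono (ff a₁ b₁ a₂ b₂) := by
  intro m n hmn
  unfold ff
  apply Nat.mul_lt_mul''
  · have := Nat.mul_lt_mul_of_pos_left hmn h1
    omega
  · have := Nat.mul_lt_mul_of_pos_left hmn h2
    omega

theorem three_le_of_dvd {R M p : ℕ} (hM : 2 ∣ M) (hp : p.Prime) (h : p ∣ PR R M) : 3 ≤ p := by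
  have h1 := ((prime_dvd_PR hp).1 h).2
  have h2 := hp.two_le
  rcases h2.lt_or_eq with h3 | h3
  · exact h3
  · subst h3; exact absurd hM h1

noncomputable def sv (a₁ b₁ a₂ b₂ N R M : ℕ) (hM : 2 ∣ M) : BoundingSieve where
  support := (Icc 1 N).image (ff a₁ b₁ a₂ b₂)
  prodPrimes := PR R M
  prodPrimes_squarefree := PR_squarefree R M
  weights := fun _ => 1
  weights_nonneg := fun _ => zero_le_one
  totalMass := N
  nu := nuF
  nu_mult := nuF_mult
  nu_pos_of_prime := by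
    intro p hp _
    rw [nuF_prime hp]
    have : (0 : ℝ) < p := by exact_mod_cast hp.pos
    positivity
  nu_lt_one_of_prime := by
    intro p hp hd
    rw [nuF_prime hp]
    have h3 := three_le_of_dvd hM hp hd
    have h3' : (3 : ℝ) ≤ p := by exact_mod_cast h3
    rw [div_lt_one (by linarith)]
    linarith

/-- counting a residue class in `[1, N]` -/
theorem count_class (N d c : ℕ) (hd : 0 < d) :
    |(((Icc 1 N).filter (fun n => n ≡ c [MOD d])).card : ℝ) - (N : ℝ) / d| ≤ 1 := by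
  have h1 := Nat.Ioc_filter_modEq_card 0 N hd c
  have h2 : Icc 1 N = Ioc 0 N := by
    ext x; simp [mem_Icc, mem_Ioc, Nat.lt_iff_add_one_le]
  rw [h2]
  have hdq : (0 : ℚ) < d := by exact_mod_cast hd
  have hle : (⌊((0 : ℕ) - (c : ℚ)) / (d : ℚ)⌋ : ℤ) ≤ ⌊((N : ℚ) - (c : ℚ)) / (d : ℚ)⌋ := by
    apply Int.floor_le_floor
    gcongr
    exact_mod_cast Nat.zero_le N
  rw [max_eq_left (by linarith)] at h1
  have h3 := Int.floor_le (((N : ℚ) - (c : ℚ)) / (d : ℚ))
  have h4 := Int.lt_floor_add_one (((N : ℚ) - (c : ℚ)) / (d : ℚ))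
  have h5 := Int.floor_le (((0 : ℕ) - (c : ℚ)) / (d : ℚ))
  have h6 := Int.lt_floor_add_one (((0 : ℕ) - (c : ℚ)) / (d : ℚ))
  have h7 : ((N : ℚ) - (c : ℚ)) / (d : ℚ) - (((0 : ℕ) - (c : ℚ)) / (d : ℚ)) = N / d := by
    push_cast; ring
  set x := ⌊((N : ℚ) - (c : ℚ)) / (d : ℚ)⌋
  set y := ⌊((0 : ℕ) - (c : ℚ)) / (d : ℚ)⌋
  have h8 : (((((Ioc 0 N).filter (fun n => n ≡ c [MOD d])).card : ℤ) : ℚ)) = x - y := by
    rw [h1]; push_cast; rfl
  have h9 : |(((((Ioc 0 N).filter (fun n => n ≡ c [MOD d])).card : ℤ) : ℚ)) - N / d| ≤ 1 := by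
    rw [h8, abs_le]
    constructor <;> linarith
  have h10 : ((|(((((Ioc 0 N).filter (fun n => n ≡ c [MOD d])).card : ℤ) : ℚ)) - N / d| : ℚ) : ℝ) ≤ ((1 : ℚ) : ℝ) := by
    exact_mod_cast h9
  push_cast at h10
  exact h10

theorem exists_class_one {a b d : ℕ} (hd : 0 < d) (had : Nat.Coprime a d) :
    ∃ c : ℕ, ∀ n : ℕ, d ∣ a * n + b ↔ n ≡ c [MOD d] := by
  have : NeZero d := ⟨hd.ne'⟩
  set u := ZMod.unitOfCoprime a had with hu
  have hua : (u : ZMod d) = a := ZMod.coe_unitOfCoprime a had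
  refine ⟨(-(b : ZMod d) * ((u⁻¹ : (ZMod d)ˣ) : ZMod d)).val, fun n => ?_⟩
  rw [← ZMod.natCast_eq_zero_iff, ← ZMod.natCast_eq_natCast_iff, ZMod.natCast_zmod_val]
  push_cast
  rw [← hua]
  constructor
  · intro h
    have h1 : (u : ZMod d) * n = -b := by linear_combination h
    rw [← h1, mul_comm (u : ZMod d), mul_assoc, Units.mul_inv, mul_one]
  · intro h
    rw [h]
    have : (u : ZMod d) * (-(b : ZMod d) * ((u⁻¹ : (ZMod d)ˣ) : ZMod d))
        = -(b : ZMod d) * ((u : ZMod d) * ((u⁻¹ : (ZMod d)ˣ) : ZMod d)) := by ring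
    rw [this, Units.mul_inv]
    ring

theorem exists_class_two {a₁ b₁ a₂ b₂ d₁ d₂ : ℕ} (hd₁ : 0 < d₁) (hd₂ : 0 < d₂)
    (h1 : Nat.Coprime a₁ d₁) (h2 : Nat.Coprime a₂ d₂) (h12 : Nat.Coprime d₁ d₂) :
    ∃ c : ℕ, ∀ n : ℕ, (d₁ ∣ a₁ * n + b₁ ∧ d₂ ∣ a₂ * n + b₂) ↔ n ≡ c [MOD (d₁ * d₂)] := by
  obtain ⟨c1, hc1⟩ := exists_class_one (b := b₁) hd₁ h1
  obtain ⟨c2, hc2⟩ := exists_class_one (b := b₂) hd₂ h2
  obtain ⟨c, hca, hcb⟩ := Nat.chineseRemainder h12 c1 c2
  refine ⟨c, fun n => ?_⟩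
  rw [hc1, hc2, ← Nat.modEq_and_modEq_iff_modEq_mul h12]
  constructor
  · rintro ⟨h3, h4⟩
    exact ⟨h3.trans hca.symm, h4.trans hcb.symm⟩
  · rintro ⟨h3, h4⟩
    exact ⟨h3.trans hca, h4.trans hcb⟩

/-- unique factorisation `d = d₁ d₂`, `d₁ ∣ x`, `d₂ ∣ y` -/
theorem factor_count {x y d : ℕ} (hd : Squarefree d) (hxy : ∀ p, p.Prime → p ∣ d → p ∣ x → ¬ p ∣ y) :
    (∑ e ∈ Nat.divisorsAntidiagonal d, if e.1 ∣ x ∧ e.2 ∣ y then (1 : ℝ) else 0)
      = if d ∣ x * y then 1 else 0 := by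
  have hd0 : d ≠ 0 := hd.ne_zero
  by_cases h : d ∣ x * y
  · rw [if_pos h]
    set g := Nat.gcd d x with hg
    have hgd : g ∣ d := Nat.gcd_dvd_left _ _
    have hg0 : 0 < g := Nat.gcd_pos_of_pos_left _ (Nat.pos_of_ne_zero hd0)
    have hgx : g ∣ x := Nat.gcd_dvd_right _ _
    have hgm : g * (d / g) = d := Nat.mul_div_cancel' hgd
    have hmem : (g, d / g) ∈ Nat.divisorsAntidiagonal d := by
      rw [Nat.mem_divisorsAntidiagonal]; exact ⟨hgm, hd0⟩
    have hcop : Nat.Coprime (d / g) (x / g) := Nat.coprime_div_gcd_div_gcd hg0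
    have hy : d / g ∣ y := by
      have h1 : d / g ∣ (x / g) * y := by
        have h2 : g * (d / g) ∣ g * ((x / g) * y) := by
          rw [hgm, ← mul_assoc, Nat.mul_div_cancel' hgx]; exact h
        exact Nat.dvd_of_mul_dvd_mul_left hg0 h2
      exact hcop.dvd_of_dvd_mul_left h1
    rw [Finset.sum_eq_single (g, d / g)]
    · rw [if_pos ⟨hgx, hy⟩]
    · rintro ⟨e1, e2⟩ he hne
      rw [if_neg]
      rintro ⟨h1, h2⟩
      apply hne
      rw [Nat.mem_divisorsAntidiagonal] at he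
      simp only at he h1 h2
      have he1 : e1 ∣ g := Nat.dvd_gcd (he.1 ▸ dvd_mul_right _ _) h1
      -- `g / e1` divides both
      have hge : g = e1 := by
        obtain ⟨q, hq⟩ := he1
        by_contra hne'
        have hq1 : q ≠ 1 := by
          rintro rfl; apply hne'; rw [hq, mul_one]
        obtain ⟨p, hp, hpq⟩ := Nat.exists_prime_and_dvd hq1
        have hpg : p ∣ g := hpq.trans (hq ▸ dvd_mul_left _ _)
        have hqe2 : q ∣ e2 := by
          have h3 : e1 * q ∣ e1 * e2 := by rw [he.1, ← hq]; exact hgd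
          have he10 : 0 < e1 := Nat.pos_of_ne_zero (by rintro rfl; apply hd0; rw [← he.1, zero_mul])
          exact Nat.dvd_of_mul_dvd_mul_left he10 h3
        exact hxy p hp (hpg.trans hgd) (hpg.trans hgx) ((hpq.trans hqe2).trans h2)
      have he2 : e2 = d / g := by
        rw [hge, ← he.1]
        exact (Nat.mul_div_cancel_left e2 (by rw [← hge]; exact hg0)).symm
      rw [he2, ← hge]
    · intro h3; exact absurd hmem h3
  · rw [if_neg h]
    apply Finset.sum_eq_zero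
    rintro ⟨e1, e2⟩ he
    rw [if_neg]
    rintro ⟨h1, h2⟩
    apply h
    rw [Nat.mem_divisorsAntidiagonal] at he
    simp only at he h1 h2
    rw [← he.1]
    exact Nat.mul_dvd_mul h1 h2

/-- The relevant nonvanishing discriminant. -/
def DD (a₁ b₁ a₂ b₂ : ℕ) : ℕ := a₁ * a₂ * (((a₁ * b₂ : ℕ) : ℤ) - ((a₂ * b₁ : ℕ) : ℤ)).natAbs

theorem no_common {a₁ b₁ a₂ b₂ n p : ℕ} (hpD : ¬ p ∣ DD a₁ b₁ a₂ b₂)
    (h1 : p ∣ a₁ * n + b₁) : ¬ p ∣ a₂ * n + b₂ := by
  intro h2
  apply hpD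
  unfold DD
  apply Dvd.dvd.mul_left
  rw [← Int.natCast_dvd]
  have h1' : (p : ℤ) ∣ (a₁ : ℤ) * n + b₁ := by exact_mod_cast h1
  have h2' : (p : ℤ) ∣ (a₂ : ℤ) * n + b₂ := by exact_mod_cast h2
  have h3 : ((a₁ * b₂ : ℕ) : ℤ) - ((a₂ * b₁ : ℕ) : ℤ)
      = (a₁ : ℤ) * ((a₂ : ℤ) * n + b₂) - (a₂ : ℤ) * ((a₁ : ℤ) * n + b₁) := by
    push_cast; ring
  rw [h3]
  exact dvd_sub (h2'.mul_left _) (h1'.mul_left _)

theorem count_ff {a₁ b₁ a₂ b₂ d : ℕ} (N : ℕ) (hd : Squarefree d)
    (hcop : Nat.Coprime d (DD a₁ b₁ a₂ b₂)) :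
    |(((Icc 1 N).filter (fun n => d ∣ ff a₁ b₁ a₂ b₂ n)).card : ℝ) - nuF d * N|
      ≤ (Nat.divisors d).card := by
  have hd0 : 0 < d := Nat.pos_of_ne_zero hd.ne_zero
  have hpD : ∀ p : ℕ, p.Prime → p ∣ d → ¬ p ∣ DD a₁ b₁ a₂ b₂ := by
    intro p hp hpd h
    have := Nat.dvd_gcd hpd h
    rw [hcop] at this
    exact hp.one_lt.ne' (Nat.dvd_one.1 this)
  have hcopa₁ : ∀ e, e ∣ d → Nat.Coprime a₁ e := by
    intro e he
    have h1 : a₁ ∣ DD a₁ b₁ a₂ b₂ := by unfold DD; rw [mul_assoc]; exact dvd_mul_right _ _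
    exact (Nat.Coprime.coprime_dvd_left he (Nat.Coprime.coprime_dvd_right h1 hcop)).symm
  have hcopa₂ : ∀ e, e ∣ d → Nat.Coprime a₂ e := by
    intro e he
    have h1 : a₂ ∣ DD a₁ b₁ a₂ b₂ := by
      unfold DD; rw [mul_comm a₁ a₂, mul_assoc]; exact dvd_mul_right _ _
    exact (Nat.Coprime.coprime_dvd_left he (Nat.Coprime.coprime_dvd_right h1 hcop)).symm
  have h1 : (((Icc 1 N).filter (fun n => d ∣ ff a₁ b₁ a₂ b₂ n)).card : ℝ)
      = ∑ e ∈ Nat.divisorsAntidiagonal d,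
        (((Icc 1 N).filter (fun n => e.1 ∣ a₁ * n + b₁ ∧ e.2 ∣ a₂ * n + b₂)).card : ℝ) := by
    have h2 : ∀ (q : ℕ → Prop) [DecidablePred q], (((Icc 1 N).filter q).card : ℝ)
        = ∑ n ∈ Icc 1 N, if q n then (1 : ℝ) else 0 := by
      intro q _
      rw [Finset.card_filter]; push_cast; rfl
    rw [h2]
    simp_rw [h2]
    rw [Finset.sum_comm]
    apply Finset.sum_congr rfl
    intro n _
    rw [factor_count hd]
    · rfl
    · intro p hp hpd h3
      exact no_common (hpD p hp hpd) h3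
  have h2 : nuF d * N = ∑ e ∈ Nat.divisorsAntidiagonal d, (N : ℝ) / d := by
    rw [Finset.sum_const, nsmul_eq_mul, nuF_apply]
    have : (Nat.divisorsAntidiagonal d).card = (Nat.divisors d).card := by
      rw [← Nat.map_div_right_divisors, Finset.card_map]
    rw [this]; ring
  rw [h1, h2, ← Finset.sum_sub_distrib]
  refine (Finset.abs_sum_le_sum_abs _ _).trans ?_
  have h3 : ∀ e ∈ Nat.divisorsAntidiagonal d,
      |(((Icc 1 N).filter (fun n => e.1 ∣ a₁ * n + b₁ ∧ e.2 ∣ a₂ * n + b₂)).card : ℝ) - (N : ℝ) / d| ≤ 1 := by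
    rintro ⟨e1, e2⟩ he
    rw [Nat.mem_divisorsAntidiagonal] at he
    simp only at he ⊢
    have he1 : e1 ∣ d := he.1 ▸ dvd_mul_right _ _
    have he2 : e2 ∣ d := he.1 ▸ dvd_mul_left _ _
    have h12 : Nat.Coprime e1 e2 := by
      apply Nat.coprime_of_squarefree_mul
      rw [he.1]; exact hd
    obtain ⟨c, hc⟩ := exists_class_two (b₁ := b₁) (b₂ := b₂) (Nat.pos_of_dvd_of_pos he1 hd0)
      (Nat.pos_of_dvd_of_pos he2 hd0) (hcopa₁ e1 he1) (hcopa₂ e2 he2) h12
    have h4 : (Icc 1 N).filter (fun n => e1 ∣ a₁ * n + b₁ ∧ e2 ∣ a₂ * n + b₂)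
        = (Icc 1 N).filter (fun n => n ≡ c [MOD d]) := by
      apply Finset.filter_congr
      intro n _
      rw [hc n, he.1]
    rw [h4]
    exact count_class N d c hd0
  refine (Finset.sum_le_sum h3).trans ?_
  rw [Finset.sum_const, nsmul_eq_mul, mul_one]
  have : (Nat.divisorsAntidiagonal d).card = (Nat.divisors d).card := by
    rw [← Nat.map_div_right_divisors, Finset.card_map]
  rw [this]

theorem rem_le {a₁ b₁ a₂ b₂ N R M d : ℕ} (hM : 2 ∣ M) (ha₁ : 0 < a₁) (ha₂ : 0 < a₂)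
    (hDM : DD a₁ b₁ a₂ b₂ ∣ M) (hd : d ∣ PR R M) :
    |(sv a₁ b₁ a₂ b₂ N R M hM).rem d| ≤ d := by
  have hsq : Squarefree d := (PR_squarefree R M).squarefree_of_dvd hd
  have hcop : Nat.Coprime d (DD a₁ b₁ a₂ b₂) := Nat.Coprime.coprime_dvd_right hDM (coprime_of_dvd_PR hd)
  have h1 := count_ff N hsq hcop
  have h2 : (sv a₁ b₁ a₂ b₂ N R M hM).multSum d
      = (((Icc 1 N).filter (fun n => d ∣ ff a₁ b₁ a₂ b₂ n)).card : ℝ) := by
    unfold multSum
    show ∑ n ∈ (Icc 1 N).image (ff a₁ b₁ a₂ b₂), (if d ∣ n then (1 : ℝ) else 0) = _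
    rw [Finset.sum_image fun x _ y _ h => (ff_mono b₁ b₂ ha₁ ha₂).injective h, Finset.card_filter]
    push_cast; rfl
  have h3 : (sv a₁ b₁ a₂ b₂ N R M hM).rem d
      = (((Icc 1 N).filter (fun n => d ∣ ff a₁ b₁ a₂ b₂ n)).card : ℝ) - nuF d * N := by
    unfold BoundingSieve.rem
    rw [h2]; rfl
  rw [h3]
  refine h1.trans ?_
  exact_mod_cast Nat.card_divisors_le_self d

theorem g_div_nu_le {a₁ b₁ a₂ b₂ N R M d : ℕ} (hM : 2 ∣ M) (hd : d ∣ PR R M) :
    (sv a₁ b₁ a₂ b₂ N R M hM).selbergTerms d / (sv a₁ b₁ a₂ b₂ N R M hM).nu d ≤ d := by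
  have hsq : Squarefree d := (PR_squarefree R M).squarefree_of_dvd hd
  have hnu : (sv a₁ b₁ a₂ b₂ N R M hM).nu d ≠ 0 :=
    nu_ne_zero (s := sv a₁ b₁ a₂ b₂ N R M hM) hd
  rw [selbergTerms_apply, mul_comm, mul_div_assoc, div_self hnu, mul_one]
  have h1 : (d : ℝ) = ∏ p ∈ d.primeFactors, (p : ℝ) := by
    conv_lhs => rw [← Nat.prod_primeFactors_of_squarefree hsq]
    push_cast; rfl
  rw [h1]
  apply Finset.prod_le_prod
  · intro p hp
    have hpp := Nat.prime_of_mem_primeFactors hp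
    have h2 := (sv a₁ b₁ a₂ b₂ N R M hM).nu_lt_one_of_prime p hpp
      ((Nat.dvd_of_mem_primeFactors hp).trans hd)
    rw [inv_nonneg]; linarith
  · intro p hp
    have hpp := Nat.prime_of_mem_primeFactors hp
    have h3 := three_le_of_dvd hM hpp ((Nat.dvd_of_mem_primeFactors hp).trans hd)
    have h3' : (3 : ℝ) ≤ p := by exact_mod_cast h3
    show (1 - nuF p)⁻¹ ≤ p
    rw [nuF_prime hpp]
    have h4 : 1 - 2 / (p : ℝ) = (p - 2) / p := by field_simp
    rw [h4, inv_div, div_le_iff₀ (by linarith)]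
    nlinarith

theorem JJ_lower {a₁ b₁ a₂ b₂ N X M : ℕ} (hM : 2 ∣ M) :
    ∑ l ∈ SF (X ^ 2) M, ((Nat.divisors l).card : ℝ) / l
      ≤ JJ (sv a₁ b₁ a₂ b₂ N (X ^ 2) M hM) (X ^ 2) := by
  set s := sv a₁ b₁ a₂ b₂ N (X ^ 2) M hM with hs
  unfold JJ
  have hsub : SF (X ^ 2) M ⊆ (Nat.divisors s.prodPrimes).filter (· ≤ X ^ 2) := by
    intro l hl
    unfold SF at hl
    rw [mem_filter, mem_Icc] at hl
    rw [mem_filter, Nat.mem_divisors]
    exact ⟨⟨dvd_PR hl.1.2 hl.2.1 hl.2.2, P_ne s⟩, hl.1.2⟩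
  calc ∑ l ∈ SF (X ^ 2) M, ((Nat.divisors l).card : ℝ) / l
      ≤ ∑ l ∈ SF (X ^ 2) M, s.selbergTerms l := by
        apply Finset.sum_le_sum
        intro l hl
        have hl' := hsub hl
        rw [mem_filter] at hl'
        have hlP := Nat.dvd_of_mem_divisors hl'.1
        rw [selbergTerms_apply]
        show nuF l ≤ nuF l * _
        have hnu : 0 < nuF l := nu_pos_of_dvd_prodPrimes (s := s) hlP
        have h1 : (1 : ℝ) ≤ ∏ p ∈ l.primeFactors, (1 - s.nu p)⁻¹ := by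
          have h0 : (1 : ℝ) = ∏ _p ∈ l.primeFactors, (1 : ℝ) := by simp
          refine h0.le.trans ?_
          apply Finset.prod_le_prod
          · intro p _; norm_num
          · intro p hp
            have hpp := Nat.prime_of_mem_primeFactors hp
            have hpP := (Nat.dvd_of_mem_primeFactors hp).trans hlP
            have h2 := s.nu_lt_one_of_prime p hpp hpP
            have h3 := s.nu_pos_of_prime p hpp hpP
            have h4 : 0 < 1 - s.nu p := by linarith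
            exact (one_le_inv₀ h4).2 (by linarith)
        nlinarith
    _ ≤ _ := by
        apply Finset.sum_le_sum_of_subset_of_nonneg hsub
        intro l hl _
        exact (g_pos (mem_filter.1 hl).1).le

theorem siftedSum_eq {a₁ b₁ a₂ b₂ N R M : ℕ} (hM : 2 ∣ M) (ha₁ : 0 < a₁) (ha₂ : 0 < a₂) :
    (sv a₁ b₁ a₂ b₂ N R M hM).siftedSum
      = (((Icc 1 N).filter (fun n => Nat.Coprime (PR R M) (ff a₁ b₁ a₂ b₂ n))).card : ℝ) := by
  unfold siftedSum
  show ∑ n ∈ (Icc 1 N).image (ff a₁ b₁ a₂ b₂), (if Nat.Coprime (PR R M) n then (1 : ℝ) else 0) = _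
  rw [Finset.sum_image fun x _ y _ h => (ff_mono b₁ b₂ ha₁ ha₂).injective h, Finset.card_filter]
  push_cast; rfl

theorem card_le_sifted {a₁ b₁ a₂ b₂ N R M : ℕ} (hM : 2 ∣ M) (ha₁ : 0 < a₁) (ha₂ : 0 < a₂) :
    (((Icc 1 N).filter (fun n => (a₁ * n + b₁).Prime ∧ (a₂ * n + b₂).Prime)).card : ℝ)
      ≤ R + (sv a₁ b₁ a₂ b₂ N R M hM).siftedSum := by
  classical
  rw [siftedSum_eq hM ha₁ ha₂]
  have h1 : (Icc 1 N).filter (fun n => (a₁ * n + b₁).Prime ∧ (a₂ * n + b₂).Prime)
      ⊆ Icc 1 R ∪ (Icc 1 N).filter (fun n => Nat.Coprime (PR R M) (ff a₁ b₁ a₂ b₂ n)) := by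
    intro n hn
    rw [mem_filter, mem_Icc] at hn
    rw [mem_union, mem_Icc, mem_filter, mem_Icc]
    obtain ⟨⟨hn1, hn2⟩, hp1, hp2⟩ := hn
    by_cases hnR : n ≤ R
    · left; exact ⟨hn1, hnR⟩
    · right
      refine ⟨⟨hn1, hn2⟩, ?_⟩
      rw [Nat.coprime_iff_gcd_eq_one]
      by_contra h
      obtain ⟨p, hp, hpd⟩ := Nat.exists_prime_and_dvd h
      have h2 : p ∣ PR R M := hpd.trans (Nat.gcd_dvd_left _ _)
      have h3 : p ∣ ff a₁ b₁ a₂ b₂ n := hpd.trans (Nat.gcd_dvd_right _ _)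
      have hpR := ((prime_dvd_PR hp).1 h2).1
      unfold ff at h3
      rcases (Nat.Prime.dvd_mul hp).1 h3 with h4 | h4
      · have h5 := (Nat.prime_dvd_prime_iff_eq hp hp1).1 h4
        have h6 : n ≤ a₁ * n := Nat.le_mul_of_pos_left n ha₁
        omega
      · have h5 := (Nat.prime_dvd_prime_iff_eq hp hp2).1 h4
        have h6 : n ≤ a₂ * n := Nat.le_mul_of_pos_left n ha₂
        omega
  have h2 := Finset.card_le_card h1
  have h3 := h2.trans (Finset.card_union_le _ _)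
  rw [Nat.card_Icc] at h3
  simp only [Nat.add_sub_cancel] at h3
  exact_mod_cast h3

end Pool.Agent.Helper112.E456.SieveAux

namespace Pool.Agent.Helper112.E456

open Finset SieveAux

/-- Selberg upper bound for two linear forms being simultaneously prime. -/
theorem sieve_two : ∃ C : ℝ, 0 < C ∧ ∀ a₁ b₁ a₂ b₂ N : ℕ, 0 < a₁ → 0 < a₂ →
    Nat.Coprime a₁ b₁ → Nat.Coprime a₂ b₂ → a₁ * b₂ ≠ a₂ * b₁ → 2 ≤ N →
    (((Finset.Icc 1 N).filter (fun n => (a₁ * n + b₁).Prime ∧ (a₂ * n + b₂).Prime)).card : ℝ) ≤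
      C * (((a₁ * a₂ * (((a₁ * b₂ : ℕ) : ℤ) - ((a₂ * b₁ : ℕ) : ℤ)).natAbs : ℕ) : ℝ) /
        ((Nat.totient (a₁ * a₂ * (((a₁ * b₂ : ℕ) : ℤ) - ((a₂ * b₁ : ℕ) : ℤ)).natAbs) : ℕ) : ℝ)) ^ 2
        * N / (Real.log N) ^ 2 := by
  refine ⟨8320, by norm_num, ?_⟩
  intro a₁ b₁ a₂ b₂ N ha₁ ha₂ _ _ hne hN
  have hDdef : a₁ * a₂ * (((a₁ * b₂ : ℕ) : ℤ) - ((a₂ * b₁ : ℕ) : ℤ)).natAbs = DD a₁ b₁ a₂ b₂ := rfl
  rw [hDdef]
  set D := DD a₁ b₁ a₂ b₂ with hD
  have hD0 : 0 < D := by
    rw [hD]; unfold DD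
    apply Nat.mul_pos (Nat.mul_pos ha₁ ha₂)
    rw [Int.natAbs_pos]
    intro h
    apply hne
    have : ((a₁ * b₂ : ℕ) : ℤ) = ((a₂ * b₁ : ℕ) : ℤ) := by linarith
    exact_mod_cast this
  have hNR : (2 : ℝ) ≤ N := by exact_mod_cast hN
  have hN0 : (0 : ℝ) < N := by linarith
  have hlog : 0 < Real.log N := Real.log_pos (by linarith)
  set M := 2 * D with hM
  have hM2 : 2 ∣ M := dvd_mul_right _ _
  have hDM : D ∣ M := dvd_mul_left _ _
  have hM0 : M ≠ 0 := by omega
  set X := ⌊(N : ℝ) ^ ((1 : ℝ) / 16)⌋₊ with hX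
  have hX1 : 1 ≤ X := by
    rw [hX, Nat.one_le_floor_iff]
    exact Real.one_le_rpow (by linarith) (by norm_num)
  have hXle : (X : ℝ) ≤ (N : ℝ) ^ ((1 : ℝ) / 16) := Nat.floor_le (by positivity)
  have hXlt : (N : ℝ) ^ ((1 : ℝ) / 16) < X + 1 := Nat.lt_floor_add_one _
  have hlogX : Real.log N / 16 ≤ Real.log (X + 1) := by
    have h1 := Real.log_le_log (by positivity) hXlt.le
    rw [Real.log_rpow hN0] at h1
    linarith
  set R := X ^ 2 with hR
  have hR1 : 1 ≤ R := Nat.one_le_pow _ _ hX1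
  set s := sv a₁ b₁ a₂ b₂ N R M hM2 with hs
  -- main Selberg bound
  have hsel := selberg_bound (s := s) R hR1 (A := R) (B := (R : ℝ) ^ 2) (by positivity) (by positivity)
    (by
      intro d hd hdR
      refine (g_div_nu_le hM2 (Nat.dvd_of_mem_divisors hd)).trans ?_
      exact_mod_cast hdR)
    (by
      intro d hd hdR
      refine (rem_le hM2 ha₁ ha₂ hDM (Nat.dvd_of_mem_divisors hd)).trans ?_
      exact_mod_cast hdR)
  have hcard := card_le_sifted (a₁ := a₁) (b₁ := b₁) (a₂ := a₂) (b₂ := b₂) (N := N) (R := R) hM2 ha₁ ha₂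
  -- lower bound for J
  have hJ1 := JJ_lower (a₁ := a₁) (b₁ := b₁) (a₂ := a₂) (b₂ := b₂) (N := N) (X := X) hM2
  have hU := U_lower X M hM0
  have hUs := U_sq X M
  have hJpos : 0 < JJ s R := JJ_pos R hR1
  have htot : (0 : ℝ) < Nat.totient D := by exact_mod_cast Nat.totient_pos.2 hD0
  have htotM : (0 : ℝ) < Nat.totient M := by exact_mod_cast Nat.totient_pos.2 (Nat.pos_of_ne_zero hM0)
  have hDr : (0 : ℝ) < D := by exact_mod_cast hD0
  set G := (D : ℝ) / (Nat.totient D : ℝ) with hG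
  have hG1 : 1 ≤ G := by
    rw [hG, one_le_div htot]
    exact_mod_cast Nat.totient_le D
  have hMG : (M : ℝ) / (Nat.totient M : ℝ) ≤ 2 * G := by
    rw [hG, hM, ← mul_div_assoc]
    push_cast
    apply div_le_div_of_nonneg_left (by positivity) htot
    have : Nat.totient D ≤ Nat.totient (2 * D) :=
      Nat.le_of_dvd (Nat.totient_pos.2 (by omega)) (Nat.totient_dvd_of_dvd (dvd_mul_left _ _))
    exact_mod_cast this
  have hU0 : 0 ≤ U X M := Finset.sum_nonneg fun _ _ => by positivity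
  have hU2 : Real.log N ≤ 64 * G * U X M := by
    have h1 : Real.log (X + 1) ≤ 2 * (2 * G) * U X M := by
      refine hU.trans ?_
      gcongr
    linarith
  have hJ2 : (Real.log N) ^ 2 ≤ 8192 * G ^ 2 * JJ s R := by
    calc (Real.log N) ^ 2 ≤ (64 * G * U X M) ^ 2 := by gcongr
      _ = 4096 * G ^ 2 * (U X M) ^ 2 := by ring
      _ ≤ 4096 * G ^ 2 * (2 * JJ s R) := by
          gcongr
          refine hUs.trans ?_
          linarith
      _ = _ := by ring
  have hmain : s.totalMass / JJ s R ≤ 8192 * G ^ 2 * N / (Real.log N) ^ 2 := by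
    show (N : ℝ) / JJ s R ≤ _
    rw [div_le_div_iff₀ hJpos (by positivity)]
    calc (N : ℝ) * (Real.log N) ^ 2 ≤ N * (8192 * G ^ 2 * JJ s R) := by gcongr
      _ = _ := by ring
  -- error terms
  have hlog8 : (Real.log N) ^ 2 ≤ 64 * (N : ℝ) ^ ((1 : ℝ) / 4) := by
    have h1 : Real.log N ≤ (N : ℝ) ^ ((1 : ℝ) / 8) / (1 / 8) :=
      Real.log_le_rpow_div hN0.le (by norm_num)
    calc (Real.log N) ^ 2 ≤ ((N : ℝ) ^ ((1 : ℝ) / 8) / (1 / 8)) ^ 2 := by gcongr
      _ = 64 * ((N : ℝ) ^ ((1 : ℝ) / 8)) ^ 2 := by ring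
      _ = 64 * (N : ℝ) ^ ((1 : ℝ) / 4) := by
          rw [← Real.rpow_natCast, ← Real.rpow_mul hN0.le]; norm_num
  have hX12 : (X : ℝ) ^ 12 ≤ (N : ℝ) ^ ((3 : ℝ) / 4) := by
    calc (X : ℝ) ^ 12 ≤ ((N : ℝ) ^ ((1 : ℝ) / 16)) ^ 12 := by gcongr
      _ = (N : ℝ) ^ ((3 : ℝ) / 4) := by
          rw [← Real.rpow_natCast, ← Real.rpow_mul hN0.le]; norm_num
  have hX1r : (1 : ℝ) ≤ X := by exact_mod_cast hX1
  have herr : (N : ℝ) ^ ((3 : ℝ) / 4) ≤ 64 * G ^ 2 * N / (Real.log N) ^ 2 := by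
    rw [le_div_iff₀ (by positivity)]
    calc (N : ℝ) ^ ((3 : ℝ) / 4) * (Real.log N) ^ 2
        ≤ (N : ℝ) ^ ((3 : ℝ) / 4) * (64 * (N : ℝ) ^ ((1 : ℝ) / 4)) := by gcongr
      _ = 64 * ((N : ℝ) ^ ((3 : ℝ) / 4) * (N : ℝ) ^ ((1 : ℝ) / 4)) := by ring
      _ = 64 * N := by
          rw [← Real.rpow_add hN0]; norm_num
      _ ≤ 64 * G ^ 2 * N := by
          have : 1 ≤ G ^ 2 := one_le_pow₀ hG1
          nlinarith
  have hRr : (R : ℝ) = (X : ℝ) ^ 2 := by rw [hR]; push_cast; ring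
  have he1 : (R : ℝ) ≤ (N : ℝ) ^ ((3 : ℝ) / 4) := by
    rw [hRr]
    refine le_trans ?_ hX12
    exact pow_le_pow_right₀ hX1r (by norm_num)
  have he2 : (R : ℝ) ^ 2 * ((R : ℝ) * R) ^ 2 ≤ (N : ℝ) ^ ((3 : ℝ) / 4) := by
    rw [hRr]
    calc ((X : ℝ) ^ 2) ^ 2 * ((X : ℝ) ^ 2 * (X : ℝ) ^ 2) ^ 2 = (X : ℝ) ^ 12 := by ring
      _ ≤ _ := hX12
  calc _ ≤ (R : ℝ) + s.siftedSum := hcard
    _ ≤ (N : ℝ) ^ ((3 : ℝ) / 4) + (8192 * G ^ 2 * N / (Real.log N) ^ 2 + (N : ℝ) ^ ((3 : ℝ) / 4)) := by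
        linarith
    _ ≤ 64 * G ^ 2 * N / (Real.log N) ^ 2 + (8192 * G ^ 2 * N / (Real.log N) ^ 2
        + 64 * G ^ 2 * N / (Real.log N) ^ 2) := by linarith
    _ = 8320 * G ^ 2 * N / (Real.log N) ^ 2 := by ring

end Pool.Agent.Helper112.E456

namespace Pool.Agent.Helper112

open Finset

theorem ps_ratio {a p : ℕ} (hp : p.Prime) (hpa : ¬ p ∣ a) :
    ((p * (a * p) * p : ℕ) : ℝ) / (Nat.totient (p * (a * p) * p) : ℝ)
      = (a * p : ℝ) / (Nat.totient (a * p) : ℝ) := by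
  have hcop : Nat.Coprime a p := ((Nat.Prime.coprime_iff_not_dvd hp).2 hpa).symm
  have h1 : p * (a * p) * p = a * p ^ 3 := by ring
  have hcop3 : Nat.Coprime a (p ^ 3) := hcop.pow_right 3
  rw [h1, Nat.totient_mul hcop3, Nat.totient_mul hcop, Nat.totient_prime_pow hp (by norm_num),
    Nat.totient_prime hp]
  have hp0 : (p : ℝ) ≠ 0 := by exact_mod_cast hp.ne_zero
  push_cast
  have : (a : ℝ) * (p : ℝ) ^ 3 = ((a : ℝ) * p) * (p : ℝ) ^ 2 := by ring
  have h2 : (Nat.totient a : ℝ) * ((p : ℝ) ^ 2 * ((p - 1 : ℕ) : ℝ))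
      = ((Nat.totient a : ℝ) * ((p - 1 : ℕ) : ℝ)) * (p : ℝ) ^ 2 := by ring
  norm_num
  rw [this, h2, mul_div_mul_right _ _ (pow_ne_zero 2 hp0)]

/-- T7b. upper bound sieve for prime pairs l, a l + 1 with l in a class mod p -/
theorem pair_sieve : ∃ C : ℝ, 0 < C ∧ ∀ (a p b Z : ℕ), 1 ≤ a → p.Prime → ¬ p ∣ a → 2 * p ≤ Z →
    (((Icc 1 Z).filter (fun l => l.Prime ∧ (a * l + 1).Prime ∧ l ≡ b [MOD p])).card : ℝ)
      ≤ C * ((Z : ℝ) / p) * ((a * p : ℝ) / (Nat.totient (a * p) : ℝ)) ^ 2 /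
        (Real.log ((Z : ℝ) / p)) ^ 2 := by
  obtain ⟨C, hC, hsieve⟩ := E456.sieve_two
  refine ⟨4 * C + 4, by positivity, ?_⟩
  intro a p b Z ha hp hpa hZ
  have hp0 : 0 < p := hp.pos
  have hp0r : (0 : ℝ) < p := by exact_mod_cast hp0
  have hZr : (2 : ℝ) * p ≤ Z := by exact_mod_cast hZ
  set x : ℝ := (Z : ℝ) / p with hx
  have hx2 : 2 ≤ x := by rw [hx, le_div_iff₀ hp0r]; exact hZr
  have hlogx : 0 < Real.log x := Real.log_pos (by linarith)
  have hx0 : 0 < x := by linarith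
  set G : ℝ := (a * p : ℝ) / (Nat.totient (a * p) : ℝ) with hG
  have hap : 0 < a * p := Nat.mul_pos ha hp0
  have hG1 : 1 ≤ G := by
    rw [hG, one_le_div (by exact_mod_cast Nat.totient_pos.2 hap)]
    exact_mod_cast Nat.totient_le (a * p)
  have hG2 : 1 ≤ G ^ 2 := one_le_pow₀ hG1
  -- the bound for a single element
  have hone : (1 : ℝ) ≤ 4 * x * G ^ 2 / (Real.log x) ^ 2 := by
    rw [le_div_iff₀ (by positivity), one_mul]
    have h1 : Real.log x ≤ 2 * Real.sqrt x := by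
      have h2 : Real.log (Real.sqrt x) ≤ Real.sqrt x - 1 :=
        Real.log_le_sub_one_of_pos (Real.sqrt_pos.2 hx0)
      rw [Real.log_sqrt hx0.le] at h2
      linarith
    calc (Real.log x) ^ 2 ≤ (2 * Real.sqrt x) ^ 2 := by gcongr
      _ = 4 * x := by rw [mul_pow, Real.sq_sqrt hx0.le]; ring
      _ ≤ 4 * x * G ^ 2 := by nlinarith
  have hfin : ∀ c : ℝ, 0 ≤ c → c ≤ 1 + 4 * C * x * G ^ 2 / (Real.log x) ^ 2 →
      c ≤ (4 * C + 4) * x * G ^ 2 / (Real.log x) ^ 2 := by
    intro c _ hc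
    calc c ≤ 1 + 4 * C * x * G ^ 2 / (Real.log x) ^ 2 := hc
      _ ≤ 4 * x * G ^ 2 / (Real.log x) ^ 2 + 4 * C * x * G ^ 2 / (Real.log x) ^ 2 := by linarith
      _ = _ := by ring
  apply hfin _ (by positivity)
  have hpos2 : 0 ≤ 4 * C * x * G ^ 2 / (Real.log x) ^ 2 := by positivity
  set b0 := b % p with hb0
  have hb0p : b0 < p := Nat.mod_lt _ hp0
  by_cases hc1 : b0 = 0
  · -- l = p
    have hsub : (Icc 1 Z).filter (fun l => l.Prime ∧ (a * l + 1).Prime ∧ l ≡ b [MOD p]) ⊆ {p} := by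
      intro l hl
      rw [mem_filter] at hl
      rw [mem_singleton]
      have h1 : l % p = 0 := by
        have : l % p = b % p := hl.2.2.2
        rw [this, ← hb0, hc1]
      have h2 : p ∣ l := Nat.dvd_of_mod_eq_zero h1
      exact ((Nat.prime_dvd_prime_iff_eq hp hl.2.1).1 h2).symm
    have h2 := Finset.card_le_card hsub
    rw [Finset.card_singleton] at h2
    have h3 : (((Icc 1 Z).filter (fun l => l.Prime ∧ (a * l + 1).Prime ∧ l ≡ b [MOD p])).card : ℝ) ≤ 1 := by
      exact_mod_cast h2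
    linarith
  · by_cases hc2 : p ∣ a * b0 + 1
    · -- a l + 1 = p
      have hcard : ((Icc 1 Z).filter (fun l => l.Prime ∧ (a * l + 1).Prime ∧ l ≡ b [MOD p])).card ≤ 1 := by
        rw [Finset.card_le_one]
        have key : ∀ l ∈ (Icc 1 Z).filter (fun l => l.Prime ∧ (a * l + 1).Prime ∧ l ≡ b [MOD p]),
            a * l + 1 = p := by
          intro l hl
          rw [mem_filter] at hl
          have h1 : l ≡ b0 [MOD p] := hl.2.2.2.trans (Nat.mod_modEq b p).symm
          have h2 : a * l + 1 ≡ a * b0 + 1 [MOD p] := (h1.mul_left a).add_right 1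
          have h3 : p ∣ a * l + 1 := (Nat.ModEq.dvd_iff h2 dvd_rfl).2 hc2
          exact ((Nat.prime_dvd_prime_iff_eq hp hl.2.2.1).1 h3).symm
        intro l hl m hm
        have h1 := key l hl
        have h2 := key m hm
        have h3 : a * l = a * m := by omega
        exact Nat.eq_of_mul_eq_mul_left ha h3
      have h3 : (((Icc 1 Z).filter (fun l => l.Prime ∧ (a * l + 1).Prime ∧ l ≡ b [MOD p])).card : ℝ) ≤ 1 := by
        exact_mod_cast hcard
      linarith
    · -- the sieve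
      set N := Z / p with hN
      have hN2 : 2 ≤ N := by rw [hN, Nat.le_div_iff_mul_le hp0]; exact hZ
      have hco1 : Nat.Coprime p b0 := by
        rw [Nat.Prime.coprime_iff_not_dvd hp]
        intro h
        have := Nat.le_of_dvd (Nat.pos_of_ne_zero hc1) h
        omega
      have hco2 : Nat.Coprime (a * p) (a * b0 + 1) := by
        apply Nat.Coprime.mul_left
        · rw [Nat.coprime_comm]
          simp
        · exact (Nat.Prime.coprime_iff_not_dvd hp).2 hc2
      have hne : p * (a * b0 + 1) ≠ (a * p) * b0 := by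
        have : p * (a * b0 + 1) = (a * p) * b0 + p := by ring
        omega
      have hs := hsieve p b0 (a * p) (a * b0 + 1) N hp0 hap hco1 hco2 hne hN2
      have hdiff : (((p * (a * b0 + 1) : ℕ) : ℤ) - ((a * p * b0 : ℕ) : ℤ)).natAbs = p := by
        have : ((p * (a * b0 + 1) : ℕ) : ℤ) - ((a * p * b0 : ℕ) : ℤ) = (p : ℤ) := by
          push_cast; ring
        rw [this]; simp
      rw [hdiff, ps_ratio hp hpa, ← hG] at hs
      -- counting
      have hcount : ((Icc 1 Z).filter (fun l => l.Prime ∧ (a * l + 1).Prime ∧ l ≡ b [MOD p])).card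
          ≤ 1 + ((Icc 1 N).filter (fun n => (p * n + b0).Prime ∧ (a * p * n + (a * b0 + 1)).Prime)).card := by
        have hsub : (Icc 1 Z).filter (fun l => l.Prime ∧ (a * l + 1).Prime ∧ l ≡ b [MOD p]) ⊆
            {b0} ∪ ((Icc 1 N).filter (fun n => (p * n + b0).Prime ∧ (a * p * n + (a * b0 + 1)).Prime)).image
              (fun n => p * n + b0) := by
          intro l hl
          rw [mem_filter, mem_Icc] at hl
          rw [mem_union, mem_singleton, mem_image]
          have h1 : l % p = b0 := hl.2.2.2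
          have h2 : p * (l / p) + b0 = l := by rw [← h1]; exact Nat.div_add_mod l p
          by_cases h3 : l / p = 0
          · left; rw [h3] at h2; omega
          · right
            refine ⟨l / p, ?_, h2⟩
            rw [mem_filter, mem_Icc]
            refine ⟨⟨Nat.pos_of_ne_zero h3, Nat.div_le_div_right hl.1.2⟩, ?_, ?_⟩
            · rw [h2]; exact hl.2.1
            · have h4 : a * p * (l / p) + (a * b0 + 1) = a * l + 1 := by
                conv_rhs => rw [← h2]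
                ring
              rw [h4]; exact hl.2.2.1
        refine (Finset.card_le_card hsub).trans ((Finset.card_union_le _ _).trans ?_)
        rw [Finset.card_singleton]
        exact Nat.add_le_add_left Finset.card_image_le 1
      have hcountr : (((Icc 1 Z).filter (fun l => l.Prime ∧ (a * l + 1).Prime ∧ l ≡ b [MOD p])).card : ℝ)
          ≤ 1 + (((Icc 1 N).filter (fun n => (p * n + b0).Prime ∧ (a * p * n + (a * b0 + 1)).Prime)).card : ℝ) := by
        exact_mod_cast hcount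
      have hNr : (2 : ℝ) ≤ N := by exact_mod_cast hN2
      have hNx : (N : ℝ) ≤ x := by
        rw [hx, hN]; exact Nat.cast_div_le
      have hxN : x ≤ (N : ℝ) ^ 2 := by
        have h1 : Z < p * (N + 1) := by rw [hN]; exact Nat.lt_mul_div_succ Z hp0
        have h2 : (Z : ℝ) < p * (N + 1) := by exact_mod_cast h1
        have h3 : x < N + 1 := by rw [hx, div_lt_iff₀ hp0r]; linarith
        nlinarith
      have hlogN : 0 < Real.log N := Real.log_pos (by linarith)
      have hlog : Real.log x ≤ 2 * Real.log N := by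
        have := Real.log_le_log hx0 hxN
        rw [Real.log_pow] at this
        push_cast at this
        exact this
      have hmain : C * G ^ 2 * N / (Real.log N) ^ 2 ≤ 4 * C * x * G ^ 2 / (Real.log x) ^ 2 := by
        rw [div_le_div_iff₀ (by positivity) (by positivity)]
        calc C * G ^ 2 * N * (Real.log x) ^ 2 ≤ C * G ^ 2 * x * (2 * Real.log N) ^ 2 := by gcongr
          _ = 4 * C * x * G ^ 2 * (Real.log N) ^ 2 := by ring
      linarith

end Pool.Agent.Helper112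

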