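import Mathlib

open Finset Filter

namespace Pool.Agent.Helper112

/-- Chebyshev type lower bound for theta. -/
theorem theta_lower : ∃ N0 : ℕ, ∀ n : ℕ, N0 ≤ n →
    (3 / 5 : ℝ) * n + Real.log n ≤ Chebyshev.theta (n : ℝ) := by
  have h1 : ∀ᶠ x : ℝ in atTop, Real.log x ≤ (1 / 100) * x ^ (1 / 4 : ℝ) := by
    have := (isLittleO_log_rpow_atTop (r := 1 / 4) (by norm_num)).bound
      (show (0 : ℝ) < 1 / 100 by norm_num)
    filter_upwards [this, eventually_ge_atTop 1] with x hx hx1
    rw [Real.norm_of_nonneg (Real.log_nonneg hx1),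
      Real.norm_of_nonneg (Real.rpow_nonneg (by linarith) _)] at hx
    exact hx
  obtain ⟨X, hX⟩ := eventually_atTop.1 h1
  refine ⟨max (Nat.ceil X) 10, fun n hn => ?_⟩
  have hn1 : (10 : ℝ) ≤ n := by exact_mod_cast (le_max_right _ _).trans hn
  have hnX : X ≤ n := (Nat.le_ceil X).trans (by exact_mod_cast (le_max_left _ _).trans hn)
  have hlog := hX n hnX
  have hn0 : (0 : ℝ) < n := by linarith
  have hge := Chebyshev.theta_ge n
  have hl2 : (0.6931 : ℝ) < Real.log 2 := by linarith [Real.log_two_gt_d9]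
  have hq : (n : ℝ) ^ (1 / 4 : ℝ) ≤ (n : ℝ) ^ (1 / 2 : ℝ) := by
    apply Real.rpow_le_rpow_of_exponent_le (by linarith) (by norm_num)
  have hs : (n : ℝ) ^ (1 / 2 : ℝ) = Real.sqrt n := (Real.sqrt_eq_rpow _).symm
  have hsn : Real.sqrt n * Real.sqrt n = n := Real.mul_self_sqrt hn0.le
  have hs1 : 1 ≤ Real.sqrt n := by
    rw [show (1 : ℝ) = Real.sqrt 1 by simp]
    exact Real.sqrt_le_sqrt (by linarith)
  have hlog' : Real.log n ≤ (1 / 100) * Real.sqrt n := by
    rw [← hs]; linarith
  have h3 : 2 * Real.sqrt n * Real.log n ≤ (1 / 50) * n := by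
    calc 2 * Real.sqrt n * Real.log n ≤ 2 * Real.sqrt n * ((1 / 100) * Real.sqrt n) := by
          gcongr
      _ = (1 / 50) * (Real.sqrt n * Real.sqrt n) := by ring
      _ = _ := by rw [hsn]
  have h4 : Real.log n ≤ (1 / 100) * n := by nlinarith
  have h5 : Real.log (n + 1) ≤ Real.log n + 1 / 10 := by
    have : Real.log (n + 1) - Real.log n = Real.log ((n + 1) / n) := by
      rw [Real.log_div (by linarith) (by linarith)]
    have h6 : Real.log ((n + 1) / n) ≤ (n + 1) / n - 1 := Real.log_le_sub_one_of_pos (by positivity)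
    have h7 : ((n : ℝ) + 1) / n - 1 = 1 / n := by field_simp; ring
    have h8 : (1 : ℝ) / n ≤ 1 / 10 := by
      apply one_div_le_one_div_of_le (by norm_num) hn1
    linarith
  nlinarith

/-- the primes in (R/8, R] -/
def dyP (R : ℕ) : Finset ℕ := (Icc 1 R).filter (fun r => r.Prime ∧ R < 8 * r)

theorem mem_dyP {R r : ℕ} : r ∈ dyP R ↔ r.Prime ∧ r ≤ R ∧ R < 8 * r := by
  simp only [dyP, mem_filter, mem_Icc]
  constructor
  · rintro ⟨⟨_, h2⟩, h3, h4⟩; exact ⟨h3, h2, h4⟩
  · rintro ⟨h1, h2, h3⟩; exact ⟨⟨h1.one_lt.le, h2⟩, h1, h3⟩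

theorem dyP_card : ∃ N0 : ℕ, ∀ R : ℕ, N0 ≤ R → (R : ℝ) / 3 ≤ Real.log R * (dyP R).card := by
  obtain ⟨N0, hN0⟩ := theta_lower
  refine ⟨max N0 8, fun R hR => ?_⟩
  have h8 : 8 ≤ R := (le_max_right _ _).trans hR
  have h1 := hN0 R ((le_max_left _ _).trans hR)
  have hlog0 : 0 ≤ Real.log R := Real.log_natCast_nonneg _
  have h2 : Chebyshev.theta ((R / 8 : ℕ) : ℝ) ≤ Real.log 4 * (R / 8 : ℕ) :=
    Chebyshev.theta_le_log4_mul_x (by positivity)
  have h3 : ((R / 8 : ℕ) : ℝ) ≤ (R : ℝ) / 8 := Nat.cast_div_le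
  have h4 : Real.log 4 < 1.3864 := by
    rw [show (4 : ℝ) = 2 ^ 2 by norm_num, Real.log_pow]
    have := Real.log_two_lt_d9
    push_cast
    linarith
  have h4' : 0 < Real.log 4 := Real.log_pos (by norm_num)
  have h5 : Chebyshev.theta (R : ℝ) - Chebyshev.theta ((R / 8 : ℕ) : ℝ) ≤
      Real.log R * (dyP R).card := by
    rw [Chebyshev.theta, Chebyshev.theta, Nat.floor_natCast, Nat.floor_natCast]
    have hsub : (Ioc 0 (R / 8)).filter (fun p => p.Prime) ⊆ (Ioc 0 R).filter (fun p => p.Prime) := by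
      apply filter_subset_filter
      apply Ioc_subset_Ioc_right
      exact Nat.div_le_self _ _
    rw [← sum_sdiff hsub, add_sub_cancel_right]
    calc ∑ x ∈ (Ioc 0 R).filter (fun p => p.Prime) \ (Ioc 0 (R / 8)).filter (fun p => p.Prime),
          Real.log x ≤ ∑ x ∈ dyP R, Real.log R := by
            apply le_trans (sum_le_sum (g := fun _ => Real.log R) ?_)
            · apply sum_le_sum_of_subset_of_nonneg
              · intro x hx
                simp only [Finset.mem_sdiff, mem_filter, mem_Ioc, not_and] at hx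
                rw [mem_dyP]
                refine ⟨hx.1.2, hx.1.1.2, ?_⟩
                by_contra hcon
                exact hx.2 ⟨hx.1.1.1, by omega⟩ hx.1.2
              · intros; exact hlog0
            · intro x hx
              simp only [Finset.mem_sdiff, mem_filter, mem_Ioc] at hx
              apply Real.log_le_log
              · exact_mod_cast hx.1.1.1
              · exact_mod_cast hx.1.1.2
      _ = Real.log R * (dyP R).card := by rw [sum_const, nsmul_eq_mul, mul_comm]
  have h6 : (0 : ℝ) ≤ R := by positivity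
  nlinarith

end Pool.Agent.Helper112
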