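import Mathlib
import Pool.Agent.Helper112.BV
import Pool.Agent.Helper112.Sel0

open Finset

namespace Pool.Agent.Helper112

theorem sum_log_primeFactors_le (m : ℕ) (hm : m ≠ 0) :
    ∑ p ∈ m.primeFactors, Real.log p ≤ Real.log m := by
  rw [← Real.log_prod]
  · apply Real.log_le_log
    · apply prod_pos
      intro p hp
      exact_mod_cast (Nat.prime_of_mem_primeFactors hp).pos
    · have := Nat.le_of_dvd (Nat.pos_of_ne_zero hm) (Nat.prod_primeFactors_dvd m)
      rw [← Nat.cast_prod]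
      exact_mod_cast this
  · intro p hp
    exact_mod_cast (Nat.prime_of_mem_primeFactors hp).ne_zero

theorem coprime_vonMangoldt_lower (x m : ℕ) (hm : m ≠ 0) :
    Chebyshev.theta (x : ℝ) - Real.log m ≤
      ∑ n ∈ (Icc 1 x).filter (fun n => n.Coprime m), ArithmeticFunction.vonMangoldt n := by
  rw [Chebyshev.theta, Nat.floor_natCast]
  have h1 : ∑ p ∈ (Ioc 0 x).filter (fun p => p.Prime), Real.log p =
      ∑ p ∈ ((Ioc 0 x).filter (fun p => p.Prime)).filter (fun p => p.Coprime m), Real.log p +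
      ∑ p ∈ ((Ioc 0 x).filter (fun p => p.Prime)).filter (fun p => ¬ p.Coprime m), Real.log p :=
    (sum_filter_add_sum_filter_not _ _ _).symm
  have h2 : ∑ p ∈ ((Ioc 0 x).filter (fun p => p.Prime)).filter (fun p => ¬ p.Coprime m), Real.log p
      ≤ ∑ p ∈ m.primeFactors, Real.log p := by
    apply sum_le_sum_of_subset_of_nonneg
    · intro p hp
      simp only [mem_filter, mem_Ioc] at hp
      rw [Nat.mem_primeFactors]
      exact ⟨hp.1.2, (Nat.Prime.dvd_iff_not_coprime hp.1.2).2 hp.2, hm⟩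
    · intro p _ _
      exact Real.log_natCast_nonneg p
  have h3 : ∑ p ∈ ((Ioc 0 x).filter (fun p => p.Prime)).filter (fun p => p.Coprime m), Real.log p
      ≤ ∑ n ∈ (Icc 1 x).filter (fun n => n.Coprime m), ArithmeticFunction.vonMangoldt n := by
    rw [sum_congr rfl (g := fun n => ArithmeticFunction.vonMangoldt n)]
    · apply sum_le_sum_of_subset_of_nonneg
      · intro p hp
        simp only [mem_filter, mem_Ioc, mem_Icc] at hp ⊢
        exact ⟨⟨hp.1.1.1, hp.1.1.2⟩, hp.2⟩
      · intro p _ _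
        exact ArithmeticFunction.vonMangoldt_nonneg
    · intro p hp
      simp only [mem_filter, mem_Ioc] at hp
      rw [ArithmeticFunction.vonMangoldt_apply_prime hp.1.2]
  have h4 := sum_log_primeFactors_le m hm
  linarith

theorem vonMangoldt_class_upper (x m a : ℕ) (hx : 1 ≤ x) :
    ∑ n ∈ (Icc 1 x).filter (fun n => n ≡ a [MOD m]), ArithmeticFunction.vonMangoldt n ≤
      Real.log x * (((Icc 1 x).filter (fun q => q.Prime ∧ q ≡ a [MOD m])).card : ℝ) +
        2 * Real.sqrt x * Real.log x := by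
  have h1 : ∑ n ∈ (Icc 1 x).filter (fun n => n ≡ a [MOD m]), ArithmeticFunction.vonMangoldt n =
      ∑ n ∈ ((Icc 1 x).filter (fun n => n ≡ a [MOD m])).filter (fun n => n.Prime),
        ArithmeticFunction.vonMangoldt n +
      ∑ n ∈ ((Icc 1 x).filter (fun n => n ≡ a [MOD m])).filter (fun n => ¬ n.Prime),
        ArithmeticFunction.vonMangoldt n := (sum_filter_add_sum_filter_not _ _ _).symm
  have h2 : ∑ n ∈ ((Icc 1 x).filter (fun n => n ≡ a [MOD m])).filter (fun n => ¬ n.Prime),
        ArithmeticFunction.vonMangoldt n ≤ 2 * Real.sqrt x * Real.log x := by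
    have h3 := Chebyshev.psi_sub_theta_le (x := x) (by exact_mod_cast hx)
    rw [Chebyshev.psi_sub_theta_eq_sum_not_prime, Nat.floor_natCast] at h3
    refine le_trans ?_ h3
    apply sum_le_sum_of_subset_of_nonneg
    · intro p hp
      simp only [mem_filter, mem_Icc, mem_Ioc] at hp ⊢
      exact ⟨⟨hp.1.1.1, hp.1.1.2⟩, hp.2⟩
    · intro p _ _
      exact ArithmeticFunction.vonMangoldt_nonneg
  have h3 : ∑ n ∈ ((Icc 1 x).filter (fun n => n ≡ a [MOD m])).filter (fun n => n.Prime),
        ArithmeticFunction.vonMangoldt n ≤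
        Real.log x * (((Icc 1 x).filter (fun q => q.Prime ∧ q ≡ a [MOD m])).card : ℝ) := by
    have h4 : ((Icc 1 x).filter (fun n => n ≡ a [MOD m])).filter (fun n => n.Prime) =
        (Icc 1 x).filter (fun q => q.Prime ∧ q ≡ a [MOD m]) := by
      ext q
      simp only [mem_filter, mem_Icc]
      tauto
    rw [h4, mul_comm, ← nsmul_eq_mul]
    apply sum_le_card_nsmul
    intro q hq
    simp only [mem_filter, mem_Icc] at hq
    rw [ArithmeticFunction.vonMangoldt_apply_prime hq.2.1]
    apply Real.log_le_log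
    · exact_mod_cast hq.1.1
    · exact_mod_cast hq.1.2
  linarith

/-- prime counting consequence of `BV` -/
theorem BV_primes (L : ℕ) (hL : 4 ≤ L) : ∃ K0 : ℕ, ∀ K : ℕ, K0 ≤ K →
    ∀ {ι : Type} (s : Finset ι) (md a : ι → ℕ), Set.InjOn md s →
    (∀ i ∈ s, Squarefree (md i) ∧ md i * K ^ 2 ≤ K ^ (2 * L) ∧ md i ≤ 2 * Nat.totient (md i) ∧
      (∀ f, f ∣ md i → f ≠ 1 → K ^ 2 ≤ f) ∧ (a i).Coprime (md i)) →
    ∑ i ∈ s, ((K : ℝ) ^ (4 * L) / (2 * md i)) - 2 * (K : ℝ) ^ (4 * L) / Real.sqrt K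
     ≤ Real.log ((K : ℝ) ^ (4 * L)) *
      ∑ i ∈ s, (((Icc 1 (K ^ (4 * L))).filter
        (fun q => q.Prime ∧ q ≡ a i [MOD md i])).card : ℝ) := by
  obtain ⟨K1, hK1⟩ := BV L hL
  obtain ⟨N0, hN0⟩ := theta_lower
  -- need 2 * K^(2L) * log(K^(4L)) * K^(2L-2) ≤ K^(4L)/√K
  have hlogs : ∃ K2 : ℕ, ∀ K : ℕ, K2 ≤ K → 2 * Real.log ((K : ℝ) ^ (4 * L)) * Real.sqrt K ≤ (K : ℝ) ^ 2 := by
    have h1 : ∀ᶠ x : ℝ in Filter.atTop, Real.log x ≤ (1 / (8 * L)) * x ^ (1 : ℝ) := by
      have hc : (0 : ℝ) < 1 / (8 * L) := by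
        have : (0 : ℝ) < L := by exact_mod_cast (by omega : 0 < L)
        positivity
      have := (isLittleO_log_rpow_atTop (r := 1) (by norm_num)).bound hc
      filter_upwards [this, Filter.eventually_ge_atTop 1] with x hx hx1
      rw [Real.norm_of_nonneg (Real.log_nonneg hx1),
        Real.norm_of_nonneg (Real.rpow_nonneg (by linarith) _)] at hx
      exact hx
    obtain ⟨X, hX⟩ := Filter.eventually_atTop.1 h1
    refine ⟨max (Nat.ceil X) 1, fun K hK => ?_⟩
    have hK1 : (1 : ℝ) ≤ K := by exact_mod_cast (le_max_right _ _).trans hK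
    have hKX : X ≤ K := (Nat.le_ceil X).trans (by exact_mod_cast (le_max_left _ _).trans hK)
    have hlog := hX K hKX
    rw [Real.rpow_one] at hlog
    have hLpos : (0 : ℝ) < L := by exact_mod_cast (by omega : 0 < L)
    rw [Real.log_pow]
    have hsq : Real.sqrt K ≤ K := by
      rw [Real.sqrt_le_left (by linarith)]
      nlinarith
    have h5 : 2 * ((4 * L : ℕ) * Real.log K) ≤ K := by
      push_cast
      have : 8 * (L : ℝ) * Real.log K ≤ 8 * L * (1 / (8 * L) * K) := by
        gcongr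
      have h6 : 8 * (L : ℝ) * (1 / (8 * L) * K) = K := by field_simp
      nlinarith
    have h7 : 0 ≤ Real.sqrt K := Real.sqrt_nonneg _
    nlinarith
  obtain ⟨K2, hK2⟩ := hlogs
  refine ⟨max (max K1 K2) (max N0 2), fun K hK ι s md a hinj hs => ?_⟩
  have hKK1 : K1 ≤ K := (le_max_left _ _).trans ((le_max_left _ _).trans hK)
  have hKK2 : K2 ≤ K := (le_max_right _ _).trans ((le_max_left _ _).trans hK)
  have hKN0 : N0 ≤ K := (le_max_left _ _).trans ((le_max_right _ _).trans hK)
  have hK2' : 2 ≤ K := (le_max_right _ _).trans ((le_max_right _ _).trans hK)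
  have hKpos : (0 : ℝ) < K := by exact_mod_cast (by omega : 0 < K)
  set x := K ^ (4 * L) with hx
  have hx1 : 1 ≤ x := Nat.one_le_pow _ _ (by omega)
  have hxK : K ≤ x := by
    calc K = K ^ 1 := (pow_one K).symm
      _ ≤ K ^ (4 * L) := Nat.pow_le_pow_right (by omega) (by omega)
  have hxc : (x : ℝ) = (K : ℝ) ^ (4 * L) := by rw [hx]; push_cast; rfl
  rw [← hxc]
  have hth := hN0 x (hKN0.trans hxK)
  have hsqrtx : Real.sqrt x = (K : ℝ) ^ (2 * L) := by
    rw [hxc, show 4 * L = 2 * L * 2 by ring, pow_mul, Real.sqrt_sq (by positivity)]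
  have hlogx : 0 ≤ Real.log x := Real.log_natCast_nonneg _
  -- the BV sum
  have hbv : ∑ i ∈ s, |Dl x (md i) (a i) (fun n => ArithmeticFunction.vonMangoldt n)|
      ≤ (x : ℝ) / Real.sqrt K := by
    classical
    by_cases hne : s.Nonempty
    · have : Nonempty ι := ⟨hne.choose⟩
      have := hK1 K hKK1 (s.image md) (fun m => a (Function.invFunOn md s m)) (by
        intro m hm
        rw [mem_image] at hm
        obtain ⟨i, hi, rfl⟩ := hm
        have : Function.invFunOn md s (md i) = i := hinj.leftInvOn_invFunOn hi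
        simp only [this]
        exact hs i hi)
      rw [sum_image hinj] at this
      rw [hxc]
      refine le_trans (le_of_eq ?_) this
      apply sum_congr rfl
      intro i hi
      have h2 : Function.invFunOn md s (md i) = i := hinj.leftInvOn_invFunOn hi
      simp only [h2, hx]
    · rw [not_nonempty_iff_eq_empty] at hne
      rw [hne, sum_empty]
      positivity
  -- per modulus lower bound
  have hper : ∀ i ∈ s, (x : ℝ) / (2 * md i) - |Dl x (md i) (a i) (fun n => ArithmeticFunction.vonMangoldt n)|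
      - 2 * Real.sqrt x * Real.log x ≤
      Real.log x * (((Icc 1 x).filter (fun q => q.Prime ∧ q ≡ a i [MOD md i])).card : ℝ) := by
    intro i hi
    obtain ⟨hsf, hle, htot, _, _⟩ := hs i hi
    have hm0 : md i ≠ 0 := hsf.ne_zero
    have hmpos : (0 : ℝ) < md i := by exact_mod_cast Nat.pos_of_ne_zero hm0
    have htpos : 0 < Nat.totient (md i) := Nat.totient_pos.2 (Nat.pos_of_ne_zero hm0)
    have hmx : md i ≤ x := by
      have : K ^ (2 * L) ≤ K ^ (4 * L) := Nat.pow_le_pow_right (by omega) (by omega)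
      have h1 : md i ≤ md i * K ^ 2 := Nat.le_mul_of_pos_right _ (by positivity)
      omega
    have hlogm : Real.log (md i) ≤ Real.log x := by
      apply Real.log_le_log hmpos
      exact_mod_cast hmx
    have h1 := coprime_vonMangoldt_lower x (md i) hm0
    have h2 := vonMangoldt_class_upper x (md i) (a i) hx1
    have h3 := neg_abs_le (Dl x (md i) (a i) (fun n => ArithmeticFunction.vonMangoldt n))
    have h4 : (x : ℝ) / (2 * md i) ≤ (1 / (Nat.totient (md i) : ℝ)) *
        ∑ n ∈ (Icc 1 x).filter (fun n => n.Coprime (md i)), ArithmeticFunction.vonMangoldt n := by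
      have h5 : (3 / 5 : ℝ) * x ≤ ∑ n ∈ (Icc 1 x).filter (fun n => n.Coprime (md i)),
          ArithmeticFunction.vonMangoldt n := by linarith
      have h6 : (1 : ℝ) / md i ≤ 1 / (Nat.totient (md i) : ℝ) := by
        apply one_div_le_one_div_of_le
        · exact_mod_cast htpos
        · exact_mod_cast Nat.totient_le _
      have hx0 : (0 : ℝ) ≤ x := by positivity
      calc (x : ℝ) / (2 * md i) = (1 / md i) * ((1 / 2) * x) := by field_simp
        _ ≤ (1 / (Nat.totient (md i) : ℝ)) * ((3 / 5) * x) := by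
            apply mul_le_mul h6 (by linarith) (by positivity) (by positivity)
        _ ≤ _ := by gcongr
    unfold Dl at h3 ⊢
    linarith
  have hsum := sum_le_sum hper
  rw [← mul_sum] at hsum
  rw [sum_sub_distrib, sum_sub_distrib, sum_const, nsmul_eq_mul] at hsum
  have hcard : (s.card : ℝ) * K ^ 2 ≤ (K : ℝ) ^ (2 * L) := by
    have h1 : (s.image md).card ≤ K ^ (2 * L) / K ^ 2 := by
      have : s.image md ⊆ Icc 1 (K ^ (2 * L) / K ^ 2) := by
        intro m hm
        rw [mem_image] at hm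
        obtain ⟨i, hi, rfl⟩ := hm
        obtain ⟨hsf, hle, _⟩ := hs i hi
        rw [mem_Icc]
        refine ⟨Nat.pos_of_ne_zero hsf.ne_zero, ?_⟩
        rw [Nat.le_div_iff_mul_le (by positivity)]
        exact hle
      calc (s.image md).card ≤ (Icc 1 (K ^ (2 * L) / K ^ 2)).card := card_le_card this
        _ = _ := by simp
    rw [card_image_of_injOn hinj] at h1
    have h2 := (Nat.le_div_iff_mul_le (by positivity)).1 h1
    exact_mod_cast h2
  have hfin : (s.card : ℝ) * (2 * Real.sqrt x * Real.log x) ≤ (x : ℝ) / Real.sqrt K := by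
    rw [hsqrtx]
    have h1 := hK2 K hKK2
    rw [← hxc] at h1
    have hsK : 0 < Real.sqrt K := Real.sqrt_pos.2 hKpos
    rw [le_div_iff₀ hsK]
    have h3 : (x : ℝ) = (K : ℝ) ^ (2 * L) * (K : ℝ) ^ (2 * L) := by
      rw [hxc, ← pow_add]; congr 1; ring
    calc (s.card : ℝ) * (2 * (K : ℝ) ^ (2 * L) * Real.log x) * Real.sqrt K
        = (s.card : ℝ) * (K : ℝ) ^ (2 * L) * (2 * Real.log x * Real.sqrt K) := by ring
      _ ≤ (s.card : ℝ) * (K : ℝ) ^ (2 * L) * (K : ℝ) ^ 2 := by gcongr
      _ = ((s.card : ℝ) * (K : ℝ) ^ 2) * (K : ℝ) ^ (2 * L) := by ring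
      _ ≤ (K : ℝ) ^ (2 * L) * (K : ℝ) ^ (2 * L) := by gcongr
      _ = (x : ℝ) := h3.symm
  have : 2 * (x : ℝ) / Real.sqrt K = (x : ℝ) / Real.sqrt K + (x : ℝ) / Real.sqrt K := by ring
  rw [this]
  linarith

end Pool.Agent.Helper112
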