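import Mathlib
import Pool.Agent.Helper112.Sel1
import Pool.Agent.Helper112.Asym

open Finset

namespace Pool.Agent.Helper112

/-- candidate server primes -/
def PS (K : ℕ) : Finset ℕ :=
  (Icc 1 (K ^ 16)).filter (fun p => p.Prime ∧ K ^ 16 < K * p ∧ ∃ s ∈ dyP (K ^ 5), s ∣ p - 1)

theorem mem_PS {K p : ℕ} : p ∈ PS K ↔ p.Prime ∧ p ≤ K ^ 16 ∧ K ^ 16 < K * p ∧
    ∃ s ∈ dyP (K ^ 5), s ∣ p - 1 := by
  simp only [PS, mem_filter, mem_Icc]
  constructor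
  · rintro ⟨⟨h1, h2⟩, h3, h4⟩; exact ⟨h3, h2, h4⟩
  · rintro ⟨h1, h2, h3⟩; exact ⟨⟨h1.one_lt.le, h2⟩, h1, h3⟩

theorem few_divisors (K q : ℕ) (hK : 8 ≤ K) (hq : 2 ≤ q) (hqK : q ≤ K ^ 16) :
    ((dyP (K ^ 5)).filter (fun s => s ∣ q - 1)).card ≤ 3 := by
  by_contra hcon
  push Not at hcon
  set S := (dyP (K ^ 5)).filter (fun s => s ∣ q - 1) with hS
  have h1 : ∀ s ∈ S, K ^ 4 ≤ s := by
    intro s hs
    rw [hS, mem_filter, mem_dyP] at hs
    have h2 : 8 * K ^ 4 ≤ K ^ 5 := by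
      calc 8 * K ^ 4 ≤ K * K ^ 4 := Nat.mul_le_mul_right _ hK
        _ = K ^ 5 := by ring
    omega
  have h2 : ∏ s ∈ S, s ∣ q - 1 := by
    apply Finset.prod_primes_dvd
    · intro s hs
      rw [hS, mem_filter, mem_dyP] at hs
      exact hs.1.1.prime
    · intro s hs
      rw [hS, mem_filter] at hs
      exact hs.2
  have h3 : ∏ s ∈ S, s ≤ q - 1 := Nat.le_of_dvd (by omega) h2
  have h4 : (K ^ 4) ^ S.card ≤ ∏ s ∈ S, s := by
    apply Finset.pow_card_le_prod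
    exact h1
  have h5 : (K ^ 4) ^ 4 ≤ (K ^ 4) ^ S.card := Nat.pow_le_pow_right (by positivity) hcon
  have h6 : (K ^ 4) ^ 4 = K ^ 16 := by ring
  omega

theorem PS_card : ∃ K0 : ℕ, ∀ K : ℕ, K0 ≤ K →
    (K : ℝ) ^ 16 ≤ (K : ℝ) ^ (1 / 10 : ℝ) * (PS K).card := by
  obtain ⟨K1, hK1⟩ := BV_primes 4 le_rfl
  obtain ⟨N1, hN1⟩ := dyP_card
  obtain ⟨K2, hK2⟩ := log_pow_le (120 : ℝ) 1 (1 / 2) (by norm_num)
  obtain ⟨K3, hK3⟩ := log_pow_le (6000 : ℝ) 2 (1 / 10) (by norm_num)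
  refine ⟨max (max K1 N1) (max (max K2 K3) 8), fun K hK => ?_⟩
  have hKK1 : K1 ≤ K := (le_max_left _ _).trans ((le_max_left _ _).trans hK)
  have hKN1 : N1 ≤ K := (le_max_right _ _).trans ((le_max_left _ _).trans hK)
  have hKK2 : K2 ≤ K := (le_max_left _ _).trans ((le_max_left _ _).trans ((le_max_right _ _).trans hK))
  have hKK3 : K3 ≤ K := (le_max_right _ _).trans ((le_max_left _ _).trans ((le_max_right _ _).trans hK))
  have hK8 : 8 ≤ K := (le_max_right _ _).trans ((le_max_right _ _).trans hK)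
  have hKr : (8 : ℝ) ≤ K := by exact_mod_cast hK8
  have hlogK : 1 ≤ Real.log K := by
    rw [Real.le_log_iff_exp_le (by linarith)]
    have := Real.exp_one_lt_d9
    linarith
  have hbv := hK1 K hKK1 (dyP (K ^ 5)) (fun s => s) (fun _ => 1) (by
    intro a _ b _ h; exact h) (by
    intro s hs
    rw [mem_dyP] at hs
    obtain ⟨hsp, hs1, hs2⟩ := hs
    have h2s := hsp.two_le
    refine ⟨hsp.squarefree, ?_, ?_, ?_, Nat.coprime_one_left s⟩
    · calc s * K ^ 2 ≤ K ^ 5 * K ^ 2 := Nat.mul_le_mul_right _ hs1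
        _ = K ^ 7 := by ring
        _ ≤ K ^ (2 * 4) := Nat.pow_le_pow_right (by omega) (by norm_num)
    · rw [Nat.totient_prime hsp]; omega
    · intro f hf hf1
      rcases (Nat.dvd_prime hsp).1 hf with h | h
      · exact absurd h hf1
      · rw [h]
        have h2 : 8 * K ^ 2 ≤ K ^ 5 := by
          calc 8 * K ^ 2 ≤ K * K ^ 2 := Nat.mul_le_mul_right _ hK8
            _ = K ^ 3 := by ring
            _ ≤ K ^ 5 := Nat.pow_le_pow_right (by omega) (by norm_num)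
        omega)
  have hcard := hN1 (K ^ 5) (hKN1.trans (Nat.le_self_pow (by norm_num) K))
  push_cast at hcard
  rw [Real.log_pow] at hcard
  have hK0 : (0 : ℝ) < K := by linarith
  -- lower bound of the sum
  have h1 : (K : ℝ) ^ 16 / (30 * Real.log K) ≤ ∑ s ∈ dyP (K ^ 5), ((K : ℝ) ^ (4 * 4) / (2 * (s : ℝ))) := by
    calc (K : ℝ) ^ 16 / (30 * Real.log K) = ((K : ℝ) ^ 5 / 3 / (5 * Real.log K)) * ((K : ℝ) ^ 16 / (2 * (K : ℝ) ^ 5)) := by
          field_simp; ring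
      _ ≤ ((dyP (K ^ 5)).card : ℝ) * ((K : ℝ) ^ 16 / (2 * (K : ℝ) ^ 5)) := by
          gcongr
          rw [div_le_iff₀ (by positivity)]
          push_cast at hcard
          linarith
      _ = ∑ s ∈ dyP (K ^ 5), ((K : ℝ) ^ 16 / (2 * (K : ℝ) ^ 5)) := by
          rw [sum_const, nsmul_eq_mul]
      _ ≤ _ := by
          apply sum_le_sum
          intro s hs
          rw [mem_dyP] at hs
          have : (s : ℝ) ≤ (K : ℝ) ^ 5 := by exact_mod_cast hs.2.1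
          have hs0 : (0 : ℝ) < s := by exact_mod_cast hs.1.pos
          gcongr
  have h2 : 2 * (K : ℝ) ^ (4 * 4) / Real.sqrt K ≤ (K : ℝ) ^ 16 / (60 * Real.log K) := by
    have h3 := hK2 K hKK2
    rw [pow_one, ← Real.sqrt_eq_rpow] at h3
    have hs : 0 < Real.sqrt K := Real.sqrt_pos.2 hK0
    rw [div_le_div_iff₀ hs (by positivity)]
    have h4 : (0 : ℝ) < (K : ℝ) ^ 16 := by positivity
    calc 2 * (K : ℝ) ^ (4 * 4) * (60 * Real.log K) = (K : ℝ) ^ 16 * (120 * Real.log K) := by norm_num; ring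
      _ ≤ (K : ℝ) ^ 16 * Real.sqrt K := by gcongr
  -- double counting
  set G := (Icc 1 (K ^ 16)).filter (fun q => q.Prime ∧ ∃ s ∈ dyP (K ^ 5), s ∣ q - 1) with hG
  have h3 : ∑ s ∈ dyP (K ^ 5), (((Icc 1 (K ^ (4 * 4))).filter
        (fun q => q.Prime ∧ q ≡ 1 [MOD s])).card : ℝ) ≤ 3 * (G.card : ℝ) := by
    have h4 : ∑ s ∈ dyP (K ^ 5), ((Icc 1 (K ^ (4 * 4))).filter
        (fun q => q.Prime ∧ q ≡ 1 [MOD s])).card =
        ∑ q ∈ G, ((dyP (K ^ 5)).filter (fun s => s ∣ q - 1)).card := by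
      have h5 : ∀ s ∈ dyP (K ^ 5), ((Icc 1 (K ^ (4 * 4))).filter
        (fun q => q.Prime ∧ q ≡ 1 [MOD s])).card = (G.filter (fun q => s ∣ q - 1)).card := by
        intro s hs
        congr 1
        ext q
        simp only [hG, mem_filter, mem_Icc]
        constructor
        · rintro ⟨⟨h1, h2⟩, h3, h4⟩
          have h5 : s ∣ q - 1 := (Nat.modEq_iff_dvd' h1).1 h4.symm
          exact ⟨⟨⟨h1, h2⟩, h3, s, hs, h5⟩, h5⟩
        · rintro ⟨⟨⟨h1, h2⟩, h3, _⟩, h5⟩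
          exact ⟨⟨h1, h2⟩, h3, ((Nat.modEq_iff_dvd' h1).2 h5).symm⟩
      rw [sum_congr rfl h5]
      simp only [card_filter]
      rw [sum_comm]
    have h6 : ∑ q ∈ G, ((dyP (K ^ 5)).filter (fun s => s ∣ q - 1)).card ≤ ∑ q ∈ G, 3 := by
      apply sum_le_sum
      intro q hq
      rw [hG, mem_filter, mem_Icc] at hq
      exact few_divisors K q hK8 hq.2.1.two_le hq.1.2
    rw [sum_const, smul_eq_mul] at h6
    have h7 := h4.le.trans h6
    have h8 : ((∑ s ∈ dyP (K ^ 5), ((Icc 1 (K ^ (4 * 4))).filter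
        (fun q => q.Prime ∧ q ≡ 1 [MOD s])).card : ℕ) : ℝ) ≤ ((G.card * 3 : ℕ) : ℝ) := by
      exact_mod_cast h7
    push_cast at h8
    linarith
  have h4 : (G.card : ℝ) ≤ (PS K).card + (K : ℝ) ^ 15 := by
    have h5 : G ⊆ PS K ∪ Icc 1 (K ^ 15) := by
      intro q hq
      rw [hG, mem_filter, mem_Icc] at hq
      rw [mem_union, mem_PS, mem_Icc]
      by_cases h : K ^ 16 < K * q
      · left; exact ⟨hq.2.1, hq.1.2, h, hq.2.2⟩
      · right
        refine ⟨hq.1.1, ?_⟩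
        have h6 : K * q ≤ K * K ^ 15 := by
          calc K * q ≤ K ^ 16 := by omega
            _ = K * K ^ 15 := by ring
        exact Nat.le_of_mul_le_mul_left h6 (by omega)
    have h6 := (card_le_card h5).trans (card_union_le _ _)
    rw [Nat.card_Icc, Nat.add_sub_cancel] at h6
    exact_mod_cast h6
  have h5 : (K : ℝ) ^ 16 / (60 * Real.log K) ≤ Real.log ((K : ℝ) ^ (4 * 4)) * (3 * ((PS K).card + (K : ℝ) ^ 15)) := by
    have hl : 0 ≤ Real.log ((K : ℝ) ^ (4 * 4)) := Real.log_nonneg (one_le_pow₀ (by linarith))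
    calc (K : ℝ) ^ 16 / (60 * Real.log K) = (K : ℝ) ^ 16 / (30 * Real.log K) - (K : ℝ) ^ 16 / (60 * Real.log K) := by
          field_simp; ring
      _ ≤ _ := by linarith
      _ ≤ _ := hbv
      _ ≤ Real.log ((K : ℝ) ^ (4 * 4)) * (3 * (G.card : ℝ)) := by gcongr
      _ ≤ _ := by gcongr
  rw [Real.log_pow] at h5
  have h6 : (K : ℝ) ^ 16 ≤ 2880 * Real.log K ^ 2 * ((PS K).card + (K : ℝ) ^ 15) := by
    rw [div_le_iff₀ (by positivity)] at h5
    push_cast at h5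
    nlinarith
  have h7 := hK3 K hKK3
  have hκ : (K : ℝ) ^ (1 / 10 : ℝ) ≤ (K : ℝ) := by
    calc (K : ℝ) ^ (1 / 10 : ℝ) ≤ (K : ℝ) ^ (1 : ℝ) :=
          Real.rpow_le_rpow_of_exponent_le (by linarith) (by norm_num)
      _ = K := Real.rpow_one _
  have h8 : 2880 * Real.log K ^ 2 ≤ (K : ℝ) ^ (1 / 10 : ℝ) / 2 := by nlinarith [sq_nonneg (Real.log K)]
  have hpc : (0 : ℝ) ≤ (PS K).card := by positivity
  have h15 : (0 : ℝ) < (K : ℝ) ^ 15 := by positivity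
  have h9 : (K : ℝ) ^ 16 ≤ (K : ℝ) ^ (1 / 10 : ℝ) / 2 * ((PS K).card + (K : ℝ) ^ 15) := by
    calc (K : ℝ) ^ 16 ≤ 2880 * Real.log K ^ 2 * ((PS K).card + (K : ℝ) ^ 15) := h6
      _ ≤ _ := by gcongr
  have h10 : (K : ℝ) ^ (1 / 10 : ℝ) / 2 * (K : ℝ) ^ 15 ≤ (K : ℝ) ^ 16 / 2 := by
    calc (K : ℝ) ^ (1 / 10 : ℝ) / 2 * (K : ℝ) ^ 15 ≤ (K : ℝ) / 2 * (K : ℝ) ^ 15 := by gcongr
      _ = (K : ℝ) ^ 16 / 2 := by ring
  nlinarith

end Pool.Agent.Helper112
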