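import Mathlib
import Pool.Agent.Helper112.Sel0
import Pool.Agent.Helper112.Asym

open Finset

namespace Pool.Agent.Helper112

/-- products of m distinct primes in (K^4/8, K^4] -/
def DS (K m : ℕ) : Finset ℕ := (powersetCard m (dyP (K ^ 4))).image (fun S => ∏ s ∈ S, s)

theorem DS_injOn (K m : ℕ) : Set.InjOn (fun S : Finset ℕ => ∏ s ∈ S, s)
    (powersetCard m (dyP (K ^ 4)) : Finset (Finset ℕ)) := by
  intro S hS T hT h
  rw [mem_coe, mem_powersetCard] at hS hT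
  have h1 : (∏ s ∈ S, s).primeFactors = S :=
    Nat.primeFactors_prod (fun p hp => (mem_dyP.1 (hS.1 hp)).1)
  have h2 : (∏ s ∈ T, s).primeFactors = T :=
    Nat.primeFactors_prod (fun p hp => (mem_dyP.1 (hT.1 hp)).1)
  simp only at h
  rw [← h1, h, h2]

theorem mem_DS {K m d : ℕ} (hd : d ∈ DS K m) :
    Squarefree d ∧ d ≤ K ^ (4 * m) ∧ K ^ (4 * m) ≤ 8 ^ m * d ∧ d.primeFactors ⊆ dyP (K ^ 4) ∧
      d.primeFactors.card = m := by
  rw [DS, mem_image] at hd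
  obtain ⟨S, hS, rfl⟩ := hd
  rw [mem_powersetCard] at hS
  have hp : ∀ p ∈ S, p.Prime := fun p hp => (mem_dyP.1 (hS.1 hp)).1
  have h1 : (∏ s ∈ S, s).primeFactors = S := Nat.primeFactors_prod hp
  refine ⟨?_, ?_, ?_, ?_, ?_⟩
  · apply Finset.squarefree_prod_of_pairwise_isCoprime
    · intro a ha b hb hab
      exact Nat.coprime_iff_isRelPrime.1 ((Nat.coprime_primes (hp a ha) (hp b hb)).2 hab)
    · intro s hs; exact (hp s hs).squarefree
  · calc ∏ s ∈ S, s ≤ ∏ s ∈ S, K ^ 4 := prod_le_prod' (fun s hs => (mem_dyP.1 (hS.1 hs)).2.1)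
      _ = K ^ (4 * m) := by rw [prod_const, hS.2, ← pow_mul]
  · calc K ^ (4 * m) = ∏ s ∈ S, K ^ 4 := by rw [prod_const, hS.2, ← pow_mul]
      _ ≤ ∏ s ∈ S, (8 * s) := prod_le_prod' (fun s hs => (mem_dyP.1 (hS.1 hs)).2.2.le)
      _ = 8 ^ m * ∏ s ∈ S, s := by rw [prod_mul_distrib, prod_const, hS.2]
  · rw [h1]; exact hS.1
  · rw [h1]; exact hS.2

theorem DS_card (m : ℕ) : ∃ K0 : ℕ, ∀ K : ℕ, K0 ≤ K →
    (K : ℝ) ^ (4 * m) ≤ (K : ℝ) ^ (1 / 10 : ℝ) * (DS K m).card := by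
  obtain ⟨N1, hN1⟩ := dyP_card
  obtain ⟨K2, hK2⟩ := log_pow_le (24 * (m + 1)) 1 1 (by norm_num)
  obtain ⟨K3, hK3⟩ := log_pow_le (24 ^ m * (m.factorial : ℝ)) m (1 / 10) (by norm_num)
  refine ⟨max (max K2 N1) (max K3 8), fun K hK => ?_⟩
  have hKK2 : K2 ≤ K := (le_max_left _ _).trans ((le_max_left _ _).trans hK)
  have hKN1 : N1 ≤ K := (le_max_right _ _).trans ((le_max_left _ _).trans hK)
  have hKK3 : K3 ≤ K := (le_max_left _ _).trans ((le_max_right _ _).trans hK)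
  have hK8 : 8 ≤ K := (le_max_right _ _).trans ((le_max_right _ _).trans hK)
  have hKr : (8 : ℝ) ≤ K := by exact_mod_cast hK8
  have hK0 : (0 : ℝ) < K := by linarith
  have hlogK : 1 ≤ Real.log K := by
    rw [Real.le_log_iff_exp_le (by linarith)]
    have := Real.exp_one_lt_d9
    linarith
  have hcard := hN1 (K ^ 4) (hKN1.trans (Nat.le_self_pow (by norm_num) K))
  push_cast at hcard
  rw [Real.log_pow] at hcard
  push_cast at hcard
  set n := (dyP (K ^ 4)).card with hn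
  have h1 : (DS K m).card = n.choose m := by
    rw [DS, card_image_of_injOn (DS_injOn K m), card_powersetCard]
  have h2 := hK2 K hKK2
  rw [pow_one, Real.rpow_one] at h2
  have hK4 : (K : ℝ) ≤ (K : ℝ) ^ 4 := le_self_pow₀ (by linarith) (by norm_num)
  -- n ≥ 2 (m+1)... 
  have h3 : (K : ℝ) ^ 4 / (24 * Real.log K) ≤ (n + 1 : ℝ) - m := by
    have h4 : (K : ℝ) ^ 4 / (12 * Real.log K) ≤ n := by
      rw [div_le_iff₀ (by positivity)]
      linarith
    have h5 : (m : ℝ) + 1 ≤ (K : ℝ) ^ 4 / (24 * Real.log K) := by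
      rw [le_div_iff₀ (by positivity)]
      linarith
    have h6 : (K : ℝ) ^ 4 / (12 * Real.log K) = (K : ℝ) ^ 4 / (24 * Real.log K) + (K : ℝ) ^ 4 / (24 * Real.log K) := by
      field_simp; ring
    linarith
  have h4 : (((n + 1 - m : ℕ) : ℝ)) ^ m ≤ (m.factorial : ℝ) * n.choose m := by
    exact_mod_cast Nat.pow_sub_le_descFactorial n m |>.trans (by rw [Nat.descFactorial_eq_factorial_mul_choose])
  have h5 : (n + 1 : ℝ) - m ≤ ((n + 1 - m : ℕ) : ℝ) := by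
    have : ((n + 1 : ℕ) : ℤ) - (m : ℤ) ≤ ((n + 1 - m : ℕ) : ℤ) := by omega
    have h' : (((n + 1 : ℕ) : ℤ) : ℝ) - ((m : ℤ) : ℝ) ≤ (((n + 1 - m : ℕ) : ℤ) : ℝ) := by exact_mod_cast this
    simpa using h'
  have h6 : ((K : ℝ) ^ 4 / (24 * Real.log K)) ^ m ≤ (m.factorial : ℝ) * n.choose m := by
    refine le_trans ?_ h4
    exact pow_le_pow_left₀ (by positivity) (h3.trans h5) m
  rw [div_pow, ← pow_mul, div_le_iff₀ (by positivity), mul_pow] at h6
  rw [h1]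
  calc (K : ℝ) ^ (4 * m) ≤ (m.factorial : ℝ) * n.choose m * (24 ^ m * Real.log K ^ m) := h6
    _ = (24 ^ m * (m.factorial : ℝ) * Real.log K ^ m) * n.choose m := by ring
    _ ≤ (K : ℝ) ^ (1 / 10 : ℝ) * n.choose m := by
        gcongr
        exact hK3 K hKK3

end Pool.Agent.Helper112
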