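import Mathlib
import Pool.Agent.Helper112.Sel2
import Pool.Agent.Helper112.Sel3

open Finset

namespace Pool.Agent.Helper112

theorem le_two_totient (n k c : ℕ) (hn : n ≠ 0) (hk : n.primeFactors.card ≤ k)
    (hc : ∀ l ∈ n.primeFactors, c ≤ l) (hkc : 2 * k ≤ c) (hc1 : 1 ≤ c) : n ≤ 2 * Nat.totient n := by
  have h1 := Nat.totient_eq_mul_prod_factors n
  have hcpos : (0 : ℚ) < c := by exact_mod_cast hc1
  have hinv : (c : ℚ)⁻¹ ≤ 1 := by
    apply inv_le_one_of_one_le₀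
    exact_mod_cast hc1
  have h2 : (1 - (c : ℚ)⁻¹) ^ k ≤ ∏ p ∈ n.primeFactors, (1 - (p : ℚ)⁻¹) := by
    calc (1 - (c : ℚ)⁻¹) ^ k ≤ (1 - (c : ℚ)⁻¹) ^ n.primeFactors.card := by
          apply pow_le_pow_of_le_one _ _ hk
          · linarith
          · have : (0 : ℚ) < (c : ℚ)⁻¹ := by positivity
            linarith
      _ = ∏ p ∈ n.primeFactors, (1 - (c : ℚ)⁻¹) := by rw [prod_const]
      _ ≤ _ := by
          apply prod_le_prod
          · intro i _; linarith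
          · intro i hi
            have h3 : (c : ℚ) ≤ i := by exact_mod_cast hc i hi
            have h4 : (i : ℚ)⁻¹ ≤ (c : ℚ)⁻¹ := by
              apply inv_anti₀ hcpos h3
            linarith
  have h3 : 1 + (k : ℚ) * (-(c : ℚ)⁻¹) ≤ (1 + (-(c : ℚ)⁻¹)) ^ k := by
    apply one_add_mul_le_pow
    linarith
  have h4 : (k : ℚ) * (c : ℚ)⁻¹ ≤ 1 / 2 := by
    rw [← div_eq_mul_inv, div_le_iff₀ hcpos]
    have : (2 : ℚ) * k ≤ c := by exact_mod_cast hkc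
    linarith
  have h5 : (1 / 2 : ℚ) ≤ ∏ p ∈ n.primeFactors, (1 - (p : ℚ)⁻¹) := by
    refine le_trans ?_ h2
    have h6 : (1 - (c : ℚ)⁻¹) = (1 + (-(c : ℚ)⁻¹)) := by ring
    rw [h6]
    linarith
  have hn0 : (0 : ℚ) ≤ n := by positivity
  have h6 : (n : ℚ) ≤ 2 * (Nat.totient n : ℚ) := by
    rw [h1]
    nlinarith
  exact_mod_cast h6

theorem dyP_ge {K s : ℕ} (hK : 8 ≤ K) (hs : s ∈ dyP (K ^ 4)) : K ^ 3 < s := by
  rw [mem_dyP] at hs
  have h2 : 8 * K ^ 3 ≤ K ^ 4 := by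
    calc 8 * K ^ 3 ≤ K * K ^ 3 := Nat.mul_le_mul_right _ hK
      _ = K ^ 4 := by ring
  omega

theorem PS_gt {K p : ℕ} (hK : 1 ≤ K) (hp : p ∈ PS K) : K ^ 15 < p := by
  rw [mem_PS] at hp
  have h1 : K * K ^ 15 < K * p := by
    calc K * K ^ 15 = K ^ 16 := by ring
      _ < K * p := hp.2.2.1
  exact Nat.lt_of_mul_lt_mul_left h1

theorem not_dvd_of_DS {K m d p : ℕ} (hK : 8 ≤ K) (hd : d ∈ DS K m) (hp : p ∈ PS K) : ¬ p ∣ d := by
  intro h
  have h1 := mem_DS hd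
  have hpp := (mem_PS.1 hp).1
  have h2 : p ∈ d.primeFactors := Nat.mem_primeFactors.2 ⟨hpp, h, h1.1.ne_zero⟩
  have h3 := (mem_dyP.1 (h1.2.2.2.1 h2)).2.1
  have h4 := PS_gt (by omega) hp
  have h5 : K ^ 4 ≤ K ^ 15 := Nat.pow_le_pow_right (by omega) (by norm_num)
  omega

theorem coprime_of_DS {K m d p : ℕ} (hK : 8 ≤ K) (hd : d ∈ DS K m) (hp : p ∈ PS K) :
    Nat.Coprime d p := by
  rw [Nat.coprime_comm, Nat.Prime.coprime_iff_not_dvd (mem_PS.1 hp).1]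
  exact not_dvd_of_DS hK hd hp

theorem mul_injOn {K m : ℕ} (hK : 8 ≤ K) :
    Set.InjOn (fun i : ℕ × ℕ => i.1 * i.2) (DS K m ×ˢ PS K : Finset (ℕ × ℕ)) := by
  rintro ⟨d, p⟩ h1 ⟨d', p'⟩ h2 h
  simp only [coe_product, Set.mem_prod, mem_coe] at h1 h2 h
  have hpp := (mem_PS.1 h1.2).1
  have hpp' := (mem_PS.1 h2.2).1
  have h3 : p ∣ d' * p' := ⟨d, by rw [← h, mul_comm]⟩
  rcases hpp.dvd_mul.1 h3 with h4 | h4
  · exact absurd h4 (not_dvd_of_DS hK h2.1 h1.2)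
  · have h5 := (Nat.prime_dvd_prime_iff_eq hpp hpp').1 h4
    subst h5
    have h6 := Nat.eq_of_mul_eq_mul_right hpp.pos h
    rw [h6]

/-- primes q ≤ x with d | q - 1 and p | q + 1 -/
def NN (x d p : ℕ) : Finset ℕ :=
  (Icc 1 x).filter (fun q => q.Prime ∧ d ∣ q - 1 ∧ p ∣ q + 1)

theorem mem_NN {x d p q : ℕ} : q ∈ NN x d p ↔ q.Prime ∧ q ≤ x ∧ d ∣ q - 1 ∧ p ∣ q + 1 := by
  simp only [NN, mem_filter, mem_Icc]
  constructor
  · rintro ⟨⟨h1, h2⟩, h3, h4⟩; exact ⟨h3, h2, h4⟩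
  · rintro ⟨h1, h2, h3⟩; exact ⟨⟨h1.one_lt.le, h2⟩, h1, h3⟩

/-- the total number of primes found by BV -/
theorem NN_lower (m : ℕ) : ∃ K0 : ℕ, ∀ K : ℕ, K0 ≤ K →
    ∑ i ∈ DS K m ×ˢ PS K, ((K : ℝ) ^ (8 * m + 36) / (2 * (i.1 * i.2))) -
        2 * (K : ℝ) ^ (8 * m + 36) / Real.sqrt K
     ≤ Real.log ((K : ℝ) ^ (8 * m + 36)) *
      ∑ i ∈ DS K m ×ˢ PS K, ((NN (K ^ (8 * m + 36)) i.1 i.2).card : ℝ) := by
  obtain ⟨K1, hK1⟩ := BV_primes (2 * m + 9) (by omega)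
  refine ⟨max K1 (2 * m + 8), fun K hK => ?_⟩
  have hKK1 : K1 ≤ K := (le_max_left _ _).trans hK
  have hKm : 2 * m + 8 ≤ K := (le_max_right _ _).trans hK
  have hK8 : 8 ≤ K := by omega
  have hcop : ∀ i ∈ DS K m ×ˢ PS K, Nat.Coprime i.1 i.2 := by
    intro i hi
    rw [mem_product] at hi
    exact coprime_of_DS hK8 hi.1 hi.2
  have hcrt : ∀ i : ℕ × ℕ, ∃ a : ℕ, i ∈ DS K m ×ˢ PS K → a ≡ 1 [MOD i.1] ∧ a ≡ i.2 - 1 [MOD i.2] := by
    intro i
    by_cases hi : i ∈ DS K m ×ˢ PS K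
    · exact ⟨Nat.chineseRemainder (hcop i hi) 1 (i.2 - 1), fun _ =>
        ⟨(Nat.chineseRemainder (hcop i hi) 1 (i.2 - 1)).2.1,
         (Nat.chineseRemainder (hcop i hi) 1 (i.2 - 1)).2.2⟩⟩
    · exact ⟨0, fun h => absurd h hi⟩
  choose a ha using hcrt
  have hbv := hK1 K hKK1 (DS K m ×ˢ PS K) (fun i => i.1 * i.2) a (mul_injOn hK8) (by
    intro i hi
    have hc := hcop i hi
    have hai := ha i hi
    rw [mem_product] at hi
    obtain ⟨hd, hp⟩ := hi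
    obtain ⟨d1, d2, d3, d4, d5⟩ := mem_DS hd
    obtain ⟨p1, p2, p3, p4⟩ := mem_PS.1 hp
    have hsq : Squarefree (i.1 * i.2) := (Nat.squarefree_mul hc).2 ⟨d1, p1.squarefree⟩
    have hpf : (i.1 * i.2).primeFactors = i.1.primeFactors ∪ i.2.primeFactors :=
      Nat.primeFactors_mul d1.ne_zero p1.ne_zero
    have hbig : ∀ l ∈ (i.1 * i.2).primeFactors, K ^ 3 ≤ l := by
      intro l hl
      rw [hpf, mem_union] at hl
      rcases hl with hl | hl
      · exact (dyP_ge hK8 (d4 hl)).le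
      · rw [p1.primeFactors, mem_singleton] at hl
        rw [hl]
        have := PS_gt (by omega) hp
        have h5 : K ^ 3 ≤ K ^ 15 := Nat.pow_le_pow_right (by omega) (by norm_num)
        omega
    refine ⟨hsq, ?_, ?_, ?_, ?_⟩
    · calc i.1 * i.2 * K ^ 2 ≤ K ^ (4 * m) * K ^ 16 * K ^ 2 := by gcongr
        _ = K ^ (2 * (2 * m + 9)) := by rw [← pow_add, ← pow_add]; congr 1; ring
    · apply le_two_totient (i.1 * i.2) (m + 1) (K ^ 3) hsq.ne_zero _ hbig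
      · calc 2 * (m + 1) ≤ K := by omega
          _ ≤ K ^ 3 := Nat.le_self_pow (by norm_num) K
      · exact Nat.one_le_pow _ _ (by omega)
      · rw [hpf]
        refine (card_union_le _ _).trans ?_
        rw [d5, p1.primeFactors, card_singleton]
    · intro f hf hf1
      obtain ⟨l, hl, hlf⟩ := Nat.exists_prime_and_dvd hf1
      have h6 : l ∈ (i.1 * i.2).primeFactors :=
        Nat.mem_primeFactors.2 ⟨hl, hlf.trans hf, hsq.ne_zero⟩
      have hf0 : 0 < f := Nat.pos_of_ne_zero (by rintro rfl; exact hsq.ne_zero (Nat.eq_zero_of_zero_dvd hf))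
      have h7 := Nat.le_of_dvd hf0 hlf
      have h8 := hbig l h6
      have h9 : K ^ 2 ≤ K ^ 3 := Nat.pow_le_pow_right (by omega) (by norm_num)
      omega
    · have hp2 := p1.two_le
      apply Nat.Coprime.mul_right
      · have := hai.1.gcd_eq
        rw [Nat.Coprime, this, Nat.gcd_one_left]
      · have := hai.2.gcd_eq
        rw [Nat.Coprime, this]
        have h1 : Nat.Coprime (i.2 - 1) (i.2 - 1 + 1) := by simp
        rwa [Nat.sub_add_cancel (by omega)] at h1)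
  have he : 4 * (2 * m + 9) = 8 * m + 36 := by ring
  rw [he] at hbv
  have hcast : ∀ i : ℕ × ℕ, ((i.1 * i.2 : ℕ) : ℝ) = (i.1 : ℝ) * i.2 := fun i => by push_cast; ring
  simp only [hcast] at hbv
  refine hbv.trans ?_
  apply mul_le_mul_of_nonneg_left
  · apply sum_le_sum
    intro i hi
    have hai := ha i hi
    have hc := hcop i hi
    rw [mem_product] at hi
    obtain ⟨p1, p2, p3, p4⟩ := mem_PS.1 hi.2
    have hsub : (Icc 1 (K ^ (8 * m + 36))).filter (fun q => q.Prime ∧ q ≡ a i [MOD i.1 * i.2]) ⊆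
        NN (K ^ (8 * m + 36)) i.1 i.2 := by
      intro q hq
      rw [mem_filter, mem_Icc] at hq
      rw [mem_NN]
      obtain ⟨⟨h1, h2⟩, h3, h4⟩ := hq
      refine ⟨h3, h2, ?_, ?_⟩
      · have h5 : q ≡ 1 [MOD i.1] := (h4.of_mul_right i.2).trans hai.1
        exact (Nat.modEq_iff_dvd' h1).1 h5.symm
      · have h5 : q ≡ i.2 - 1 [MOD i.2] := (h4.of_mul_left i.1).trans hai.2
        have h6 : q + 1 ≡ i.2 - 1 + 1 [MOD i.2] := h5.add_right 1
        rw [Nat.sub_add_cancel p1.one_lt.le] at h6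
        have h7 : i.2 ≡ 0 [MOD i.2] := by simp [Nat.ModEq]
        exact (Nat.modEq_zero_iff_dvd).1 (h6.trans h7)
    exact_mod_cast card_le_card hsub
  · apply Real.log_nonneg
    apply one_le_pow₀
    exact_mod_cast (by omega : 1 ≤ K)

end Pool.Agent.Helper112
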