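import Mathlib
import Pool.Agent.Helper112.Sel4
import Pool.Agent.Helper112.PairSieve
import Pool.Agent.Helper112.Arith

open Finset

namespace Pool.Agent.Helper112

/-- all prime powers dividing `k` are at most `z` -/
def Sm (z k : ℕ) : Prop := ∀ l v : ℕ, l.Prime → 1 ≤ v → l ^ v ∣ k → l ^ v ≤ z

theorem bad_cases {z k : ℕ} (h : ¬ Sm z k) :
    (∃ l : ℕ, l.Prime ∧ z < l ∧ l ∣ k) ∨ (∃ u : ℕ, u ^ 2 ∣ k ∧ z < u ^ 3) := by
  unfold Sm at h
  push Not at h
  obtain ⟨l, v, hl, hv, hlv, hz⟩ := h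
  by_cases hzl : z < l
  · left
    exact ⟨l, hl, hzl, (dvd_pow_self l (by omega)).trans hlv⟩
  · right
    have hv2 : 2 ≤ v := by
      by_contra hcon
      have : v = 1 := by omega
      rw [this, pow_one] at hz
      exact hzl hz
    refine ⟨l ^ (v / 2), ?_, ?_⟩
    · rw [← pow_mul]
      exact (pow_dvd_pow l (Nat.div_mul_le_self v 2)).trans hlv
    · rw [← pow_mul]
      refine lt_of_lt_of_le hz (Nat.pow_le_pow_right hl.pos ?_)
      omega

theorem card_shift_dvd (x c : ℕ) :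
    ((Icc 1 x).filter (fun q => q.Prime ∧ c ∣ q - 1)).card ≤ x / c := by
  calc ((Icc 1 x).filter (fun q => q.Prime ∧ c ∣ q - 1)).card
      ≤ ((Ioc 0 (x - 1)).filter (fun n => c ∣ n)).card := by
        apply card_le_card_of_injOn (fun q => q - 1)
        · intro q hq
          simp only [mem_coe, mem_filter, mem_Icc] at hq
          simp only [mem_coe, mem_filter, mem_Ioc]
          have := hq.2.1.two_le
          exact ⟨⟨by omega, by omega⟩, hq.2.2⟩
        · intro q hq q' hq' h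
          simp only [mem_coe, mem_filter, mem_Icc] at hq hq'
          simp only at h
          have := hq.2.1.two_le
          have := hq'.2.1.two_le
          omega
    _ = (x - 1) / c := Nat.Ioc_filter_dvd_card_eq_div _ _
    _ ≤ x / c := Nat.div_le_div_right (by omega)

open Classical in
/-- primes whose cofactor is divisible by a large square -/
noncomputable def Bad2 (x d w : ℕ) : Finset ℕ := (Icc 1 x).filter (fun q => q.Prime ∧ d ∣ q - 1 ∧
      ∃ u : ℕ, u ^ 2 ∣ (q - 1) / d ∧ w ^ 3 < u ^ 3)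

open Classical in
/-- primes whose cofactor is divisible by a large prime -/
noncomputable def Bad1 (x d p z : ℕ) : Finset ℕ := (Icc 1 x).filter (fun q => q.Prime ∧
      d ∣ q - 1 ∧ p ∣ q + 1 ∧ ∃ l : ℕ, l.Prime ∧ z < l ∧ l ∣ (q - 1) / d)

open Classical in
/-- bound for the primes such that the cofactor is divisible by a large square -/
theorem bad2_bound (x d w : ℕ) (hd : 1 ≤ d) (hw : 1 ≤ w) :
    ((Bad2 x d w).card : ℝ) ≤ (x : ℝ) / (d * w) := by
  unfold Bad2
  by_cases hxw : x ≤ w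
  · have : (Icc 1 x).filter (fun q => q.Prime ∧ d ∣ q - 1 ∧
      ∃ u : ℕ, u ^ 2 ∣ (q - 1) / d ∧ w ^ 3 < u ^ 3) = ∅ := by
      rw [filter_eq_empty_iff]
      rintro q hq ⟨hqp, hdq, u, hu, huw⟩
      rw [mem_Icc] at hq
      have hq2 := hqp.two_le
      have hk : 0 < (q - 1) / d := Nat.div_pos (Nat.le_of_dvd (by omega) hdq) (by omega)
      have h1 : u ^ 2 ≤ (q - 1) / d := Nat.le_of_dvd hk hu
      have h2 : (q - 1) / d ≤ q - 1 := Nat.div_le_self _ _
      have h3 : w < u := lt_of_pow_lt_pow_left₀ 3 (by omega) huw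
      have h4 : u ≤ u ^ 2 := Nat.le_self_pow (by norm_num) u
      omega
    rw [this, card_empty, Nat.cast_zero]
    positivity
  push Not at hxw
  have hsub : (Icc 1 x).filter (fun q => q.Prime ∧ d ∣ q - 1 ∧
      ∃ u : ℕ, u ^ 2 ∣ (q - 1) / d ∧ w ^ 3 < u ^ 3) ⊆
      (Ioc w x).biUnion (fun u => (Icc 1 x).filter (fun q => q.Prime ∧ d * u ^ 2 ∣ q - 1)) := by
    intro q hq
    rw [mem_filter, mem_Icc] at hq
    obtain ⟨⟨h1, h2⟩, hqp, hdq, u, hu, huw⟩ := hq
    rw [mem_biUnion]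
    have hq2 := hqp.two_le
    have hk : 0 < (q - 1) / d := Nat.div_pos (Nat.le_of_dvd (by omega) hdq) (by omega)
    have h3 : u ^ 2 ≤ (q - 1) / d := Nat.le_of_dvd hk hu
    have h4 : (q - 1) / d ≤ q - 1 := Nat.div_le_self _ _
    have h5 : w < u := lt_of_pow_lt_pow_left₀ 3 (by omega) huw
    have h6 : u ≤ u ^ 2 := Nat.le_self_pow (by norm_num) u
    refine ⟨u, mem_Ioc.2 ⟨h5, by omega⟩, ?_⟩
    rw [mem_filter, mem_Icc]
    refine ⟨⟨h1, h2⟩, hqp, ?_⟩
    obtain ⟨c, hc⟩ := hu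
    have : q - 1 = d * ((q - 1) / d) := (Nat.mul_div_cancel' hdq).symm
    rw [this, hc]
    exact ⟨c, by ring⟩
  have h1 := (card_le_card hsub).trans card_biUnion_le
  have h2 : ∑ u ∈ Ioc w x, ((Icc 1 x).filter (fun q => q.Prime ∧ d * u ^ 2 ∣ q - 1)).card ≤
      ∑ u ∈ Ioc w x, x / (d * u ^ 2) := sum_le_sum (fun u _ => card_shift_dvd x _)
  have h3 : ((∑ u ∈ Ioc w x, x / (d * u ^ 2) : ℕ) : ℝ) ≤ (x : ℝ) / d * ∑ u ∈ Ioc w x, ((u : ℝ) ^ 2)⁻¹ := by
    rw [mul_sum]
    push_cast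
    apply sum_le_sum
    intro u hu
    rw [mem_Ioc] at hu
    have hu0 : (0 : ℝ) < u := by exact_mod_cast (by omega : 0 < u)
    have hd0 : (0 : ℝ) < d := by exact_mod_cast hd
    calc ((x / (d * u ^ 2) : ℕ) : ℝ) ≤ (x : ℝ) / ((d * u ^ 2 : ℕ) : ℝ) := Nat.cast_div_le
      _ = (x : ℝ) / d * ((u : ℝ) ^ 2)⁻¹ := by push_cast; field_simp
  have h4 := sum_Ioc_inv_sq_le_sub (α := ℝ) (k := w) (n := x) (by omega) hxw.le
  have hx0 : (0 : ℝ) ≤ (x : ℝ)⁻¹ := by positivity
  have hd0 : (0 : ℝ) < d := by exact_mod_cast hd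
  have hw0 : (0 : ℝ) < w := by exact_mod_cast hw
  calc _ ≤ ((∑ u ∈ Ioc w x, x / (d * u ^ 2) : ℕ) : ℝ) := by exact_mod_cast h1.trans h2
    _ ≤ (x : ℝ) / d * ∑ u ∈ Ioc w x, ((u : ℝ) ^ 2)⁻¹ := h3
    _ ≤ (x : ℝ) / d * (w : ℝ)⁻¹ := by
        gcongr
        linarith
    _ = (x : ℝ) / (d * w) := by field_simp

open Classical in
/-- bound for the primes such that the cofactor is divisible by a large prime -/
theorem bad1_bound : ∃ C : ℝ, 0 < C ∧ ∀ (x d p z Y : ℕ), 1 ≤ d → p.Prime → 2 < p → ¬ p ∣ d →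
    2 * p ≤ z → x ≤ d * z * Y → 1 ≤ Y → d * p ≤ 2 * Nat.totient (d * p) →
    ((Bad1 x d p z).card : ℝ) ≤
      C * ((x : ℝ) / (d * p)) * (1 + Real.log Y) / (Real.log ((z : ℝ) / p)) ^ 2 := by
  obtain ⟨C1, hC1, hps⟩ := pair_sieve
  obtain ⟨C2, hC2, hsr⟩ := sum_ratio_sq
  refine ⟨4 * C1 * C2, by positivity, ?_⟩
  intro x d p z Y hd hp hp2 hpd hz hY hY1 htot
  unfold Bad1
  have hd0 : (0 : ℝ) < d := by exact_mod_cast hd
  have hp0 : (0 : ℝ) < p := by exact_mod_cast hp.pos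
  have hzp : (2 : ℝ) ≤ (z : ℝ) / p := by
    rw [le_div_iff₀ hp0]
    exact_mod_cast hz
  have hlogz : 0 < Real.log ((z : ℝ) / p) := Real.log_pos (by linarith)
  -- the set for each r
  set B : ℕ → Finset ℕ := fun r => (Icc 1 (x / (d * r))).filter
    (fun l => l.Prime ∧ (d * r * l + 1).Prime ∧ p ∣ d * r * l + 2 ∧ z < l) with hB
  have hsub : (Icc 1 x).filter (fun q => q.Prime ∧ d ∣ q - 1 ∧ p ∣ q + 1 ∧
      ∃ l : ℕ, l.Prime ∧ z < l ∧ l ∣ (q - 1) / d) ⊆
      (Icc 1 Y).biUnion (fun r => (B r).image (fun l => d * r * l + 1)) := by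
    intro q hq
    rw [mem_filter, mem_Icc] at hq
    obtain ⟨⟨h1, h2⟩, hqp, hdq, hpq, l, hl, hzl, hlk⟩ := hq
    have hq2 := hqp.two_le
    have hk : 0 < (q - 1) / d := Nat.div_pos (Nat.le_of_dvd (by omega) hdq) (by omega)
    obtain ⟨r, hr⟩ := hlk
    have hr0 : 0 < r := Nat.pos_of_ne_zero (by
      rintro rfl
      rw [hr, Nat.mul_zero] at hk
      exact lt_irrefl _ hk)
    have hqe : q - 1 = d * r * l := by
      have : q - 1 = d * ((q - 1) / d) := (Nat.mul_div_cancel' hdq).symm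
      rw [this, hr]; ring
    have hqe' : q = d * r * l + 1 := by omega
    rw [mem_biUnion]
    have hrY : r ≤ Y := by
      by_contra hcon
      push Not at hcon
      have h3 : d * z * Y ≤ d * z * r := Nat.mul_le_mul_left _ hcon.le
      have h4 : d * z * r ≤ d * r * l := by
        calc d * z * r = d * r * z := by ring
          _ ≤ d * r * l := Nat.mul_le_mul_left _ hzl.le
      omega
    refine ⟨r, mem_Icc.2 ⟨hr0, hrY⟩, ?_⟩
    rw [mem_image]
    refine ⟨l, ?_, hqe'.symm⟩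
    rw [hB]
    simp only [mem_filter, mem_Icc]
    refine ⟨⟨hl.one_lt.le, ?_⟩, hl, ?_, ?_, hzl⟩
    · rw [Nat.le_div_iff_mul_le (by positivity)]
      calc l * (d * r) = d * r * l := by ring
        _ ≤ x := by omega
    · rw [← hqe']; exact hqp
    · have : d * r * l + 2 = q + 1 := by omega
      rw [this]; exact hpq
  have h1 := (card_le_card hsub).trans card_biUnion_le
  have h2 : ∑ r ∈ Icc 1 Y, ((B r).image (fun l => d * r * l + 1)).card ≤ ∑ r ∈ Icc 1 Y, (B r).card :=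
    sum_le_sum (fun r _ => card_image_le)
  have h3 : ∀ r ∈ Icc 1 Y, ((B r).card : ℝ) ≤
      4 * C1 * ((x : ℝ) / (d * p)) / (Real.log ((z : ℝ) / p)) ^ 2 *
        ((1 / (r : ℝ)) * ((r : ℝ) / (Nat.totient r : ℝ)) ^ 2) := by
    intro r hr
    rw [mem_Icc] at hr
    have hr0 : (0 : ℝ) < r := by exact_mod_cast hr.1
    by_cases hne : (B r).Nonempty
    · obtain ⟨l0, hl0⟩ := hne
      have hl0' := hl0
      rw [hB] at hl0'
      simp only [mem_filter, mem_Icc] at hl0'
      obtain ⟨⟨h5, h6⟩, h7, h8, h9, h10⟩ := hl0'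
      have hpa : ¬ p ∣ d * r := by
        intro h
        have h11 : p ∣ d * r * l0 := h.mul_right l0
        have h12 : p ∣ 2 := (Nat.dvd_add_right h11).1 h9
        have := Nat.le_of_dvd (by norm_num) h12
        omega
      have hZ : 2 * p ≤ x / (d * r) := by omega
      have h11 := hps (d * r) p l0 (x / (d * r)) (Nat.mul_pos hd hr.1) hp hpa hZ
      have h12 : (B r).card ≤ ((Icc 1 (x / (d * r))).filter
          (fun l => l.Prime ∧ (d * r * l + 1).Prime ∧ l ≡ l0 [MOD p])).card := by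
        apply card_le_card
        intro l hl
        rw [hB] at hl
        simp only [mem_filter, mem_Icc] at hl ⊢
        obtain ⟨h13, h14, h15, h16, h17⟩ := hl
        refine ⟨h13, h14, h15, ?_⟩
        have h18 : d * r * l + 2 ≡ d * r * l0 + 2 [MOD p] :=
          ((Nat.modEq_zero_iff_dvd).2 h16).trans ((Nat.modEq_zero_iff_dvd).2 h9).symm
        have h19 : d * r * l ≡ d * r * l0 [MOD p] := Nat.ModEq.add_right_cancel' 2 h18
        have h20 : Nat.gcd p (d * r) = 1 := (Nat.Prime.coprime_iff_not_dvd hp).2 hpa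
        exact Nat.ModEq.cancel_left_of_coprime h20 h19
      have hZx : (((x / (d * r) : ℕ) : ℝ)) ≤ (x : ℝ) / (d * r) := by
        have := @Nat.cast_div_le ℝ _ _ _ x (d * r)
        push_cast at this
        exact this
      have hzZ : (z : ℝ) ≤ ((x / (d * r) : ℕ) : ℝ) := by exact_mod_cast (by omega : z ≤ x / (d * r))
      have hlog : Real.log ((z : ℝ) / p) ≤ Real.log (((x / (d * r) : ℕ) : ℝ) / p) := by
        apply Real.log_le_log (by linarith)
        gcongr
      have htr : (0 : ℝ) < Nat.totient r := by exact_mod_cast Nat.totient_pos.2 hr.1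
      have htdp : (0 : ℝ) < Nat.totient (d * p) := by
        exact_mod_cast Nat.totient_pos.2 (Nat.mul_pos hd hp.pos)
      have hsm : (Nat.totient (d * p) : ℝ) * Nat.totient r ≤ Nat.totient (d * r * p) := by
        have := Nat.totient_super_multiplicative (d * p) r
        have h21 : d * p * r = d * r * p := by ring
        rw [h21] at this
        exact_mod_cast this
      have hratio : ((d * r : ℕ) * p : ℝ) / (Nat.totient (d * r * p) : ℝ) ≤ 2 * ((r : ℝ) / Nat.totient r) := by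
        have htot' : (d : ℝ) * p ≤ 2 * Nat.totient (d * p) := by exact_mod_cast htot
        calc ((d * r : ℕ) * p : ℝ) / (Nat.totient (d * r * p) : ℝ)
            ≤ ((d * r : ℕ) * p : ℝ) / ((Nat.totient (d * p) : ℝ) * Nat.totient r) := by gcongr
          _ = ((d * p : ℝ) / Nat.totient (d * p)) * ((r : ℝ) / Nat.totient r) := by
              push_cast; field_simp
          _ ≤ 2 * ((r : ℝ) / Nat.totient r) := by
              gcongr
              rw [div_le_iff₀ htdp]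
              linarith
      calc ((B r).card : ℝ) ≤ _ := by exact_mod_cast h12
        _ ≤ _ := h11
        _ ≤ C1 * ((x : ℝ) / (d * r) / p) * (2 * ((r : ℝ) / Nat.totient r)) ^ 2 /
              (Real.log ((z : ℝ) / p)) ^ 2 := by
            gcongr
        _ = _ := by field_simp; ring
    · rw [not_nonempty_iff_eq_empty] at hne
      rw [hne, card_empty, Nat.cast_zero]
      positivity
  have h4 := hsr Y hY1
  calc _ ≤ ((∑ r ∈ Icc 1 Y, (B r).card : ℕ) : ℝ) := by exact_mod_cast h1.trans h2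
    _ = ∑ r ∈ Icc 1 Y, ((B r).card : ℝ) := by push_cast; rfl
    _ ≤ ∑ r ∈ Icc 1 Y, 4 * C1 * ((x : ℝ) / (d * p)) / (Real.log ((z : ℝ) / p)) ^ 2 *
        ((1 / (r : ℝ)) * ((r : ℝ) / (Nat.totient r : ℝ)) ^ 2) := sum_le_sum h3
    _ = 4 * C1 * ((x : ℝ) / (d * p)) / (Real.log ((z : ℝ) / p)) ^ 2 *
        ∑ r ∈ Icc 1 Y, ((1 / (r : ℝ)) * ((r : ℝ) / (Nat.totient r : ℝ)) ^ 2) := by rw [mul_sum]
    _ ≤ 4 * C1 * ((x : ℝ) / (d * p)) / (Real.log ((z : ℝ) / p)) ^ 2 * (C2 * (1 + Real.log Y)) := by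
        gcongr
    _ = _ := by ring

end Pool.Agent.Helper112
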