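import Mathlib
import Pool.Agent.Helper112.Sel5

open Finset

namespace Pool.Agent.Helper112

open Classical in
/-- primes q ≤ x, q = 1 mod d, q = -1 mod p with smooth cofactor -/
noncomputable def GG (x d p z : ℕ) : Finset ℕ := (NN x d p).filter (fun q => Sm z ((q - 1) / d))

open Classical in
theorem NN_le_GG (x d p w : ℕ) :
    ((NN x d p).card : ℝ) ≤ ((GG x d p (w ^ 3)).card : ℝ) +
      ((Bad1 x d p (w ^ 3)).card : ℝ) + ((Bad2 x d w).card : ℝ) := by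
  have hsub : NN x d p ⊆ (GG x d p (w ^ 3) ∪ Bad1 x d p (w ^ 3)) ∪ Bad2 x d w := by
    unfold Bad1 Bad2
    intro q hq
    have hq' := mem_NN.1 hq
    obtain ⟨h1, h2, h3, h4⟩ := hq'
    rw [mem_union, mem_union]
    by_cases h : Sm (w ^ 3) ((q - 1) / d)
    · left; left
      rw [GG, mem_filter]
      exact ⟨hq, h⟩
    · rcases bad_cases h with h5 | h5
      · left; right
        rw [mem_filter, mem_Icc]
        exact ⟨⟨h1.one_lt.le, h2⟩, h1, h3, h4, h5⟩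
      · right
        rw [mem_filter, mem_Icc]
        exact ⟨⟨h1.one_lt.le, h2⟩, h1, h3, h5⟩
  have h := (card_le_card hsub).trans ((card_union_le _ _).trans
    (Nat.add_le_add_right (card_union_le _ _) _))
  exact_mod_cast h


theorem err_lemma (K x T : ℝ) (hK0 : 0 < K) (h32 : 32 ≤ K ^ (3 / 10 : ℝ))
    (h7 : x ≤ K ^ (1 / 5 : ℝ) * T) (hT0 : 0 ≤ T) : 2 * x / Real.sqrt K ≤ T / 16 := by
  have h9 : Real.sqrt K = K ^ (3 / 10 : ℝ) * K ^ (1 / 5 : ℝ) := by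
    rw [← Real.rpow_add hK0, Real.sqrt_eq_rpow]; norm_num
  have h10 : 0 < Real.sqrt K := Real.sqrt_pos.2 hK0
  rw [div_le_iff₀ h10, h9]
  have h11 : 0 < K ^ (1 / 5 : ℝ) := Real.rpow_pos_of_pos hK0 _
  have h12 : 32 * (K ^ (1 / 5 : ℝ) * T) ≤ K ^ (3 / 10 : ℝ) * (K ^ (1 / 5 : ℝ) * T) := by
    gcongr
  calc 2 * x ≤ 2 * (K ^ (1 / 5 : ℝ) * T) := by linarith
    _ = 32 * (K ^ (1 / 5 : ℝ) * T) / 16 := by ring
    _ ≤ K ^ (3 / 10 : ℝ) * (K ^ (1 / 5 : ℝ) * T) / 16 := by linarith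
    _ = _ := by ring

theorem split_fifth (K : ℝ) (hK0 : 0 < K) :
    K ^ (1 / 5 : ℝ) = K ^ (1 / 10 : ℝ) * K ^ (1 / 10 : ℝ) := by
  rw [← Real.rpow_add hK0]; norm_num

theorem xT_lemma (K a b T : ℝ) (e f : ℕ) (hK0 : 0 < K) (ha : 0 ≤ a)
    (hb : 0 ≤ b) (h1 : K ^ f ≤ K ^ (1 / 10 : ℝ) * a) (h2 : K ^ 16 ≤ K ^ (1 / 10 : ℝ) * b)
    (hT : K ^ e * (a * b) ≤ T) : K ^ (e + (f + 16)) ≤ K ^ (1 / 5 : ℝ) * T := by
  have hκ : 0 < K ^ (1 / 10 : ℝ) := Real.rpow_pos_of_pos hK0 _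
  rw [split_fifth K hK0]
  calc K ^ (e + (f + 16)) = K ^ e * (K ^ f * K ^ 16) := by rw [pow_add, pow_add]
    _ ≤ K ^ e * ((K ^ (1 / 10 : ℝ) * a) * (K ^ (1 / 10 : ℝ) * b)) := by gcongr
    _ = K ^ (1 / 10 : ℝ) * K ^ (1 / 10 : ℝ) * (K ^ e * (a * b)) := by ring
    _ ≤ _ := by gcongr

theorem per_pair (C : ℝ) (hC : 0 < C) (hbad1 : ∀ (x d p z Y : ℕ), 1 ≤ d → p.Prime → 2 < p → ¬ p ∣ d →
    2 * p ≤ z → x ≤ d * z * Y → 1 ≤ Y → d * p ≤ 2 * Nat.totient (d * p) →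
    ((Bad1 x d p z).card : ℝ) ≤
      C * ((x : ℝ) / (d * p)) * (1 + Real.log Y) / (Real.log ((z : ℝ) / p)) ^ 2)
    (t m K x : ℕ) (ht8 : 8 ≤ t) (htC : 592 * C ≤ t) (hm : m = 3 * t + 6)
    (h5 : 16 * (24 * t + 84) * Real.log K ≤ K) (h6 : 1 + m * Real.log 8 ≤ Real.log K)
    (e7 : 2 * m + 8 ≤ K) (hx : x = K ^ (24 * t + 84)) (i : ℕ × ℕ) (hi : i ∈ DS K m ×ˢ PS K) :
    Real.log x * ((NN x i.1 i.2).card : ℝ) ≤
      Real.log x * ((GG x i.1 i.2 (K ^ (12 * t))).card : ℝ) + (1 / 8) * ((x : ℝ) / (i.1 * i.2)) := by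
  have hK8 : 8 ≤ K := by omega
  have hKr : (8 : ℝ) ≤ K := by exact_mod_cast hK8
  have hK0 : (0 : ℝ) < K := by linarith
  have hKone : (1 : ℝ) ≤ K := by linarith
  have hlogK : 1 ≤ Real.log K := by
    rw [Real.le_log_iff_exp_le (by linarith)]
    have := Real.exp_one_lt_d9
    linarith
  have hxc : (x : ℝ) = (K : ℝ) ^ (24 * t + 84) := by rw [hx]; push_cast; rfl
  have htr : (8 : ℝ) ≤ t := by exact_mod_cast ht8
  have hlogx : Real.log x = (24 * t + 84) * Real.log K := by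
    rw [hxc, Real.log_pow]; push_cast; ring
  have hlogx0 : 0 < Real.log x := by
    rw [hlogx]; positivity
  rw [mem_product] at hi
  obtain ⟨hd, hp⟩ := hi
  obtain ⟨d1, d2, d3, d4, d5⟩ := mem_DS hd
  obtain ⟨p1, p2, p3, p4⟩ := mem_PS.1 hp
  have hd1 : 1 ≤ i.1 := Nat.pos_of_ne_zero d1.ne_zero
  have hp15 := PS_gt (by omega) hp
  have hd0 : (0 : ℝ) < i.1 := by exact_mod_cast hd1
  have hp0 : (0 : ℝ) < i.2 := by exact_mod_cast p1.pos
  have hp16 : (i.2 : ℝ) ≤ (K : ℝ) ^ 16 := by exact_mod_cast p2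
  have hc := coprime_of_DS hK8 hd hp
  have hsq : Squarefree (i.1 * i.2) := (Nat.squarefree_mul hc).2 ⟨d1, p1.squarefree⟩
  have hpf : (i.1 * i.2).primeFactors = i.1.primeFactors ∪ i.2.primeFactors :=
    Nat.primeFactors_mul d1.ne_zero p1.ne_zero
  have hbig : ∀ l ∈ (i.1 * i.2).primeFactors, K ^ 3 ≤ l := by
    intro l hl
    rw [hpf, mem_union] at hl
    rcases hl with hl | hl
    · exact (dyP_ge hK8 (d4 hl)).le
    · rw [p1.primeFactors, mem_singleton] at hl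
      rw [hl]
      have h5 : K ^ 3 ≤ K ^ 15 := Nat.pow_le_pow_right (by omega) (by norm_num)
      omega
  have htot : i.1 * i.2 ≤ 2 * Nat.totient (i.1 * i.2) := by
    apply le_two_totient (i.1 * i.2) (m + 1) (K ^ 3) hsq.ne_zero _ hbig
    · calc 2 * (m + 1) ≤ K := by omega
        _ ≤ K ^ 3 := Nat.le_self_pow (by norm_num) K
    · exact Nat.one_le_pow _ _ (by omega)
    · rw [hpf]
      refine (card_union_le _ _).trans ?_
      rw [d5, p1.primeFactors, card_singleton]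
  have h2p : 2 * i.2 ≤ K ^ (12 * t) := by
    calc 2 * i.2 ≤ K * K ^ 16 := by gcongr; omega
      _ = K ^ 17 := by ring
      _ ≤ K ^ (12 * t) := Nat.pow_le_pow_right (by omega) (by omega)
  have hp2 : 2 < i.2 := by
    have : K ≤ K ^ 15 := Nat.le_self_pow (by norm_num) K
    omega
  have hxY : x ≤ i.1 * K ^ (12 * t) * (8 ^ m * K ^ 60) := by
    calc x = K ^ (4 * m) * (K ^ (12 * t) * K ^ 60) := by
          rw [hx, ← pow_add, ← pow_add]; congr 1; rw [hm]; ring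
      _ ≤ (8 ^ m * i.1) * (K ^ (12 * t) * K ^ 60) := Nat.mul_le_mul_right _ d3
      _ = _ := by ring
  have hY1 : 1 ≤ 8 ^ m * K ^ 60 := Nat.mul_pos (by positivity) (by positivity)
  have hb1 := hbad1 x i.1 i.2 (K ^ (12 * t)) (8 ^ m * K ^ 60) hd1 p1 hp2
    (not_dvd_of_DS hK8 hd hp) h2p hxY hY1 htot
  have hb2 := bad2_bound x i.1 (K ^ (4 * t)) hd1 (Nat.one_le_pow _ _ (by omega))
  have hcube : (K ^ (4 * t)) ^ 3 = K ^ (12 * t) := by rw [← pow_mul]; congr 1; ring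
  have hsplit := NN_le_GG x i.1 i.2 (K ^ (4 * t))
  rw [hcube] at hsplit
  -- log estimates
  have hlz : 10 * t * Real.log K ≤ Real.log (((K ^ (12 * t) : ℕ) : ℝ) / i.2) := by
    rw [Real.log_div (by positivity) (by positivity)]
    push_cast
    rw [Real.log_pow]
    have h7 : Real.log i.2 ≤ 16 * Real.log K := by
      calc Real.log i.2 ≤ Real.log ((K : ℝ) ^ 16) := Real.log_le_log hp0 hp16
        _ = 16 * Real.log K := by rw [Real.log_pow]; norm_num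
    push_cast
    nlinarith
  have hlY : 1 + Real.log ((8 ^ m * K ^ 60 : ℕ) : ℝ) ≤ 61 * Real.log K := by
    push_cast
    rw [Real.log_mul (by positivity) (by positivity), Real.log_pow, Real.log_pow]
    push_cast
    linarith
  have hlz0 : 0 < 10 * t * Real.log K := by positivity
  have hxd : (0 : ℝ) ≤ (x : ℝ) / (i.1 * i.2) := by positivity
  have hb1' : Real.log x * (C * ((x : ℝ) / (i.1 * i.2)) * (1 + Real.log ((8 ^ m * K ^ 60 : ℕ) : ℝ)) /
      (Real.log (((K ^ (12 * t) : ℕ) : ℝ) / i.2)) ^ 2) ≤ (1 / 16) * ((x : ℝ) / (i.1 * i.2)) := by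
    have h8 : 0 ≤ 1 + Real.log ((8 ^ m * K ^ 60 : ℕ) : ℝ) := by
      have : (0 : ℝ) ≤ Real.log ((8 ^ m * K ^ 60 : ℕ) : ℝ) := Real.log_natCast_nonneg _
      linarith
    calc Real.log x * (C * ((x : ℝ) / (i.1 * i.2)) * (1 + Real.log ((8 ^ m * K ^ 60 : ℕ) : ℝ)) /
      (Real.log (((K ^ (12 * t) : ℕ) : ℝ) / i.2)) ^ 2) ≤
        Real.log x * (C * ((x : ℝ) / (i.1 * i.2)) * (61 * Real.log K) / (10 * t * Real.log K) ^ 2) := by
          gcongr
      _ = ((x : ℝ) / (i.1 * i.2)) * (C * 61 * (24 * t + 84) / (100 * t ^ 2)) := by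
          rw [hlogx]; field_simp; ring
      _ ≤ ((x : ℝ) / (i.1 * i.2)) * (1 / 16) := by
          apply mul_le_mul_of_nonneg_left _ hxd
          rw [div_le_iff₀ (by positivity)]
          have h9 : (24 * (t : ℝ) + 84) ≤ 35 * t := by linarith
          nlinarith
      _ = _ := by ring
  have hb2' : Real.log x * ((x : ℝ) / (i.1 * (K ^ (4 * t) : ℕ))) ≤ (1 / 16) * ((x : ℝ) / (i.1 * i.2)) := by
    push_cast
    have h9 : 16 * Real.log x ≤ K := by rw [hlogx]; linarith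
    have h10 : (K : ℝ) * i.2 ≤ (K : ℝ) ^ (4 * t) := by
      calc (K : ℝ) * i.2 ≤ K * (K : ℝ) ^ 16 := by gcongr
        _ = (K : ℝ) ^ 17 := by ring
        _ ≤ (K : ℝ) ^ (4 * t) := pow_le_pow_right₀ hKone (by omega)
    rw [mul_div_assoc', div_le_iff₀ (by positivity)]
    have h11 : (1 / 16) * ((x : ℝ) / (i.1 * i.2)) * (i.1 * (K : ℝ) ^ (4 * t)) =
        (x : ℝ) * ((K : ℝ) ^ (4 * t) / (16 * i.2)) := by field_simp
    rw [h11]
    have h12 : Real.log x ≤ (K : ℝ) ^ (4 * t) / (16 * i.2) := by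
      rw [le_div_iff₀ (by positivity)]
      nlinarith
    have hx0 : (0 : ℝ) ≤ x := by positivity
    nlinarith
  have hA : Real.log x * ((NN x i.1 i.2).card : ℝ) ≤ Real.log x * (
      ((GG x i.1 i.2 (K ^ (12 * t))).card : ℝ) +
      (C * ((x : ℝ) / (i.1 * i.2)) * (1 + Real.log ((8 ^ m * K ^ 60 : ℕ) : ℝ)) /
      (Real.log (((K ^ (12 * t) : ℕ) : ℝ) / i.2)) ^ 2) +
      ((x : ℝ) / (i.1 * (K ^ (4 * t) : ℕ)))) := by
    apply mul_le_mul_of_nonneg_left _ hlogx0.le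
    linarith
  rw [mul_add, mul_add] at hA
  linarith

theorem good_sum : ∃ t : ℕ, 8 ≤ t ∧ ∃ K0 : ℕ, ∀ K : ℕ, K0 ≤ K →
    (K : ℝ) ^ (12 * t + 44) * ((DS K (3 * t + 6)).card * (PS K).card) ≤
      4 * Real.log ((K : ℝ) ^ (24 * t + 84)) *
      ∑ i ∈ DS K (3 * t + 6) ×ˢ PS K, ((GG (K ^ (24 * t + 84)) i.1 i.2 (K ^ (12 * t))).card : ℝ) := by
  obtain ⟨C, hC, hbad1⟩ := bad1_bound
  obtain ⟨t0, ht0⟩ := exists_nat_ge (592 * C)
  set t := max t0 8 with ht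
  have ht8 : 8 ≤ t := le_max_right _ _
  have htC : 592 * C ≤ t := ht0.trans (by exact_mod_cast le_max_left t0 8)
  refine ⟨t, ht8, ?_⟩
  set m := 3 * t + 6 with hm
  obtain ⟨K1, hK1⟩ := NN_lower m
  obtain ⟨K2, hK2⟩ := PS_card
  obtain ⟨K3, hK3⟩ := DS_card m
  obtain ⟨K4, hK4⟩ := const_le_rpow 32 (3 / 10) (by norm_num)
  obtain ⟨K5, hK5⟩ := log_pow_le (16 * (24 * t + 84)) 1 1 (by norm_num)
  obtain ⟨K6, hK6⟩ : ∃ K6 : ℕ, ∀ K : ℕ, K6 ≤ K → 1 + m * Real.log 8 ≤ Real.log K := by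
    refine ⟨Nat.ceil (Real.exp (1 + m * Real.log 8)), fun K hK => ?_⟩
    have h1 : Real.exp (1 + m * Real.log 8) ≤ K := (Nat.le_ceil _).trans (by exact_mod_cast hK)
    rw [Real.le_log_iff_exp_le]
    · exact h1
    · exact lt_of_lt_of_le (Real.exp_pos _) h1
  refine ⟨max (max (max K1 K2) (max K3 K4)) (max (max K5 K6) (2 * m + 8)), fun K hK => ?_⟩
  simp only [max_le_iff] at hK
  obtain ⟨⟨⟨e1, e2⟩, ⟨e3, e4⟩⟩, ⟨⟨e5, e6⟩, e7⟩⟩ := hK
  have hK8 : 8 ≤ K := by omega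
  have hKr : (8 : ℝ) ≤ K := by exact_mod_cast hK8
  have hK0 : (0 : ℝ) < K := by linarith
  have hNN := hK1 K e1
  have hPS := hK2 K e2
  have hDS := hK3 K e3
  have h32 := hK4 K e4
  have h5 := hK5 K e5
  have h6 := hK6 K e6
  rw [pow_one, Real.rpow_one] at h5
  have hxe : 8 * m + 36 = 24 * t + 84 := by rw [hm]; ring
  rw [hxe] at hNN
  set x : ℕ := K ^ (24 * t + 84) with hx
  have hxc : (x : ℝ) = (K : ℝ) ^ (24 * t + 84) := by rw [hx]; push_cast; rfl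
  rw [← hxc] at hNN ⊢
  have hper := per_pair C hC hbad1 t m K x ht8 htC hm h5 h6 e7 hx
  have hsum := sum_le_sum hper
  rw [← mul_sum, sum_add_distrib, ← mul_sum, ← mul_sum] at hsum
  -- sum of x/(dp)
  generalize hT : ∑ i ∈ DS K m ×ˢ PS K, ((x : ℝ) / (i.1 * i.2)) = T at hsum
  have hhalf : ∑ i ∈ DS K m ×ˢ PS K, ((x : ℝ) / (2 * (i.1 * i.2))) = T / 2 := by
    rw [← hT, sum_div]
    apply sum_congr rfl
    intro i _
    rw [div_div]; congr 1; ring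
  rw [hhalf] at hNN
  have hTlow : (K : ℝ) ^ (12 * t + 44) * ((DS K m).card * (PS K).card) ≤ T := by
    calc (K : ℝ) ^ (12 * t + 44) * ((DS K m).card * (PS K).card)
        = ∑ i ∈ DS K m ×ˢ PS K, (K : ℝ) ^ (12 * t + 44) := by
          rw [sum_const, card_product, nsmul_eq_mul]; push_cast; ring
      _ ≤ T := by
          rw [← hT]
          apply sum_le_sum
          intro i hi
          rw [mem_product] at hi
          obtain ⟨d1, d2, _⟩ := mem_DS hi.1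
          obtain ⟨p1, p2, _⟩ := mem_PS.1 hi.2
          have hd0 : (0 : ℝ) < i.1 := by exact_mod_cast Nat.pos_of_ne_zero d1.ne_zero
          have hp0 : (0 : ℝ) < i.2 := by exact_mod_cast p1.pos
          rw [le_div_iff₀ (by positivity), hxc]
          have h7 : (i.1 : ℝ) ≤ (K : ℝ) ^ (4 * m) := by exact_mod_cast d2
          have h8 : (i.2 : ℝ) ≤ (K : ℝ) ^ 16 := by exact_mod_cast p2
          calc (K : ℝ) ^ (12 * t + 44) * (i.1 * i.2) ≤ (K : ℝ) ^ (12 * t + 44) * ((K : ℝ) ^ (4 * m) * (K : ℝ) ^ 16) := by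
                gcongr
            _ = (K : ℝ) ^ (24 * t + 84) := by
                rw [← pow_add, ← pow_add]; congr 1; rw [hm]; ring
  have hT0 : 0 ≤ T := by
    rw [← hT]; apply sum_nonneg; intro i _; positivity
  have h7 := xT_lemma K (DS K m).card (PS K).card T (12 * t + 44) (4 * m) hK0
    (by positivity) (by positivity) hDS hPS hTlow
  have he : 12 * t + 44 + (4 * m + 16) = 24 * t + 84 := by rw [hm]; ring
  rw [he, ← hxc] at h7
  have herr := err_lemma K x T hK0 h32 h7 hT0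
  linarith

end Pool.Agent.Helper112
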