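import Mathlib
import Pool.Agent.Helper112.Sel6

open Finset

namespace Pool.Agent.Helper112

/-- the d in DS giving a prime d k + 1 with p | d k + 2 -/
def Dk (K m x k p : ℕ) : Finset ℕ :=
  (DS K m).filter (fun d => (d * k + 1).Prime ∧ d * k + 1 ≤ x ∧ p ∣ d * k + 2)

open Classical in
/-- cofactors -/
noncomputable def Kk (B x d p z : ℕ) : Finset ℕ :=
  (Icc 1 B).filter (fun k => Sm z k ∧ (d * k + 1).Prime ∧ d * k + 1 ≤ x ∧ p ∣ d * k + 2)

theorem GG_le_Kk (K m x d p z B : ℕ) (hd : d ∈ DS K m) (hB : 8 ^ m * x ≤ B * K ^ (4 * m))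
    (hK : 1 ≤ K) : (GG x d p z).card ≤ (Kk B x d p z).card := by
  classical
  obtain ⟨d1, d2, d3, d4, d5⟩ := mem_DS hd
  have hd0 : 0 < d := Nat.pos_of_ne_zero d1.ne_zero
  apply card_le_card_of_injOn (fun q => (q - 1) / d)
  · intro q hq
    rw [mem_coe, GG, mem_filter, mem_NN] at hq
    obtain ⟨⟨h1, h2, h3, h4⟩, h5⟩ := hq
    have hq2 := h1.two_le
    have hk : 0 < (q - 1) / d := Nat.div_pos (Nat.le_of_dvd (by omega) h3) hd0
    have he : d * ((q - 1) / d) = q - 1 := Nat.mul_div_cancel' h3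
    rw [mem_coe, Kk, mem_filter, mem_Icc]
    refine ⟨⟨hk, ?_⟩, h5, ?_, ?_, ?_⟩
    · have h6 : (q - 1) / d * K ^ (4 * m) ≤ B * K ^ (4 * m) := by
        calc (q - 1) / d * K ^ (4 * m) ≤ (q - 1) / d * (8 ^ m * d) := Nat.mul_le_mul_left _ d3
          _ = 8 ^ m * (d * ((q - 1) / d)) := by ring
          _ = 8 ^ m * (q - 1) := by rw [he]
          _ ≤ 8 ^ m * x := Nat.mul_le_mul_left _ (by omega)
          _ ≤ _ := hB
      exact Nat.le_of_mul_le_mul_right h6 (by positivity)
    · rw [he, Nat.sub_add_cancel (by omega)]; exact h1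
    · rw [he, Nat.sub_add_cancel (by omega)]; exact h2
    · have : q - 1 + 2 = q + 1 := by omega
      rw [he, this]; exact h4
  · intro q hq q' hq' h
    rw [mem_coe, GG, mem_filter, mem_NN] at hq hq'
    obtain ⟨⟨h1, h2, h3, h4⟩, h5⟩ := hq
    obtain ⟨⟨h1', h2', h3', h4'⟩, h5'⟩ := hq'
    simp only at h
    have he : d * ((q - 1) / d) = q - 1 := Nat.mul_div_cancel' h3
    have he' : d * ((q' - 1) / d) = q' - 1 := Nat.mul_div_cancel' h3'
    have := h1.two_le
    have := h1'.two_le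
    rw [h, he'] at he
    omega

open Classical in
theorem sum_GG_le (K m x z B : ℕ) (hB : 8 ^ m * x ≤ B * K ^ (4 * m)) (hK : 1 ≤ K) :
    ∑ i ∈ DS K m ×ˢ PS K, (GG x i.1 i.2 z).card ≤
      ∑ k ∈ (Icc 1 B).filter (fun k => Sm z k), ∑ p ∈ PS K, (Dk K m x k p).card := by
  calc ∑ i ∈ DS K m ×ˢ PS K, (GG x i.1 i.2 z).card
      ≤ ∑ i ∈ DS K m ×ˢ PS K, (Kk B x i.1 i.2 z).card := by
        apply sum_le_sum
        intro i hi
        rw [mem_product] at hi
        exact GG_le_Kk K m x i.1 i.2 z B hi.1 hB hK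
    _ = ∑ i ∈ DS K m ×ˢ PS K, ∑ k ∈ (Icc 1 B).filter (fun k => Sm z k),
          (if (i.1 * k + 1).Prime ∧ i.1 * k + 1 ≤ x ∧ i.2 ∣ i.1 * k + 2 then 1 else 0) := by
        apply sum_congr rfl
        intro i _
        rw [← card_filter, filter_filter]
        rfl
    _ = ∑ k ∈ (Icc 1 B).filter (fun k => Sm z k), ∑ i ∈ DS K m ×ˢ PS K,
          (if (i.1 * k + 1).Prime ∧ i.1 * k + 1 ≤ x ∧ i.2 ∣ i.1 * k + 2 then 1 else 0) := sum_comm
    _ = _ := by
        apply sum_congr rfl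
        intro k _
        rw [sum_product_right]
        apply sum_congr rfl
        intro p _
        rw [Dk, card_filter]

/-- number of d ≤ D in a class mod p -/
theorem card_class_le (D p : ℕ) (hp : 0 < p) (T : Finset ℕ) (hT : ∀ d ∈ T, d ≤ D)
    (hcl : ∀ d ∈ T, ∀ d' ∈ T, d ≡ d' [MOD p]) : T.card ≤ D / p + 1 := by
  calc T.card ≤ (range (D / p + 1)).card := by
        apply card_le_card_of_injOn (fun d => d / p)
        · intro d hd
          simp only [coe_range, Set.mem_Iio]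
          have := Nat.div_le_div_right (c := p) (hT d hd)
          omega
        · intro d hd d' hd' h
          simp only at h
          have h1 := hcl d hd d' hd'
          rw [← Nat.div_add_mod d p, ← Nat.div_add_mod d' p, h, h1]
    _ = _ := card_range _

theorem Dk_card_le (K m x k p : ℕ) (hK : 8 ≤ K) (hm : 4 ≤ m) (hp : p ∈ PS K) :
    (Dk K m x k p).card ≤ 2 * K ^ (4 * m - 15) := by
  obtain ⟨p1, p2, p3, p4⟩ := mem_PS.1 hp
  have hp15 := PS_gt (by omega) hp
  by_cases hpk : p ∣ k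
  · have : Dk K m x k p = ∅ := by
      rw [Dk, filter_eq_empty_iff]
      rintro d hd ⟨h1, h2, h3⟩
      have h4 : p ∣ d * k := hpk.mul_left d
      have h5 : p ∣ 2 := (Nat.dvd_add_right h4).1 h3
      have h6 := Nat.le_of_dvd (by norm_num) h5
      have : K ≤ K ^ 15 := Nat.le_self_pow (by norm_num) K
      omega
    rw [this, card_empty]
    exact Nat.zero_le _
  · have h1 : (Dk K m x k p).card ≤ K ^ (4 * m) / p + 1 := by
      apply card_class_le _ _ p1.pos
      · intro d hd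
        rw [Dk, mem_filter] at hd
        exact (mem_DS hd.1).2.1
      · intro d hd d' hd'
        rw [Dk, mem_filter] at hd hd'
        have h2 : d * k + 2 ≡ d' * k + 2 [MOD p] :=
          ((Nat.modEq_zero_iff_dvd).2 hd.2.2.2).trans ((Nat.modEq_zero_iff_dvd).2 hd'.2.2.2).symm
        have h3 : d * k ≡ d' * k [MOD p] := Nat.ModEq.add_right_cancel' 2 h2
        exact Nat.ModEq.cancel_right_of_coprime ((Nat.Prime.coprime_iff_not_dvd p1).2 hpk) h3
    have h2 : K ^ (4 * m) / p ≤ K ^ (4 * m - 15) := by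
      apply Nat.div_le_of_le_mul
      calc K ^ (4 * m) = K ^ 15 * K ^ (4 * m - 15) := by rw [← pow_add]; congr 1; omega
        _ ≤ p * K ^ (4 * m - 15) := Nat.mul_le_mul_right _ hp15.le
    have h3 : 1 ≤ K ^ (4 * m - 15) := Nat.one_le_pow _ _ (by omega)
    omega

end Pool.Agent.Helper112
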