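import Mathlib
import Pool.Agent.Helper112.Sel7

open Finset

namespace Pool.Agent.Helper112

theorem s8_wb (K D P W Lx : ℝ) (t m : ℕ) (hK0 : 0 < K) (hL : 0 < Lx)
    (hgs : K ^ (12 * t + 44) * (D * P) ≤ 4 * Lx * W) :
    2 * P * (D / (8 ^ (m + 1) * K ^ 16 * Lx)) * (8 ^ m * K ^ (12 * t + 60)) ≤ W := by
  have h8 : K ^ (12 * t + 60) = K ^ (12 * t + 44) * K ^ 16 := by rw [← pow_add]
  have h7 : 2 * P * (D / (8 ^ (m + 1) * K ^ 16 * Lx)) * (8 ^ m * K ^ (12 * t + 60)) =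
      (K ^ (12 * t + 44) * (D * P)) / (4 * Lx) := by
    rw [h8, pow_succ]
    have h16 : K ^ 16 ≠ 0 := by positivity
    have h8' : (8 : ℝ) ^ m ≠ 0 := by positivity
    generalize K ^ (12 * t + 44) = u
    generalize K ^ 16 = v at *
    generalize (8 : ℝ) ^ m = w at *
    field_simp
    ring
  rw [h7, div_le_iff₀ (by positivity)]
  linarith

theorem s8_A (K κ D Lx : ℝ) (t m : ℕ) (hm : m = 3 * t + 6) (hK0 : 0 < K) (hL : 0 < Lx)
    (hκ0 : 0 < κ) (h6 : κ * (8 ^ (m + 1) * Lx) ≤ K) (hDS : K ^ (4 * m) ≤ κ * D) :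
    K ^ (12 * t + 7) ≤ D / (8 ^ (m + 1) * K ^ 16 * Lx) := by
  rw [le_div_iff₀ (by positivity)]
  have h8 : K ^ (4 * m) = K ^ (12 * t + 7) * K ^ 16 * K := by
    rw [← pow_add, ← pow_succ]; congr 1; rw [hm]; ring
  have h9 : κ * (K ^ (12 * t + 7) * (8 ^ (m + 1) * K ^ 16 * Lx)) ≤ κ * D := by
    calc κ * (K ^ (12 * t + 7) * (8 ^ (m + 1) * K ^ 16 * Lx)) =
        K ^ (12 * t + 7) * K ^ 16 * (κ * (8 ^ (m + 1) * Lx)) := by ring
      _ ≤ K ^ (12 * t + 7) * K ^ 16 * K := by gcongr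
      _ = K ^ (4 * m) := h8.symm
      _ ≤ κ * D := hDS
  exact le_of_mul_le_mul_left h9 hκ0

theorem s8_S (K κ P A' S : ℝ) (t m : ℕ) (hm : m = 3 * t + 6) (ht : 8 ≤ t) (hK0 : 0 < K)
    (hκ0 : 0 < κ) (h2κ : 2 * κ ≤ K) (hPS : K ^ 16 ≤ κ * P) (h10 : K ^ (12 * t + 7) ≤ A')
    (h9 : P * A' ≤ S * (2 * K ^ (4 * m - 15))) : K ^ 13 ≤ S := by
  have h11 : K ^ 13 * (2 * K ^ (4 * m - 15)) ≤ S * (2 * K ^ (4 * m - 15)) := by
    refine le_trans ?_ h9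
    have h12 : κ * (K ^ 13 * (2 * K ^ (4 * m - 15))) ≤ κ * (P * A') := by
      calc κ * (K ^ 13 * (2 * K ^ (4 * m - 15))) =
          (2 * κ) * (K ^ 13 * K ^ (4 * m - 15)) := by ring
        _ ≤ K * (K ^ 13 * K ^ (4 * m - 15)) := by gcongr
        _ = K ^ 16 * K ^ (12 * t + 7) := by
            rw [← pow_add, ← pow_succ', ← pow_add]; congr 1; omega
        _ ≤ (κ * P) * A' := by
            apply mul_le_mul hPS h10 (by positivity)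
            exact le_trans (by positivity) hPS
        _ = _ := by ring
    exact le_of_mul_le_mul_left h12 hκ0
  exact le_of_mul_le_mul_right h11 (by positivity)

/-- pigeonhole over k -/
theorem s8_pigeon (B : ℕ) (hB : 1 ≤ B) (F : Finset ℕ) (hF : F ⊆ Icc 1 B) (f : ℕ → ℕ) (W : ℝ)
    (hW : 0 < W) (hsum : W ≤ ((∑ k ∈ F, f k : ℕ) : ℝ)) : ∃ k0 ∈ F, W / B ≤ (f k0 : ℝ) := by
  have hBr : (0 : ℝ) < B := by exact_mod_cast hB
  have hFne : F.Nonempty := by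
    by_contra hcon
    rw [not_nonempty_iff_eq_empty] at hcon
    rw [hcon, sum_empty, Nat.cast_zero] at hsum
    linarith
  have hFcard : (F.card : ℝ) ≤ B := by
    have : F.card ≤ (Icc 1 B).card := card_le_card hF
    rw [Nat.card_Icc, Nat.add_sub_cancel] at this
    exact_mod_cast this
  apply exists_le_of_sum_le hFne
  rw [Nat.cast_sum] at hsum
  refine le_trans ?_ hsum
  rw [sum_const, nsmul_eq_mul]
  calc (F.card : ℝ) * (W / B) ≤ B * (W / B) := by gcongr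
    _ = W := by field_simp

/-- splitting of the sum over servers -/
theorem s8_split (PSS : Finset ℕ) (f : ℕ → ℕ) (A c : ℕ) (hc : ∀ p ∈ PSS, f p ≤ c) :
    ∑ p ∈ PSS, f p ≤ (PSS.filter (fun p => A ≤ f p)).card * c + PSS.card * A := by
  rw [← sum_filter_add_sum_filter_not PSS (fun p => A ≤ f p)]
  apply Nat.add_le_add
  · rw [← smul_eq_mul]
    apply sum_le_card_nsmul
    intro p hp
    rw [mem_filter] at hp
    exact hc p hp.1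
  · calc ∑ p ∈ PSS.filter (fun p => ¬ A ≤ f p), f p ≤ (PSS.filter (fun p => ¬ A ≤ f p)).card * A := by
          rw [← smul_eq_mul]
          apply sum_le_card_nsmul
          intro p hp
          rw [mem_filter] at hp
          omega
      _ ≤ _ := Nat.mul_le_mul_right _ (card_le_card (filter_subset _ _))

open Classical in
/-- choice of the cofactor and of the servers -/
theorem choose_k0 : ∃ t : ℕ, 8 ≤ t ∧ ∃ K0 : ℕ, ∀ K : ℕ, K0 ≤ K → ∃ k0 A : ℕ, 1 ≤ k0 ∧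
    k0 ≤ 8 ^ (3 * t + 6) * K ^ (12 * t + 60) ∧ Sm (K ^ (12 * t)) k0 ∧ K ^ (12 * t + 7) ≤ A ∧
    K ^ 13 ≤ ((PS K).filter (fun p => A ≤ (Dk K (3 * t + 6) (K ^ (24 * t + 84)) k0 p).card)).card := by
  obtain ⟨t, ht8, K1, hK1⟩ := good_sum
  refine ⟨t, ht8, ?_⟩
  obtain ⟨m, hm⟩ : ∃ m, m = 3 * t + 6 := ⟨_, rfl⟩
  rw [← hm] at hK1 ⊢
  obtain ⟨K2, hK2⟩ := PS_card
  obtain ⟨K3, hK3⟩ := DS_card m
  obtain ⟨K4, hK4⟩ := log_pow_le (8 ^ (m + 1) * (24 * t + 84)) 1 (1 / 2) (by norm_num)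
  obtain ⟨K5, hK5⟩ := const_le_rpow 2 (9 / 10) (by norm_num)
  refine ⟨max (max (max K1 K2) (max K3 K4)) (max K5 8), fun K hK => ?_⟩
  simp only [max_le_iff] at hK
  obtain ⟨⟨⟨e1, e2⟩, ⟨e3, e4⟩⟩, ⟨e5, hK8⟩⟩ := hK
  have hKr : (8 : ℝ) ≤ K := by exact_mod_cast hK8
  have hK0 : (0 : ℝ) < K := by linarith
  have hKone : (1 : ℝ) ≤ K := by linarith
  have hlogK : 1 ≤ Real.log K := by
    rw [Real.le_log_iff_exp_le (by linarith)]
    have := Real.exp_one_lt_d9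
    linarith
  have hgs := hK1 K e1
  have hPS := hK2 K e2
  have hDS := hK3 K e3
  have h4 := hK4 K e4
  have h5 := hK5 K e5
  rw [pow_one] at h4
  obtain ⟨κ, hκ⟩ : ∃ κ : ℝ, κ = (K : ℝ) ^ (1 / 10 : ℝ) := ⟨_, rfl⟩
  rw [← hκ] at hPS hDS
  have hκ0 : 0 < κ := by rw [hκ]; exact Real.rpow_pos_of_pos hK0 _
  obtain ⟨x, hx⟩ : ∃ x : ℕ, x = K ^ (24 * t + 84) := ⟨_, rfl⟩
  have hxc : (K : ℝ) ^ (24 * t + 84) = (x : ℝ) := by rw [hx]; push_cast; rfl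
  rw [hxc, ← hx] at hgs
  rw [← hx]
  have hlogx : Real.log x = (24 * t + 84) * Real.log K := by
    rw [← hxc, Real.log_pow]; push_cast; ring
  obtain ⟨Lx, hLx⟩ : ∃ Lx : ℝ, Lx = Real.log x := ⟨_, rfl⟩
  rw [← hLx] at hlogx hgs
  have hL0 : 0 < Lx := by rw [hlogx]; positivity
  have hκL : κ * (8 ^ (m + 1) * Lx) ≤ K := by
    have h7 : (8 ^ (m + 1) * Lx) ≤ (K : ℝ) ^ (1 / 2 : ℝ) := by
      rw [hlogx]; linarith
    calc κ * (8 ^ (m + 1) * Lx) ≤ κ * (K : ℝ) ^ (1 / 2 : ℝ) := by gcongr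
      _ = (K : ℝ) ^ (1 / 10 + 1 / 2 : ℝ) := by rw [hκ, ← Real.rpow_add hK0]
      _ ≤ (K : ℝ) ^ (1 : ℝ) := Real.rpow_le_rpow_of_exponent_le hKone (by norm_num)
      _ = K := Real.rpow_one _
  have h2κ : 2 * κ ≤ K := by
    calc 2 * κ ≤ (K : ℝ) ^ (9 / 10 : ℝ) * κ := by gcongr
      _ = (K : ℝ) ^ (9 / 10 + 1 / 10 : ℝ) := by rw [hκ, ← Real.rpow_add hK0]
      _ = K := by norm_num
  obtain ⟨B, hB⟩ : ∃ B : ℕ, B = 8 ^ m * K ^ (12 * t + 60) := ⟨_, rfl⟩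
  have hB0 : 1 ≤ B := by rw [hB]; exact Nat.mul_pos (by positivity) (by positivity)
  have hBc : (B : ℝ) = 8 ^ m * (K : ℝ) ^ (12 * t + 60) := by rw [hB]; push_cast; rfl
  have hBx : 8 ^ m * x ≤ B * K ^ (4 * m) := by
    rw [hB, hx, mul_assoc, ← pow_add]
    apply le_of_eq
    congr 2
    rw [hm]; ring
  have hsum := sum_GG_le K m x (K ^ (12 * t)) B hBx (by omega)
  have hP0 : (0 : ℝ) < ((PS K).card : ℝ) := by
    have h6 : (0 : ℝ) < (K : ℝ) ^ 16 := by positivity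
    exact (mul_pos_iff_of_pos_left hκ0).1 (lt_of_lt_of_le h6 hPS)
  have hD0 : (0 : ℝ) < ((DS K m).card : ℝ) := by
    have h6 : (0 : ℝ) < (K : ℝ) ^ (4 * m) := by positivity
    exact (mul_pos_iff_of_pos_left hκ0).1 (lt_of_lt_of_le h6 hDS)
  have hW0 : 0 < ∑ i ∈ DS K m ×ˢ PS K, ((GG x i.1 i.2 (K ^ (12 * t))).card : ℝ) := by
    have h7 : 0 < (K : ℝ) ^ (12 * t + 44) * (((DS K m).card : ℝ) * (PS K).card) := by positivity
    exact (mul_pos_iff_of_pos_left (by positivity)).1 (lt_of_lt_of_le h7 hgs)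
  obtain ⟨k0, hk0F, hk0⟩ := s8_pigeon B hB0 ((Icc 1 B).filter (fun k => Sm (K ^ (12 * t)) k))
    (filter_subset _ _) (fun k => ∑ p ∈ PS K, (Dk K m x k p).card)
    (∑ i ∈ DS K m ×ˢ PS K, ((GG x i.1 i.2 (K ^ (12 * t))).card : ℝ)) hW0 (by
      have h1 : ((∑ i ∈ DS K m ×ˢ PS K, (GG x i.1 i.2 (K ^ (12 * t))).card : ℕ) : ℝ) ≤
        ((∑ k ∈ (Icc 1 B).filter (fun k => Sm (K ^ (12 * t)) k), ∑ p ∈ PS K, (Dk K m x k p).card : ℕ) : ℝ) :=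
        Nat.cast_le.2 hsum
      rw [Nat.cast_sum] at h1
      exact h1)
  rw [mem_filter, mem_Icc] at hk0F
  obtain ⟨⟨hk1, hkB⟩, hkS⟩ := hk0F
  have hBr : (0 : ℝ) < B := by exact_mod_cast hB0
  have hwb := s8_wb K (DS K m).card (PS K).card _ Lx t m hK0 hL0 hgs
  rw [← hBc, ← le_div_iff₀ hBr] at hwb
  obtain ⟨A', hA'⟩ : ∃ A' : ℝ, A' = ((DS K m).card : ℝ) / (8 ^ (m + 1) * (K : ℝ) ^ 16 * Lx) := ⟨_, rfl⟩
  rw [← hA'] at hwb
  have hA7 := s8_A K κ (DS K m).card Lx t m hm hK0 hL0 hκ0 hκL hDS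
  rw [← hA'] at hA7
  have hA'0 : 0 ≤ A' := le_trans (by positivity) hA7
  refine ⟨k0, ⌊A'⌋₊, hk1, ?_, hkS, ?_, ?_⟩
  · rw [← hB]; exact hkB
  · apply Nat.le_floor
    push_cast
    exact hA7
  · have hsp := s8_split (PS K) (fun p => (Dk K m x k0 p).card) ⌊A'⌋₊ (2 * K ^ (4 * m - 15))
      (fun p hp => Dk_card_le K m x k0 p hK8 (by omega) hp)
    have hsp' : ((∑ p ∈ PS K, (Dk K m x k0 p).card : ℕ) : ℝ) ≤
        ((((PS K).filter (fun p => ⌊A'⌋₊ ≤ (Dk K m x k0 p).card)).card * (2 * K ^ (4 * m - 15)) +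
          (PS K).card * ⌊A'⌋₊ : ℕ) : ℝ) := Nat.cast_le.2 hsp
    rw [Nat.cast_add, Nat.cast_mul, Nat.cast_mul, Nat.cast_mul, Nat.cast_pow] at hsp'
    have h10 : (⌊A'⌋₊ : ℝ) ≤ A' := Nat.floor_le hA'0
    have h11 : ((PS K).card : ℝ) * ⌊A'⌋₊ ≤ ((PS K).card : ℝ) * A' := by gcongr
    have hfin := s8_S K κ (PS K).card A'
      (((PS K).filter (fun p => ⌊A'⌋₊ ≤ (Dk K m x k0 p).card)).card : ℝ) t m hm ht8 hK0 hκ0 h2κ hPS hA7 (by
        push_cast at hsp' hk0 ⊢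
        linarith)
    exact_mod_cast hfin

end Pool.Agent.Helper112
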