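import Mathlib
import Pool.Agent.Helper112.Sel8

open Finset

namespace Pool.Agent.Helper112

theorem card_primeFactors_small (K e k : ℕ) (hk : 1 ≤ k) (hkK : k ≤ K ^ e) :
    k.primeFactors.card ≤ K * e := by
  have h1 : 2 ^ k.primeFactors.card ≤ ∏ p ∈ k.primeFactors, p := by
    apply Finset.pow_card_le_prod
    intro p hp
    exact (Nat.prime_of_mem_primeFactors hp).two_le
  have h2 : ∏ p ∈ k.primeFactors, p ≤ k := Nat.le_of_dvd (by omega) (Nat.prod_primeFactors_dvd k)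
  have h3 : K ^ e ≤ (2 ^ K) ^ e := Nat.pow_le_pow_left (Nat.lt_two_pow_self).le e
  rw [← pow_mul] at h3
  exact (Nat.pow_le_pow_iff_right (by norm_num)).1 (h1.trans (h2.trans (hkK.trans h3)))

theorem selection : ∃ K0 : ℕ, ∀ K : ℕ, K0 ≤ K → ∃ (Q S : Finset ℕ) (A : ℕ),
    (∀ q ∈ Q, q.Prime) ∧ (∀ p ∈ S, p.Prime) ∧ Disjoint Q S ∧
    (∀ p ∈ S, A ≤ (Q.filter (fun q => p ∣ q + 1)).card) ∧
    (∀ r ∈ Q ∪ S, ∀ l v : ℕ, l.Prime → 1 ≤ v → l ^ v ∣ r - 1 → l ^ v ≤ A ∧ l ∉ S) ∧
    ((Q ∪ S).biUnion (fun r => (r - 1).primeFactors)).card ≤ S.card ∧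
    2 ≤ Q.card ∧ (∃ q ∈ Q, K ≤ q) := by
  obtain ⟨t, ht8, K1, hK1⟩ := choose_k0
  obtain ⟨m, hm⟩ : ∃ m, m = 3 * t + 6 := ⟨_, rfl⟩
  rw [← hm] at hK1
  refine ⟨max (max K1 8) (max (8 ^ m) (12 * t + 61)), fun K hK => ?_⟩
  simp only [max_le_iff] at hK
  obtain ⟨⟨e1, hK8⟩, ⟨h8m, h12t⟩⟩ := hK
  obtain ⟨k0, A, hk1, hkB, hkS, hA, hScard⟩ := hK1 K e1
  obtain ⟨x, hx⟩ : ∃ x : ℕ, x = K ^ (24 * t + 84) := ⟨_, rfl⟩
  rw [← hx] at hScard
  set S := (PS K).filter (fun p => A ≤ (Dk K m x k0 p).card) with hS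
  set Q := ((DS K m).filter (fun d => (d * k0 + 1).Prime ∧ d * k0 + 1 ≤ x)).image
    (fun d => d * k0 + 1) with hQ
  have hK1' : 1 ≤ K := by omega
  have hA1 : 2 ≤ A := by
    have : K ≤ K ^ (12 * t + 7) := Nat.le_self_pow (by omega) K
    omega
  have hQmem : ∀ q ∈ Q, ∃ d ∈ DS K m, q.Prime ∧ q = d * k0 + 1 := by
    intro q hq
    rw [hQ, mem_image] at hq
    obtain ⟨d, hd, rfl⟩ := hq
    rw [mem_filter] at hd
    exact ⟨d, hd.1, hd.2.1, rfl⟩
  have hSmem : ∀ p ∈ S, p ∈ PS K ∧ A ≤ (Dk K m x k0 p).card := by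
    intro p hp
    rw [hS, mem_filter] at hp
    exact hp
  -- d is large
  have hdbig : ∀ d ∈ DS K m, K ^ 16 ≤ d := by
    intro d hd
    obtain ⟨d1, d2, d3, _⟩ := mem_DS hd
    have h1 : K * K ^ 16 ≤ K * d := by
      calc K * K ^ 16 = K ^ 17 := by ring
        _ ≤ K ^ (4 * m) := Nat.pow_le_pow_right hK1' (by omega)
        _ ≤ 8 ^ m * d := d3
        _ ≤ K * d := Nat.mul_le_mul_right _ h8m
    exact Nat.le_of_mul_le_mul_left h1 hK1'
  have hqbig : ∀ q ∈ Q, K ^ 16 < q := by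
    intro q hq
    obtain ⟨d, hd, hqp, rfl⟩ := hQmem q hq
    have := hdbig d hd
    have h2 : d * 1 ≤ d * k0 := Nat.mul_le_mul_left _ hk1
    omega
  -- the capacity
  have hcap : ∀ p ∈ S, A ≤ (Q.filter (fun q => p ∣ q + 1)).card := by
    intro p hp
    obtain ⟨hp1, hp2⟩ := hSmem p hp
    refine hp2.trans ?_
    apply card_le_card_of_injOn (fun d => d * k0 + 1)
    · intro d hd
      rw [mem_coe, Dk, mem_filter] at hd
      rw [mem_coe, mem_filter]
      refine ⟨?_, hd.2.2.2⟩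
      rw [hQ]
      exact mem_image_of_mem _ (mem_filter.2 ⟨hd.1, hd.2.1, hd.2.2.1⟩)
    · intro d _ d' _ h
      simp only at h
      have h2 : d * k0 = d' * k0 := by omega
      exact Nat.eq_of_mul_eq_mul_right hk1 h2
  -- servers do not divide k0
  have hSk0 : ∀ p ∈ S, ¬ p ∣ k0 := by
    intro p hp hpk
    obtain ⟨hp1, hp2⟩ := hSmem p hp
    have hne : (Dk K m x k0 p).Nonempty := by
      rw [← card_pos]; omega
    obtain ⟨d, hd⟩ := hne
    rw [Dk, mem_filter] at hd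
    have h4 : p ∣ d * k0 := hpk.mul_left d
    have h5 : p ∣ 2 := (Nat.dvd_add_right h4).1 hd.2.2.2
    have h6 := Nat.le_of_dvd (by norm_num) h5
    have h7 := PS_gt hK1' hp1
    have : K ≤ K ^ 15 := Nat.le_self_pow (by norm_num) K
    omega
  -- prime factors of p - 1 for servers
  have hserv : ∀ p ∈ S, ∀ l : ℕ, l.Prime → l ∣ p - 1 → l ≤ 8 * K ^ 11 := by
    intro p hp l hl hlp
    obtain ⟨hp1, hp2⟩ := hSmem p hp
    obtain ⟨p1, p2, p3, s, hs, hsp⟩ := mem_PS.1 hp1
    obtain ⟨s1, s2, s3⟩ := mem_dyP.1 hs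
    have hp2' := p1.two_le
    by_cases hls : l = s
    · rw [hls]
      calc s ≤ K ^ 5 := s2
        _ ≤ K ^ 11 := Nat.pow_le_pow_right hK1' (by norm_num)
        _ ≤ 8 * K ^ 11 := by omega
    · have hcop : Nat.Coprime l s := (Nat.coprime_primes hl s1).2 hls
      have h1 : l * s ∣ p - 1 := hcop.mul_dvd_of_dvd_of_dvd hlp hsp
      have h2 : l * s ≤ p - 1 := Nat.le_of_dvd (by omega) h1
      have h3 : l * K ^ 5 ≤ 8 * K ^ 11 * K ^ 5 := by
        calc l * K ^ 5 ≤ l * (8 * s) := Nat.mul_le_mul_left _ s3.le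
          _ = 8 * (l * s) := by ring
          _ ≤ 8 * K ^ 16 := by omega
          _ = 8 * K ^ 11 * K ^ 5 := by ring
      exact Nat.le_of_mul_le_mul_right h3 (by positivity)
  have h8K11 : 8 * K ^ 11 ≤ K ^ 12 := by
    calc 8 * K ^ 11 ≤ K * K ^ 11 := Nat.mul_le_mul_right _ hK8
      _ = K ^ 12 := by ring
  have hK12 : K ^ 12 ≤ K ^ 15 := Nat.pow_le_pow_right hK1' (by norm_num)
  refine ⟨Q, S, A, ?_, ?_, ?_, hcap, ?_, ?_, ?_, ?_⟩
  · intro q hq
    obtain ⟨d, hd, hqp, _⟩ := hQmem q hq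
    exact hqp
  · intro p hp
    exact (mem_PS.1 (hSmem p hp).1).1
  · rw [disjoint_left]
    intro q hq hq'
    have h1 := hqbig q hq
    have h2 := (mem_PS.1 (hSmem q hq').1).2.1
    omega
  · intro r hr l v hl hv hlv
    rw [mem_union] at hr
    have hl_dvd : l ∣ r - 1 := (dvd_pow_self l (by omega)).trans hlv
    rcases hr with hr | hr
    · obtain ⟨d, hd, hqp, hre⟩ := hQmem r hr
      obtain ⟨d1, d2, d3, d4, d5⟩ := mem_DS hd
      have hr1 : r - 1 = d * k0 := by omega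
      rw [hr1] at hlv hl_dvd
      constructor
      · by_cases hld : l ∣ d
        · have hl4 : l ≤ K ^ 4 := (mem_dyP.1 (d4 (Nat.mem_primeFactors.2 ⟨hl, hld, d1.ne_zero⟩))).2.1
          obtain ⟨d', hd'⟩ := hld
          have hld' : ¬ l ∣ d' := by
            intro h
            obtain ⟨c, hc⟩ := h
            have : l * l ∣ d := ⟨c, by rw [hd', hc]; ring⟩
            have h2 := d1 l this
            exact hl.one_lt.ne' (Nat.isUnit_iff.1 h2)
          obtain ⟨w, rfl⟩ : ∃ w, v = w + 1 := ⟨v - 1, by omega⟩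
          have h1 : l ^ w ∣ d' * k0 := by
            have h2 : l ^ w * l ∣ (d' * k0) * l := by
              rw [← pow_succ]
              have : d' * k0 * l = d * k0 := by rw [hd']; ring
              rw [this]; exact hlv
            exact Nat.dvd_of_mul_dvd_mul_right hl.pos h2
          have h2 : Nat.Coprime (l ^ w) d' := Nat.Coprime.pow_left w ((Nat.Prime.coprime_iff_not_dvd hl).2 hld')
          have h3 : l ^ w ∣ k0 := h2.dvd_of_dvd_mul_left h1
          have h4 : l ^ w ≤ K ^ (12 * t) := by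
            rcases Nat.eq_zero_or_pos w with h0 | h0
            · rw [h0, pow_zero]; exact Nat.one_le_pow _ _ hK1'
            · exact hkS l w hl h0 h3
          calc l ^ (w + 1) = l ^ w * l := pow_succ _ _
            _ ≤ K ^ (12 * t) * K ^ 4 := Nat.mul_le_mul h4 hl4
            _ = K ^ (12 * t + 4) := (pow_add _ _ _).symm
            _ ≤ K ^ (12 * t + 7) := Nat.pow_le_pow_right hK1' (by omega)
            _ ≤ A := hA
        · have h2 : Nat.Coprime (l ^ v) d := Nat.Coprime.pow_left v ((Nat.Prime.coprime_iff_not_dvd hl).2 hld)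
          have h3 : l ^ v ∣ k0 := h2.dvd_of_dvd_mul_left hlv
          calc l ^ v ≤ K ^ (12 * t) := hkS l v hl hv h3
            _ ≤ K ^ (12 * t + 7) := Nat.pow_le_pow_right hK1' (by omega)
            _ ≤ A := hA
      · intro hlS
        have h1 := (hSmem l hlS).1
        rcases (Nat.Prime.dvd_mul hl).1 hl_dvd with h2 | h2
        · exact not_dvd_of_DS hK8 hd h1 h2
        · exact hSk0 l hlS h2
    · have hrP := (hSmem r hr).1
      obtain ⟨p1, p2, p3, p4⟩ := mem_PS.1 hrP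
      have hp2 := p1.two_le
      constructor
      · calc l ^ v ≤ r - 1 := Nat.le_of_dvd (by omega) hlv
          _ ≤ K ^ 16 := by omega
          _ ≤ K ^ (12 * t + 7) := Nat.pow_le_pow_right hK1' (by omega)
          _ ≤ A := hA
      · intro hlS
        have h1 := hserv r hr l hl hl_dvd
        have h2 := PS_gt hK1' (hSmem l hlS).1
        omega
  · have hsub : (Q ∪ S).biUnion (fun r => (r - 1).primeFactors) ⊆ Icc 1 (K ^ 12) ∪ k0.primeFactors := by
      intro l hl
      rw [mem_biUnion] at hl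
      obtain ⟨r, hr, hlr⟩ := hl
      rw [Nat.mem_primeFactors] at hlr
      obtain ⟨hlp, hld, hr0⟩ := hlr
      rw [mem_union] at hr ⊢
      rcases hr with hr | hr
      · obtain ⟨d, hd, hqp, hre⟩ := hQmem r hr
        obtain ⟨d1, d2, d3, d4, d5⟩ := mem_DS hd
        have hr1 : r - 1 = d * k0 := by omega
        rw [hr1] at hld
        rcases (Nat.Prime.dvd_mul hlp).1 hld with h2 | h2
        · left
          rw [mem_Icc]
          refine ⟨hlp.one_lt.le, ?_⟩
          calc l ≤ K ^ 4 := (mem_dyP.1 (d4 (Nat.mem_primeFactors.2 ⟨hlp, h2, d1.ne_zero⟩))).2.1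
            _ ≤ K ^ 12 := Nat.pow_le_pow_right hK1' (by norm_num)
        · right
          exact Nat.mem_primeFactors.2 ⟨hlp, h2, by omega⟩
      · left
        rw [mem_Icc]
        exact ⟨hlp.one_lt.le, (hserv r hr l hlp hld).trans h8K11⟩
    have h1 := (card_le_card hsub).trans (card_union_le _ _)
    rw [Nat.card_Icc, Nat.add_sub_cancel] at h1
    have h2 : k0.primeFactors.card ≤ K * (12 * t + 61) := by
      apply card_primeFactors_small K _ k0 hk1
      calc k0 ≤ 8 ^ m * K ^ (12 * t + 60) := hkB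
        _ ≤ K * K ^ (12 * t + 60) := Nat.mul_le_mul_right _ h8m
        _ = K ^ (12 * t + 61) := (pow_succ' _ _).symm
    have h3 : K * (12 * t + 61) ≤ K * K := Nat.mul_le_mul_left _ h12t
    have h4 : K * K ≤ K ^ 12 := by
      calc K * K = K ^ 2 := by ring
        _ ≤ K ^ 12 := Nat.pow_le_pow_right hK1' (by norm_num)
    have h5 : 2 * K ^ 12 ≤ K ^ 13 := by
      calc 2 * K ^ 12 ≤ K * K ^ 12 := Nat.mul_le_mul_right _ (by omega)
        _ = K ^ 13 := by ring
    omega
  · have hSne : S.Nonempty := by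
      rw [← card_pos]
      have : 1 ≤ K ^ 13 := Nat.one_le_pow _ _ hK1'
      omega
    obtain ⟨p, hp⟩ := hSne
    have h1 := hcap p hp
    have h2 := card_le_card (filter_subset (fun q => p ∣ q + 1) Q)
    omega
  · have hSne : S.Nonempty := by
      rw [← card_pos]
      have : 1 ≤ K ^ 13 := Nat.one_le_pow _ _ hK1'
      omega
    obtain ⟨p, hp⟩ := hSne
    have h1 := hcap p hp
    have h2 := card_le_card (filter_subset (fun q => p ∣ q + 1) Q)
    have hQne : Q.Nonempty := by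
      rw [← card_pos]; omega
    obtain ⟨q, hq⟩ := hQne
    refine ⟨q, hq, ?_⟩
    have h3 := hqbig q hq
    have : K ≤ K ^ 16 := Nat.le_self_pow (by norm_num) K
    omega

end Pool.Agent.Helper112
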